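import Mathlib
import Pool.Agent.LibND.Defs

set_option autoImplicit false

/-! Restricted permutational wreath products of arbitrary groups, and elementary amenable groups. -/

namespace Pool.Agent.LibNW45

universe u

/-- The restricted permutational wreath product `V ≀_X H` of a group `V` and a group `H` acting on
`X`: the pairs `(f, h)` of a function `f : X → V` which is `1` at all but finitely many points and
an element `h` of `H`, with `(f, h) (f', h') = (x ↦ f x * f' (h⁻¹ • x), h * h')`. -/
@[ext] structure PW (V H X : Type u) [Group V] [Group H] [MulAction H X] : Type u where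
  /-- the function `X → V` -/
  fst : X → V
  /-- the function is `1` outside a finite set -/
  fin : (Function.mulSupport fst).Finite
  /-- the element of `H` -/
  snd : H

namespace PW

variable {V H X : Type u} [Group V] [Group H] [MulAction H X]

instance : Mul (PW V H X) where
  mul f g :=
    { fst := fun x => f.fst x * g.fst (f.snd⁻¹ • x)
      fin := by
        refine (f.fin.union (g.fin.image fun x => f.snd • x)).subset ?_
        intro x hx
        rw [Function.mem_mulSupport] at hx
        by_cases h : f.fst x = 1
        · right
          refine ⟨f.snd⁻¹ • x, ?_, smul_inv_smul _ _⟩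
          rw [Function.mem_mulSupport]
          intro h'
          exact hx (by rw [h, h', mul_one])
        · left
          exact h
      snd := f.snd * g.snd }

instance : One (PW V H X) where
  one :=
    { fst := fun _ => 1
      fin := by
        refine Set.finite_empty.subset ?_
        intro x hx
        exact hx rfl
      snd := 1 }

instance : Inv (PW V H X) where
  inv f :=
    { fst := fun x => (f.fst (f.snd • x))⁻¹
      fin := by
        refine (f.fin.image fun x => f.snd⁻¹ • x).subset ?_
        intro x hx
        rw [Function.mem_mulSupport] at hx
        refine ⟨f.snd • x, ?_, inv_smul_smul _ _⟩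
        rw [Function.mem_mulSupport]
        intro h'
        exact hx (by rw [h', inv_one])
      snd := f.snd⁻¹ }

@[simp] theorem mul_fst (f g : PW V H X) (x : X) :
    (f * g).fst x = f.fst x * g.fst (f.snd⁻¹ • x) := rfl
@[simp] theorem mul_snd (f g : PW V H X) : (f * g).snd = f.snd * g.snd := rfl
@[simp] theorem one_fst (x : X) : (1 : PW V H X).fst x = 1 := rfl
@[simp] theorem one_snd : (1 : PW V H X).snd = 1 := rfl
@[simp] theorem inv_fst (f : PW V H X) (x : X) : (f⁻¹).fst x = (f.fst (f.snd • x))⁻¹ := rfl
@[simp] theorem inv_snd (f : PW V H X) : (f⁻¹).snd = f.snd⁻¹ := rfl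

instance : Group (PW V H X) :=
  Group.ofLeftAxioms
    (fun f g h => by
      apply PW.ext
      · funext x
        simp [mul_assoc, mul_smul]
      · simp [mul_assoc])
    (fun f => by
      apply PW.ext
      · funext x
        simp
      · simp)
    (fun f => by
      apply PW.ext
      · funext x
        simp
      · simp)

end PW

/-- A class of groups which is closed under isomorphisms, contains all finite groups and all abelian
groups, and is closed under subgroups, quotients, extensions and directed unions. -/
structure EAClass (P : ∀ (G : Type u) [Group G], Prop) : Prop where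
  iso : ∀ (G K : Type u) [Group G] [Group K], Nonempty (G ≃* K) → P G → P K
  finite : ∀ (G : Type u) [Group G], Finite G → P G
  comm : ∀ (G : Type u) [Group G], (∀ a b : G, a * b = b * a) → P G
  sub : ∀ (G : Type u) [Group G] (K : Subgroup G), P G → P K
  quot : ∀ (G : Type u) [Group G] (N : Subgroup G) [N.Normal], P G → P (G ⧸ N)
  ext : ∀ (G : Type u) [Group G] (N : Subgroup G) [N.Normal], P N → P (G ⧸ N) → P G
  union : ∀ (G : Type u) [Group G] (𝒮 : Set (Subgroup G)), 𝒮.Nonempty → DirectedOn (· ≤ ·) 𝒮 →
    (∀ g : G, ∃ K ∈ 𝒮, g ∈ K) → (∀ K ∈ 𝒮, P K) → P G

/-- The elementary amenable groups: the smallest class of groups which contains all finite groups and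
all abelian groups and is closed under subgroups, quotients, extensions and directed unions. -/
def EA (G : Type u) [Group G] : Prop := ∀ P : (∀ (G : Type u) [Group G], Prop), EAClass P → P G

/-- A subgroup of finite index has a nontrivial homomorphism to the additive group `ℝ`. -/
def VI (V : Type u) [Group V] : Prop :=
  ∃ (V₀ : Subgroup V) (l : V₀ →* Multiplicative ℝ), V₀.FiniteIndex ∧ l ≠ 1

end Pool.Agent.LibNW45
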