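import Mathlib
import Pool.Agent.LibNV.V20

set_option autoImplicit false

/-! Non-recurrent characters of a module `M` over a finitely generated virtually abelian group. -/

namespace Pool.Agent.LibNW45

open Pool.Agent.LibND Pool.Agent.LibNM Pool.Agent.LibNV Polynomial

/-- a stable subgroup with a non-recurrent character and many independent elements -/
theorem pair_of_JI {Γ M : Type} [Group Γ] [AddCommGroup M] (Γ₀ : Subgroup Γ)
    (β : Γ →* AddMonoid.End M) (hJ : JI β Γ₀) (k : ℕ) :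
    ∃ (BM : AddSubgroup M) (χ : AddChar BM Circle) (E₀ : Finset BM) (ε : ℝ) (a : Fin k → M)
      (hβ : ∀ γ, ∀ m ∈ BM, β γ m ∈ BM), 0 < ε ∧
      (∀ γ, γ ≠ 1 → ∃ b ∈ E₀, ε ≤ dist (χ ⟨β γ b, hβ γ b b.2⟩) (χ b)) ∧
      ∀ c : Fin k → ℤ, ∑ i, c i • a i ∈ BM → c = 0 := by
  classical
  obtain ⟨V, _, _, ρ, ι, hι, hιρ, hιV, hQ⟩ := rationalize β Γ₀ hJ
  obtain ⟨E, _, _, _, _, _, _, _, _, _, _, _, κ, h1, h2, h3⟩ := structureV ρ Γ₀ hQ
  haveI := hQ.fin
  haveI : Nontrivial V := by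
    by_contra h
    rw [not_nontrivial_iff_subsingleton] at h
    exact hQ.inf inferInstance
  let ρ' : Γ →* AddMonoid.End V :=
    { toFun := fun γ => (ρ γ).toAddMonoidHom
      map_one' := by
        ext x
        rw [map_one]
        rfl
      map_mul' := fun a b => by
        ext x
        rw [map_mul]
        rfl }
  have hρ' : ∀ γ x, ρ' γ x = ρ γ x := fun γ x => rfl
  have h4 : ∀ γ, (∀ x, ρ' γ x = x) → γ = 1 := hQ.faith
  obtain ⟨s, φ, hφ, hs⟩ := tests hQ.fg Γ₀ hQ.comm ρ' κ (fun γ x => h2 γ x) h3 h4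
  obtain ⟨g, a, hg, ha⟩ := independentV ι hιV k
  have hginj : ∀ x y : V, g • x = g • y → x = y := by
    intro x y hxy
    have : g • (x - y) = 0 := by rw [smul_sub, hxy, sub_self]
    rcases smul_eq_zero.1 this with h | h
    · exact absurd h hg
    · exact sub_eq_zero.1 h
  -- the subgroup `B`
  let BM : AddSubgroup M :=
    { carrier := {m | ∃ x : V, ι m = g • x}
      zero_mem' := ⟨0, by simp⟩
      add_mem' := by
        rintro m m' ⟨x, hx⟩ ⟨y, hy⟩
        exact ⟨x + y, by rw [map_add, hx, hy, smul_add]⟩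
      neg_mem' := by
        rintro m ⟨x, hx⟩
        exact ⟨-x, by rw [map_neg, hx, smul_neg]⟩ }
  have hBM : ∀ m, m ∈ BM ↔ ∃ x : V, ι m = g • x := fun m => Iff.rfl
  choose q hq using fun m : BM => (hBM m).1 m.2
  let ιB : BM →+ V :=
    { toFun := q
      map_zero' := by
        apply hginj
        rw [← hq, smul_zero]
        simp
      map_add' := fun x y => by
        apply hginj
        rw [← hq, smul_add, ← hq, ← hq]
        simp }
  have hιB : ∀ b : BM, ι b = g • ιB b := hq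
  have hβB : ∀ γ, ∀ m ∈ BM, β γ m ∈ BM := by
    rintro γ m ⟨x, hx⟩
    exact ⟨ρ γ x, by rw [hιρ, hx, h1]⟩
  let αB : Γ → BM → BM := fun γ b => ⟨β γ b, hβB γ b b.2⟩
  have hαB : ∀ γ b, ιB (αB γ b) = ρ' γ (ιB b) := by
    intro γ b
    apply hginj
    rw [← hιB, hρ', ← h1, ← hιB, ← hιρ]
  have hιBV : ∀ x : V, ∃ n : ℤ, n ≠ 0 ∧ ∃ b, n • x = ιB b := by
    intro x
    obtain ⟨m, hm, b, hb⟩ := hιV (g • x)
    have hb' : ι b = g • (m • x) := by rw [← hb, smul_comm]
    refine ⟨m, hm, ⟨b, ⟨m • x, hb'⟩⟩, ?_⟩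
    apply hginj
    rw [← hιB]
    exact hb'.symm
  obtain ⟨χ, E₀, ε, hε, hχ⟩ := nonrecurrentV ρ' (fun γ q x => h1 γ q x) h4 s φ hφ hs αB ιB hαB hιBV
  exact ⟨BM, χ, E₀, ε, a, hβB, hε, hχ, ha⟩

end Pool.Agent.LibNW45
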