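import Mathlib
import Pool.Agent.LibNW45.I1
import Pool.Agent.LibND.N22

set_option autoImplicit false

/-! Modules which contain an induced module. -/

namespace Pool.Agent.LibNW45

open Pool.Agent.LibND Pool.Agent.LibNM Pool.Agent.LibNV

universe w

/-- The translates of the image of `M` by elements of `Γ` in different left cosets of the image of
`D` are independent: the module induced from `M` embeds into `A`. -/
def Indep {Γ D A M : Type} [Group Γ] [Group D] [AddCommGroup A] [AddCommGroup M]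
    (α : Γ →* AddMonoid.End A) (δ : D →* Γ) (i : M →+ A) : Prop :=
  ∀ (s : Finset Γ) (m : Γ → M), (∀ a ∈ s, ∀ b ∈ s, a⁻¹ * b ∈ δ.range → a = b) →
    ∑ t ∈ s, α t (i (m t)) = 0 → ∀ t ∈ s, m t = 0

section

variable {Γ D A M : Type} [Group Γ] [Group D] [AddCommGroup A] [AddCommGroup M]
  (α : Γ →* AddMonoid.End A) (δ : D →* Γ)

open Classical in
/-- representatives of the cosets -/
noncomputable def rp (q : Γ ⧸ δ.range) : Γ := if q = ((1 : Γ) : Γ ⧸ δ.range) then 1 else q.out

theorem rp_one : rp δ ((1 : Γ) : Γ ⧸ δ.range) = 1 := if_pos rfl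

theorem rp_mk (q : Γ ⧸ δ.range) : ((rp δ q : Γ) : Γ ⧸ δ.range) = q := by
  unfold rp
  split_ifs with h
  · exact h.symm
  · exact QuotientGroup.out_eq' q

theorem rp_smul (γ : Γ) (q : Γ ⧸ δ.range) : ∃ d : D, γ * rp δ q = rp δ (γ • q) * δ d := by
  have h1 : ((rp δ (γ • q) : Γ) : Γ ⧸ δ.range) = ((γ * rp δ q : Γ) : Γ ⧸ δ.range) := by
    rw [rp_mk]
    conv_lhs => rw [← rp_mk δ q]
    rfl
  rw [QuotientGroup.eq] at h1
  obtain ⟨d, hd⟩ := h1
  exact ⟨d, by rw [hd, mul_inv_cancel_left]⟩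

/-- the map from the induced module -/
noncomputable def Ph {N : Type} [AddCommGroup N] (f : N →+ A) : ((Γ ⧸ δ.range) →₀ N) →+ A :=
  Finsupp.liftAddHom (fun q => (α (rp δ q)).comp f)

theorem Ph_single {N : Type} [AddCommGroup N] (f : N →+ A) (q : Γ ⧸ δ.range) (x : N) :
    Ph α δ f (Finsupp.single q x) = α (rp δ q) (f x) := by
  unfold Ph
  rw [Finsupp.liftAddHom_apply_single]
  rfl

theorem Ph_inj (i : M →+ A) (hind : Indep α δ i) : Function.Injective (Ph α δ i) := by
  classical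
  rw [injective_iff_map_eq_zero]
  intro v hv
  have hinj : ∀ a b : Γ ⧸ δ.range, rp δ a = rp δ b → a = b := by
    intro a b hab
    rw [← rp_mk δ a, hab, rp_mk]
  have h1 : Ph α δ i v = ∑ q ∈ v.support, α (rp δ q) (i (v q)) := by
    unfold Ph
    rw [Finsupp.liftAddHom_apply]
    rfl
  have h2 : ∑ t ∈ v.support.image (rp δ), α t (i (v ((t : Γ) : Γ ⧸ δ.range))) = 0 := by
    rw [Finset.sum_image (fun a _ b _ h => hinj a b h), ← hv, h1]
    refine Finset.sum_congr rfl fun q _ => ?_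
    rw [rp_mk]
  have h3 := hind (v.support.image (rp δ)) (fun t => v ((t : Γ) : Γ ⧸ δ.range)) ?_ h2
  · ext q
    rw [Finsupp.zero_apply]
    by_contra hq
    have h4 := h3 (rp δ q) (Finset.mem_image_of_mem _ (Finsupp.mem_support_iff.2 hq))
    simp only [rp_mk] at h4
    exact hq h4
  · intro a ha b hb hab
    obtain ⟨x, -, rfl⟩ := Finset.mem_image.1 ha
    obtain ⟨y, -, rfl⟩ := Finset.mem_image.1 hb
    rw [← QuotientGroup.eq, rp_mk, rp_mk] at hab
    rw [hab]

end

theorem induced {G G₀ Γ D A M : Type} [Group G] [Group G₀] [Group Γ] [Group D] [AddCommGroup A]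
    [AddCommGroup M] (p : G →* G₀) (hp : Function.Surjective p) (α : Γ →* AddMonoid.End A)
    (j : Multiplicative A →* G₀) (π : G₀ →* Γ) (hext : IsExt α j π) (δ : D →* Γ)
    (β : D →* AddMonoid.End M) (i : M →+ A)
    (hi : ∀ d m, i (β d m) = α (δ d) (i m)) (hind : Indep α δ i) (hD : Nontrivial D)
    (hP : ∀ k : ℕ, ∃ (BM : AddSubgroup M) (χ : AddChar BM Circle) (E₀ : Finset BM) (ε : ℝ)
      (a : Fin k → M) (hβ : ∀ γ, ∀ m ∈ BM, β γ m ∈ BM), 0 < ε ∧
      (∀ γ, γ ≠ 1 → ∃ b ∈ E₀, ε ≤ dist (χ ⟨β γ b, hβ γ b b.2⟩) (χ b)) ∧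
      ∀ c : Fin k → ℤ, ∑ i, c i • a i ∈ BM → c = 0)
    {C : Type w} [CStarAlgebra C] [PartialOrder C] [StarOrderedRing C] (U : G →* unitary C)
    (hC : IsGroupCStar G C U) (n : ℕ) : ¬ NucDimLE C n := by
  classical
  obtain ⟨BM, χ, E₀, ε, a, hβ, hε, hχ, ha⟩ := hP (n + 1)
  -- an element with nontrivial value
  obtain ⟨b₁, hb₁⟩ : ∃ b₁ : BM, χ b₁ ≠ 1 := by
    obtain ⟨d, hd⟩ := exists_ne (1 : D)
    obtain ⟨b, -, hb⟩ := hχ d hd
    by_contra hcon
    push Not at hcon
    rw [hcon, hcon, dist_self] at hb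
    exact absurd hb (not_le.2 hε)
  obtain ⟨q₀, hq₀⟩ : ∃ q₀ : Γ ⧸ δ.range, q₀ = ((1 : Γ) : Γ ⧸ δ.range) := ⟨_, rfl⟩
  have hr1 : rp δ q₀ = 1 := by rw [hq₀, rp_one]
  have hinj := Ph_inj α δ i hind
  obtain ⟨f, hf⟩ : ∃ f : BM →+ A, f = i.comp BM.subtype := ⟨_, rfl⟩
  have hfx : ∀ b : BM, f b = i b := by
    intro b
    rw [hf]
    rfl
  -- comparison of the two maps
  have hcmp : ∀ v : (Γ ⧸ δ.range) →₀ BM,
      Ph α δ f v = Ph α δ i (Finsupp.mapRange.addMonoidHom BM.subtype v) := by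
    intro v
    induction v using Finsupp.induction_linear with
    | zero => rw [map_zero, map_zero, map_zero]
    | add x y hx hy => rw [map_add, hx, hy, map_add, map_add]
    | single q b =>
      rw [Ph_single, Finsupp.mapRange.addMonoidHom_apply, Finsupp.mapRange_single, Ph_single, hfx]
      rfl
  have hfinj : Function.Injective (Ph α δ f) := by
    intro x y hxy
    rw [hcmp, hcmp] at hxy
    have h1 := hinj hxy
    ext q
    have h2 := DFunLike.congr_fun h1 q
    simpa using h2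
  let e := AddMonoidHom.ofInjective hfinj
  have he : ∀ v, ((e v : (Ph α δ f).range) : A) = Ph α δ f v := fun v => rfl
  obtain ⟨χ', hχ'⟩ := ext_circle (Ph α δ f).range
    (χ.compAddMonoidHom ((Finsupp.applyAddHom q₀).comp e.symm.toAddMonoidHom))
  have hχ'v : ∀ v, χ' (Ph α δ f v) = χ (v q₀) := by
    intro v
    rw [← he, hχ']
    simp
  have hone : ∀ b : BM, i b = Ph α δ f (Finsupp.single q₀ b) := by
    intro b
    rw [Ph_single, hr1, map_one, hfx]
    rfl
  -- the action on the induced module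
  have hact : ∀ (γ : Γ) (q : Γ ⧸ δ.range) (b : BM), ∃ d : D,
      α γ (Ph α δ f (Finsupp.single q b)) =
        Ph α δ f (Finsupp.single (γ • q) ⟨β d b, hβ d b b.2⟩) := by
    intro γ q b
    obtain ⟨d, hd⟩ := rp_smul δ γ q
    refine ⟨d, ?_⟩
    rw [Ph_single, Ph_single, hfx, hfx]
    have h1 : α γ (α (rp δ q) (i b)) = α (γ * rp δ q) (i b) := by
      rw [map_mul]
      rfl
    rw [h1, hd, map_mul]
    show α (rp δ (γ • q)) (α (δ d) (i b)) = α (rp δ (γ • q)) (i (β d b))
    rw [hi]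
  have hε₁ : 0 < dist (χ b₁) 1 := dist_pos.2 hb₁
  refine moduleCriterion p hp α j π hext U hC (Ph α δ f).range ?_ χ'
    ((insert b₁ E₀).image fun b : BM => i b) ?_ (min ε (dist (χ b₁) 1)) (lt_min hε hε₁) ?_ (n + 1)
    (fun l => i (a l)) ?_ n (Nat.lt_succ_self n)
  · rintro γ b ⟨v, rfl⟩
    induction v using Finsupp.induction_linear with
    | zero =>
      rw [map_zero, map_zero]
      exact AddSubgroup.zero_mem _
    | add x y hx hy =>
      rw [map_add, map_add]
      exact AddSubgroup.add_mem _ hx hy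
    | single q b =>
      obtain ⟨d, hd⟩ := hact γ q b
      rw [hd]
      exact ⟨_, rfl⟩
  · intro b hb
    obtain ⟨x, -, rfl⟩ := Finset.mem_image.1 hb
    rw [hone]
    exact ⟨_, rfl⟩
  · intro γ hγ
    by_cases hγr : γ ∈ δ.range
    · obtain ⟨d, rfl⟩ := hγr
      have hd : d ≠ 1 := by
        rintro rfl
        exact hγ (map_one δ)
      obtain ⟨b, hb, hbd⟩ := hχ d hd
      refine ⟨i b, Finset.mem_image.2 ⟨b, Finset.mem_insert_of_mem hb, rfl⟩, ?_⟩
      refine (min_le_left _ _).trans ?_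
      rw [← hi]
      have h1 : i (β d b) = i (((⟨β d b, hβ d b b.2⟩ : BM)) : M) := rfl
      rw [h1, hone, hone, hχ'v, hχ'v, Finsupp.single_eq_same, Finsupp.single_eq_same]
      exact hbd
    · refine ⟨i b₁, Finset.mem_image.2 ⟨b₁, Finset.mem_insert_self _ _, rfl⟩, ?_⟩
      refine (min_le_right _ _).trans ?_
      rw [hone]
      obtain ⟨d, hd⟩ := hact γ q₀ b₁
      rw [hd, hχ'v, hχ'v, Finsupp.single_eq_same]
      have hne : γ • q₀ ≠ q₀ := by
        intro h
        apply hγr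
        rw [hq₀] at h
        have h2 : ((γ * 1 : Γ) : Γ ⧸ δ.range) = ((1 : Γ) : Γ ⧸ δ.range) := h
        rw [mul_one] at h2
        have h3 := QuotientGroup.eq.1 h2.symm
        simpa using h3
      rw [Finsupp.single_eq_of_ne (Ne.symm hne), AddChar.map_zero_eq_one, dist_comm]
  · rintro c ⟨v, hv⟩
    refine ha c ?_
    have h1 : ∑ l, c l • i (a l) = i (∑ l, c l • a l) := by
      rw [map_sum]
      simp
    have h2 : i (∑ l, c l • a l) = Ph α δ i (Finsupp.single q₀ (∑ l, c l • a l)) := by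
      rw [Ph_single, hr1, map_one]
      rfl
    rw [h1, h2, hcmp] at hv
    have h3 := DFunLike.congr_fun (hinj hv) q₀
    rw [Finsupp.single_eq_same] at h3
    rw [← h3]
    exact (v q₀).2

theorem induced_JI {G G₀ Γ D A M : Type} [Group G] [Group G₀] [Group Γ] [Group D]
    [AddCommGroup A] [AddCommGroup M] (p : G →* G₀) (hp : Function.Surjective p)
    (α : Γ →* AddMonoid.End A) (j : Multiplicative A →* G₀) (π : G₀ →* Γ) (hext : IsExt α j π)
    (δ : D →* Γ) (β : D →* AddMonoid.End M) (D₀ : Subgroup D)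
    (hM : JI β D₀) (i : M →+ A) (hi : ∀ d m, i (β d m) = α (δ d) (i m)) (hind : Indep α δ i)
    {C : Type w} [CStarAlgebra C] [PartialOrder C] [StarOrderedRing C] (U : G →* unitary C)
    (hC : IsGroupCStar G C U) (n : ℕ) : ¬ NucDimLE C n := by
  have hD : Nontrivial D := by
    by_contra hcon
    rw [not_nontrivial_iff_subsingleton] at hcon
    obtain ⟨F, hF⟩ := hM.gen
    apply hM.inf
    refine ⟨F, fun m => ⟨1, one_ne_zero, ?_⟩⟩
    have h1 := hF (AddSubgroup.closure (F : Set M)) AddSubgroup.subset_closure (by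
      intro γ _ m hm
      have h2 : γ = 1 := Subsingleton.elim _ _
      rw [h2, map_one]
      exact hm)
    rw [h1]
    simp
  exact induced p hp α j π hext δ β i hi hind hD (fun k => pair_of_JI D₀ β hM k) U hC n

end Pool.Agent.LibNW45
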