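import Mathlib
import Pool.Agent.LibND.N15
import Pool.Agent.LibND.N20

set_option autoImplicit false

/-! A criterion for algebraic actions with tests chosen for every element; sets with few
coincidences. -/

namespace Pool.Agent.LibNW45

open Pool.Agent.LibND

universe u w

theorem moduleCriterion' {G G₀ Γ A : Type u} [Group G] [Group G₀] [Group Γ] [AddCommGroup A]
    (p : G →* G₀) (hp : Function.Surjective p) (α : Γ →* AddMonoid.End A)
    (j : Multiplicative A →* G₀) (π : G₀ →* Γ) (hext : IsExt α j π)
    {C : Type w} [CStarAlgebra C] [PartialOrder C] [StarOrderedRing C] (U : G →* unitary C)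
    (hC : IsGroupCStar G C U) (B : AddSubgroup A)
    (χ : AddChar A Circle) (E₀ : Finset A) (ε : ℝ) (hε : 0 < ε)
    (hχ : ∀ γ, γ ≠ 1 → ∃ b ∈ E₀, b ∈ B ∧ α γ b ∈ B ∧ ε ≤ dist (χ (α γ b)) (χ b))
    (k : ℕ) (a : Fin k → A) (ha : ∀ c : Fin k → ℤ, ∑ i, c i • a i ∈ B → c = 0)
    (n : ℕ) (hn : n < k) : ¬ NucDimLE C n := by
  classical
  have hker : j.range = π.ker := hext.exact
  have hnorm : (j.range).Normal := by rw [hker]; infer_instance
  have hη : ∀ i : Fin k, ∃ η : A →+ ℝ, (∀ b ∈ B, η b = 0) ∧
      ∀ l, η (a l) = (Pi.single i (1 : ℝ) : Fin k → ℝ) l := by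
    intro i
    refine ext_real B a ?_ _
    intro c hc
    rw [Finsupp.sum_fintype _ _ (by intro i; simp)] at hc
    exact DFunLike.coe_injective (ha (fun i => c i) hc)
  choose η hηB hηa using hη
  let e : Multiplicative A ≃* j.range := MonoidHom.ofInjective hext.inj
  have he : ∀ x, ((e x : j.range) : G₀) = j x := fun x => rfl
  let ξ : (Fin k → ℝ) → (Multiplicative A →* Circle) := fun s =>
    { toFun := fun x => χ x.toAdd * ex (∑ i, s i * η i x.toAdd / 4)
      map_one' := by simp [ex]
      map_mul' := by
        intro x y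
        have h1 : ∑ i, s i * η i (x * y).toAdd / 4
            = ∑ i, s i * η i x.toAdd / 4 + ∑ i, s i * η i y.toAdd / 4 := by
          rw [← Finset.sum_add_distrib]
          refine Finset.sum_congr rfl fun i _ => ?_
          rw [toAdd_mul, map_add]
          ring
        have h2 : ∀ r r' : ℝ, ex (r + r') = ex r * ex r' := by
          intro r r'
          unfold ex
          rw [mul_add, Circle.exp_add]
        rw [h1, h2, toAdd_mul, AddChar.map_add_eq_mul]
        exact mul_mul_mul_comm _ _ _ _ }
  have hξ : ∀ s x, ξ s (Multiplicative.ofAdd x) = χ x * ex (∑ i, s i * η i x / 4) :=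
    fun s x => rfl
  have hξB : ∀ s, ∀ x ∈ B, ξ s (Multiplicative.ofAdd x) = χ x := by
    intro s x hx
    rw [hξ]
    have : ∑ i, s i * η i x / 4 = 0 :=
      Finset.sum_eq_zero fun i _ => by rw [hηB i x hx]; simp
    rw [this]
    simp [ex]
  have hξa : ∀ s l, ξ s (Multiplicative.ofAdd (a l)) = χ (a l) * ex (s l / 4) := by
    intro s l
    rw [hξ]
    congr 2
    rw [Finset.sum_eq_single l]
    · rw [hηa, Pi.single_eq_same]
      ring
    · intro i _ hi
      rw [hηa, Pi.single_eq_of_ne (Ne.symm hi)]
      simp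
    · intro h
      exact absurd (Finset.mem_univ l) h
  let ζ : (Fin k → ℝ) → (j.range →* Circle) := fun s => (ξ s).comp e.symm.toMonoidHom
  have hζe : ∀ s x, ζ s (e x) = ξ s x := by
    intro s x
    show ξ s (e.symm (e x)) = ξ s x
    rw [MulEquiv.symm_apply_apply]
  have hincl : ∀ m : j.range, Subgroup.inclusion (le_refl j.range) m = m := fun m => rfl
  let E : Finset j.range := (Finset.univ.image fun l => e (Multiplicative.ofAdd (a l))) ∪
    (E₀.image fun b => e (Multiplicative.ofAdd b))
  refine criterion p hp U hC j.range j.range le_rfl k ζ ?_ E ?_ ε hε ?_ n hn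
  · intro g
    obtain ⟨x, rfl⟩ := e.surjective g
    refine Continuous.continuousOn ?_
    have : (fun s => ζ s (e x)) = fun s => χ x.toAdd * ex (∑ i, s i * η i x.toAdd / 4) := by
      funext s
      rw [hζe]
      rfl
    rw [this]
    refine continuous_const.mul ?_
    unfold ex
    refine Circle.exp.continuous.comp ?_
    refine continuous_const.mul ?_
    refine continuous_finsetSum _ fun i _ => ?_
    exact ((continuous_apply i).mul continuous_const).div_const _
  · intro s hs t ht hst
    funext l
    have h := hst (e (Multiplicative.ofAdd (a l)))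
      (Finset.mem_union_left _ (Finset.mem_image_of_mem _ (Finset.mem_univ l)))
    rw [hincl, hζe, hζe, hξa, hξa] at h
    have h2 := mul_left_cancel h
    unfold ex at h2
    have hpi := Real.pi_pos
    have key : ∀ r : ℝ, r ∈ Set.Icc (0 : ℝ) 1 →
        Complex.arg (Circle.exp (2 * Real.pi * (r / 4)) : ℂ) = 2 * Real.pi * (r / 4) := by
      intro r hr
      refine Circle.arg_exp ?_ ?_
      · have : 0 ≤ 2 * Real.pi * (r / 4) := by
          have := hr.1
          positivity
        linarith
      · have := mul_le_mul_of_nonneg_left hr.2 hpi.le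
        nlinarith
    have h3 := congrArg (fun z : Circle => Complex.arg (z : ℂ)) h2
    rw [key _ (hs l), key _ (ht l)] at h3
    have h4 : (2 * Real.pi) ≠ 0 := by positivity
    have h5 := mul_left_cancel₀ h4 h3
    linarith
  · intro s hs t ht g hg
    have hγ : π g ≠ 1 := by
      intro h
      exact hg (by rw [hker]; exact h)
    have hγ' : (π g)⁻¹ ≠ 1 := by
      intro h
      exact hγ (inv_eq_one.mp h)
    obtain ⟨b, hb, hb1, hb2, hd⟩ := hχ _ hγ'
    refine ⟨e (Multiplicative.ofAdd b),
      Finset.mem_union_right _ (Finset.mem_image_of_mem _ hb), ?_⟩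
    have hconj : MulAut.conjNormal g⁻¹ (e (Multiplicative.ofAdd b))
        = e (Multiplicative.ofAdd (α (π g)⁻¹ b)) := by
      apply Subtype.ext
      rw [MulAut.conjNormal_apply, he, he, hext.conj, map_inv]
    rw [hconj, hincl, hincl, hζe, hζe, hξB _ _ hb2, hξB _ _ hb1]
    exact hd

/-- a finite set with representatives of different cosets outside `T` and few coincidences -/
theorem anchors {Γ : Type*} [Group Γ] (R : Subgroup Γ) [Infinite (Γ ⧸ R)] [DecidableEq Γ]
    (T : Finset (Γ ⧸ R)) (N : ℕ) :
    ∃ U : Finset Γ, U.card = N ∧ (∀ u ∈ U, ((u : Γ) : Γ ⧸ R) ∉ T) ∧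
      (∀ u ∈ U, ∀ v ∈ U, ((u : Γ) : Γ ⧸ R) = ((v : Γ) : Γ ⧸ R) → u = v) ∧
      ∀ γ : Γ, γ ≠ 1 → (U.filter fun u => γ * u ∈ U).card ≤ 2 := by
  classical
  induction N with
  | zero =>
    refine ⟨∅, rfl, ?_, ?_, ?_⟩
    · intro u hu
      exact absurd hu (Finset.notMem_empty u)
    · intro u hu
      exact absurd hu (Finset.notMem_empty u)
    · intro γ _
      simp
  | succ N ih =>
    obtain ⟨U, hcard, hT, hinj, hU⟩ := ih
    -- the coset of the new element
    obtain ⟨q, hq⟩ := Infinite.exists_notMem_finset
      (T ∪ U.image (fun u : Γ => (u : Γ ⧸ R)) ∪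
        (U ×ˢ (U ×ˢ U)).image (fun z : Γ × Γ × Γ => ((z.1 * z.2.1⁻¹ * z.2.2 : Γ) : Γ ⧸ R)))
    rw [Finset.mem_union, Finset.mem_union, not_or, not_or] at hq
    obtain ⟨x, hx⟩ : ∃ x : Γ, ((x : Γ) : Γ ⧸ R) = q := QuotientGroup.mk_surjective q
    have hxT : ((x : Γ) : Γ ⧸ R) ∉ T := by rw [hx]; exact hq.1.1
    have hxU : ∀ u ∈ U, ((u : Γ) : Γ ⧸ R) ≠ ((x : Γ) : Γ ⧸ R) := by
      intro u hu h
      rw [hx] at h
      exact hq.1.2 (Finset.mem_image.2 ⟨u, hu, h⟩)
    have hxU' : x ∉ U := fun h => hxU x h rfl
    have hx3 : ∀ a ∈ U, ∀ b ∈ U, ∀ c ∈ U, x ≠ a * b⁻¹ * c := by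
      intro a ha b hb c hc h
      apply hq.2
      refine Finset.mem_image.2 ⟨(a, b, c), ?_, ?_⟩
      · exact Finset.mem_product.2 ⟨ha, Finset.mem_product.2 ⟨hb, hc⟩⟩
      · show ((a * b⁻¹ * c : Γ) : Γ ⧸ R) = q
        rw [← h, hx]
    refine ⟨insert x U, ?_, ?_, ?_, ?_⟩
    · rw [Finset.card_insert_of_notMem hxU', hcard]
    · intro u hu
      rcases Finset.mem_insert.1 hu with rfl | hu
      · exact hxT
      · exact hT u hu
    · intro u hu v hv huv
      rcases Finset.mem_insert.1 hu with h1 | h1
      · rcases Finset.mem_insert.1 hv with h2 | h2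
        · rw [h1, h2]
        · rw [h1] at huv
          exact absurd huv.symm (hxU v h2)
      · rcases Finset.mem_insert.1 hv with h2 | h2
        · rw [h2] at huv
          exact absurd huv (hxU u h1)
        · exact hinj u h1 v h2 huv
    · intro γ hγ
      by_cases hin : ∃ b ∈ U, γ * b ∈ U
      · obtain ⟨b, hb, hab⟩ := hin
        -- `γ = (γ b) b⁻¹`
        have hsub : ((insert x U).filter fun u => γ * u ∈ insert x U) ⊆
            U.filter fun u => γ * u ∈ U := by
          intro u hu
          rw [Finset.mem_filter] at hu ⊢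
          obtain ⟨hu1, hu2⟩ := hu
          have hux : u ≠ x := by
            rintro rfl
            rcases Finset.mem_insert.1 hu2 with h3 | h3
            · exact hγ (mul_eq_right.1 h3)
            · apply hx3 b hb (γ * b) hab (γ * u) h3
              group
          have hu1' : u ∈ U := (Finset.mem_insert.1 hu1).resolve_left hux
          refine ⟨hu1', ?_⟩
          rcases Finset.mem_insert.1 hu2 with h3 | h3
          · exfalso
            apply hx3 (γ * b) hab b hb u hu1'
            rw [← h3]
            group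
          · exact h3
        exact (Finset.card_le_card hsub).trans (hU γ hγ)
      · push Not at hin
        have hsub : ((insert x U).filter fun u => γ * u ∈ insert x U) ⊆ {x, γ⁻¹ * x} := by
          intro u hu
          rw [Finset.mem_filter] at hu
          obtain ⟨hu1, hu2⟩ := hu
          rw [Finset.mem_insert, Finset.mem_singleton]
          rcases Finset.mem_insert.1 hu1 with h3 | h3
          · exact Or.inl h3
          · right
            rcases Finset.mem_insert.1 hu2 with h4 | h4
            · rw [← h4, inv_mul_cancel_left]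
            · exact absurd h4 (hin u h3)
        exact (Finset.card_le_card hsub).trans Finset.card_le_two

end Pool.Agent.LibNW45
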