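import Mathlib
import Pool.Agent.LibNW45.I2
import Pool.Agent.LibNW45.I3

set_option autoImplicit false

/-! Modules which contain a module induced from a subgroup of infinite index, with a non-recurrent
character. -/

namespace Pool.Agent.LibNW45

open Pool.Agent.LibND Pool.Agent.LibNM Pool.Agent.LibNV

universe w

/-- The `D`-module `M` has a non-recurrent character: a homomorphism `ψ : M → T` such that for some
finite set `E ⊆ M` and some `ε > 0`, for every `d ≠ 1` in `D` some `m ∈ E` has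
`|ψ (d m) - ψ m| ≥ ε`. -/
def NonRec {D M : Type} [Group D] [AddCommGroup M] (β : D →* AddMonoid.End M) : Prop :=
  ∃ (ψ : AddChar M Circle) (E : Finset M) (ε : ℝ), 0 < ε ∧
    ∀ d : D, d ≠ 1 → ∃ m ∈ E, ε ≤ dist (ψ (β d m)) (ψ m)

private theorem I4_char {D M : Type} [Group D] [AddCommGroup M] (β : D →* AddMonoid.End M)
    (h : NonRec β) (m₁ : M) (hm₁ : ∀ n : ℤ, n • m₁ = 0 → n = 0) :
    ∃ (ψ : AddChar M Circle) (E : Finset M) (ε : ℝ), 0 < ε ∧
      (∀ d : D, d ≠ 1 → ∃ m ∈ E, ε ≤ dist (ψ (β d m)) (ψ m)) ∧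
      ∃ m ∈ E, ε ≤ dist 1 (ψ m) := by
  classical
  obtain ⟨ψ, E, ε, hε, hψ⟩ := h
  by_cases h1 : ∃ m, ψ m ≠ 1
  · obtain ⟨m, hm⟩ := h1
    refine ⟨ψ, insert m E, min ε (dist 1 (ψ m)), lt_min hε (dist_pos.2 (Ne.symm hm)), ?_,
      m, Finset.mem_insert_self _ _, min_le_right _ _⟩
    intro d hd
    obtain ⟨m', hm', hd'⟩ := hψ d hd
    exact ⟨m', Finset.mem_insert_of_mem hm', (min_le_left _ _).trans hd'⟩
  · push Not at h1
    have hD : ∀ d : D, d = 1 := by
      intro d
      by_contra hd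
      obtain ⟨m, -, hm⟩ := hψ d hd
      rw [h1, h1, dist_self] at hm
      exact absurd hm (not_le.2 hε)
    obtain ⟨η, -, hη⟩ := ext_real (⊥ : AddSubgroup M) (fun _ : Unit => m₁) (by
      intro c hc
      rw [AddSubgroup.mem_bot] at hc
      have h2 : (c.sum fun i z => z • m₁) = c () • m₁ := by
        rw [Finsupp.sum_fintype _ _ (by intro i; simp)]
        simp
      rw [h2] at hc
      ext
      exact hm₁ _ hc) (fun _ => (1 / 2 : ℝ))
    let ψ' : AddChar M Circle :=
      { toFun := fun m => ex (η m)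
        map_zero_eq_one' := by simp [ex]
        map_add_eq_mul' := by
          intro x y
          rw [map_add]
          unfold ex
          rw [mul_add, Circle.exp_add] }
    have hne : ψ' m₁ ≠ 1 := by
      intro h2
      have h3 : ex (1 / 2) = 1 := by
        rw [← hη ()]
        exact h2
      unfold ex at h3
      have h4 : Circle.exp (2 * Real.pi * (1 / 2)) = Circle.exp 0 := by rw [h3]; simp
      rw [Circle.exp_eq_exp] at h4
      obtain ⟨n, hn⟩ := h4
      have hpi := Real.pi_pos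
      have h5 : (1 : ℝ) = 2 * n := by
        have : Real.pi * 1 = Real.pi * (2 * n) := by linarith
        exact mul_left_cancel₀ hpi.ne' this
      have h6 : (1 : ℤ) = 2 * n := by exact_mod_cast h5
      omega
    refine ⟨ψ', {m₁}, dist 1 (ψ' m₁), dist_pos.2 (Ne.symm hne), ?_, m₁,
      Finset.mem_singleton_self _, le_rfl⟩
    intro d hd
    exact absurd (hD d) hd

theorem induced_NR {G G₀ Γ D A M : Type} [Group G] [Group G₀] [Group Γ] [Group D]
    [AddCommGroup A] [AddCommGroup M] (p : G →* G₀) (hp : Function.Surjective p)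
    (α : Γ →* AddMonoid.End A) (j : Multiplicative A →* G₀) (π : G₀ →* Γ) (hext : IsExt α j π)
    (δ : D →* Γ) (hδ : Infinite (Γ ⧸ δ.range)) (β : D →* AddMonoid.End M) (i : M →+ A)
    (hi : ∀ d m, i (β d m) = α (δ d) (i m)) (hind : Indep α δ i) (hN : NonRec β)
    (hM : ∃ m : M, ∀ n : ℤ, n • m = 0 → n = 0)
    {C : Type w} [CStarAlgebra C] [PartialOrder C] [StarOrderedRing C] (U : G →* unitary C)
    (hC : IsGroupCStar G C U) (n : ℕ) : ¬ NucDimLE C n := by
  classical
  obtain ⟨m₁, hm₁⟩ := hM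
  obtain ⟨ψ, E, ε, hε, hψ, m₀, hm₀E, hm₀⟩ := I4_char β hN m₁ hm₁
  obtain ⟨k, hk⟩ : ∃ k, k = n + 1 := ⟨_, rfl⟩
  -- the cosets of the parameters
  obtain ⟨t, ht⟩ : ∃ t : Fin k → Γ ⧸ δ.range, Function.Injective t :=
    ⟨fun l => Infinite.natEmbedding _ l,
      fun a b h => Fin.ext ((Infinite.natEmbedding (Γ ⧸ δ.range)).injective h)⟩
  obtain ⟨T, hT⟩ : ∃ T : Finset (Γ ⧸ δ.range), T = Finset.univ.image t := ⟨_, rfl⟩
  have hTcard : T.card ≤ k := by
    rw [hT]
    exact Finset.card_image_le.trans (by simp)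
  obtain ⟨W, hWcard, hWT, hWinj, hW⟩ := anchors δ.range T (k + 3)
  have hinj := Ph_inj α δ i hind
  have hiinj : Function.Injective i := by
    rw [injective_iff_map_eq_zero]
    intro m hm
    refine hind {1} (fun _ => m) ?_ ?_ 1 (Finset.mem_singleton_self _)
    · intro a ha b hb _
      rw [Finset.mem_singleton.1 ha, Finset.mem_singleton.1 hb]
    · rw [Finset.sum_singleton, map_one]
      exact hm
  have hδinj : ∀ d, δ d = 1 → d = 1 := by
    intro d hd
    by_contra hne
    obtain ⟨m, -, hm⟩ := hψ d hne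
    have h1 : β d m = m := by
      apply hiinj
      rw [hi, hd, map_one]
      rfl
    rw [h1, dist_self] at hm
    exact absurd hm (not_le.2 hε)
  -- the parts in `D` of the anchors
  have hdu : ∀ u : Γ, ∃ d : D, u = rp δ ((u : Γ) : Γ ⧸ δ.range) * δ d := by
    intro u
    have h1 : ((rp δ ((u : Γ) : Γ ⧸ δ.range) : Γ) : Γ ⧸ δ.range) = ((u : Γ) : Γ ⧸ δ.range) :=
      rp_mk δ _
    rw [QuotientGroup.eq] at h1
    obtain ⟨d, hd⟩ := h1
    exact ⟨d, by rw [hd, mul_inv_cancel_left]⟩
  choose dd hdd using hdu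
  have hel : ∀ (u : Γ) (m : M), α u (i m) =
      Ph α δ i (Finsupp.single ((u : Γ) : Γ ⧸ δ.range) (β (dd u) m)) := by
    intro u m
    rw [Ph_single, hi]
    conv_lhs => rw [hdd u, map_mul]
    rfl
  -- the character
  let e := AddMonoidHom.ofInjective hinj
  have he : ∀ v, ((e v : (Ph α δ i).range) : A) = Ph α δ i v := fun v => rfl
  let χ₀ : AddChar ((Γ ⧸ δ.range) →₀ M) Circle :=
    ∏ u ∈ W, ψ.compAddMonoidHom ((β (dd u)⁻¹).comp (Finsupp.applyAddHom ((u : Γ) : Γ ⧸ δ.range)))
  have hχ₀ : ∀ v, χ₀ v = ∏ u ∈ W, ψ (β (dd u)⁻¹ (v ((u : Γ) : Γ ⧸ δ.range))) := by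
    intro v
    show (∏ u ∈ W, ψ.compAddMonoidHom ((β (dd u)⁻¹).comp
      (Finsupp.applyAddHom ((u : Γ) : Γ ⧸ δ.range)))) v = _
    rw [AddChar.prod_apply]
    rfl
  obtain ⟨χ, hχ⟩ := ext_circle (Ph α δ i).range (χ₀.compAddMonoidHom e.symm.toAddMonoidHom)
  have hχv : ∀ v, χ (Ph α δ i v) = χ₀ v := by
    intro v
    rw [← he, hχ]
    simp
  -- values at an anchor coset
  have hval : ∀ u ∈ W, ∀ (d : D) (m : M), χ (α (u * δ d) (i m)) = ψ (β d m) := by
    intro u hu d m
    have h1 : α (u * δ d) (i m) = α u (i (β d m)) := by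
      rw [map_mul, hi]
      rfl
    rw [h1, hel, hχv, hχ₀, Finset.prod_eq_single u]
    · rw [Finsupp.single_eq_same]
      have h2 : β (dd u)⁻¹ (β (dd u) (β d m)) = β d m := by
        have h3 : β (dd u)⁻¹ (β (dd u) (β d m)) = (β (dd u)⁻¹ * β (dd u)) (β d m) := rfl
        rw [h3, ← map_mul, inv_mul_cancel, map_one]
        rfl
      rw [h2]
    · intro v hv hvu
      rw [Finsupp.single_eq_of_ne (fun h => hvu (hWinj v hv u hu h)), map_zero,
        AddChar.map_zero_eq_one]
    · intro h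
      exact absurd hu h
  have hval1 : ∀ (g : Γ), (∀ u ∈ W, ((u : Γ) : Γ ⧸ δ.range) ≠ ((g : Γ) : Γ ⧸ δ.range)) →
      ∀ m : M, χ (α g (i m)) = 1 := by
    intro g hg m
    rw [hel, hχv, hχ₀]
    refine Finset.prod_eq_one fun u hu => ?_
    rw [Finsupp.single_eq_of_ne (hg u hu), map_zero, AddChar.map_zero_eq_one]
  -- the subgroup of the elements without component at `T`
  let B : AddSubgroup A :=
    { carrier := {x | ∃ v, Ph α δ i v = x ∧ ∀ q ∈ T, v q = 0}
      zero_mem' := ⟨0, map_zero _, fun q _ => rfl⟩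
      add_mem' := by
        rintro x y ⟨v, rfl, hv⟩ ⟨v', rfl, hv'⟩
        refine ⟨v + v', map_add _ _ _, fun q hq => ?_⟩
        rw [Finsupp.add_apply, hv q hq, hv' q hq, add_zero]
      neg_mem' := by
        rintro x ⟨v, rfl, hv⟩
        refine ⟨-v, map_neg _ _, fun q hq => ?_⟩
        rw [Finsupp.neg_apply, hv q hq, neg_zero] }
  have hBmem : ∀ (g : Γ), ((g : Γ) : Γ ⧸ δ.range) ∉ T → ∀ m : M, α g (i m) ∈ B := by
    intro g hg m
    refine ⟨Finsupp.single ((g : Γ) : Γ ⧸ δ.range) (β (dd g) m), (hel g m).symm, fun q hq => ?_⟩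
    rw [Finsupp.single_eq_of_ne]
    rintro rfl
    exact hg hq
  refine moduleCriterion' p hp α j π hext U hC B χ
    ((W ×ˢ E).image fun z : Γ × M => α z.1 (i z.2)) ε hε ?_ k
    (fun l => α (rp δ (t l)) (i m₁)) ?_ n (by omega)
  · intro γ hγ
    -- choice of the anchor
    obtain ⟨u, huW, huT, huW'⟩ : ∃ u ∈ W, ((γ * u : Γ) : Γ ⧸ δ.range) ∉ T ∧ γ * u ∉ W := by
      by_contra hcon
      push Not at hcon
      have h1 : W ⊆ (W.filter fun u => ((γ * u : Γ) : Γ ⧸ δ.range) ∈ T) ∪
          (W.filter fun u => γ * u ∈ W) := by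
        intro u hu
        by_cases h2 : ((γ * u : Γ) : Γ ⧸ δ.range) ∈ T
        · exact Finset.mem_union_left _ (Finset.mem_filter.2 ⟨hu, h2⟩)
        · exact Finset.mem_union_right _ (Finset.mem_filter.2 ⟨hu, hcon u hu h2⟩)
      have h2 : (W.filter fun u => ((γ * u : Γ) : Γ ⧸ δ.range) ∈ T).card ≤ T.card := by
        refine Finset.card_le_card_of_injOn (fun u => ((γ * u : Γ) : Γ ⧸ δ.range)) ?_ ?_
        · intro u hu
          exact (Finset.mem_filter.1 hu).2
        · intro a ha b hb hab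
          refine hWinj a (Finset.mem_filter.1 ha).1 b (Finset.mem_filter.1 hb).1 ?_
          rw [QuotientGroup.eq]
          have h3 := QuotientGroup.eq.1 hab
          have h4 : (γ * a)⁻¹ * (γ * b) = a⁻¹ * b := by group
          rwa [h4] at h3
      have h3 := (Finset.card_le_card h1).trans (Finset.card_union_le _ _)
      have h4 := hW γ hγ
      omega
    by_cases hu' : ∃ u' ∈ W, ((u' : Γ) : Γ ⧸ δ.range) = ((γ * u : Γ) : Γ ⧸ δ.range)
    · obtain ⟨u', hu'W, hu'⟩ := hu'
      obtain ⟨d, hd⟩ := QuotientGroup.eq.1 hu'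
      have hγu : γ * u = u' * δ d := by rw [hd, mul_inv_cancel_left]
      have hd1 : d ≠ 1 := by
        rintro rfl
        rw [map_one, mul_one] at hγu
        exact huW' (hγu ▸ hu'W)
      obtain ⟨m, hm, hdist⟩ := hψ d hd1
      refine ⟨α u (i m), Finset.mem_image.2 ⟨(u, m), Finset.mem_product.2 ⟨huW, hm⟩, rfl⟩,
        hBmem u (hWT u huW) m, ?_, ?_⟩
      · have h5 : α γ (α u (i m)) = α (γ * u) (i m) := by
          rw [map_mul]
          rfl
        rw [h5]
        exact hBmem _ huT m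
      · have h5 : α γ (α u (i m)) = α (γ * u) (i m) := by
          rw [map_mul]
          rfl
        have h6 : χ (α u (i m)) = ψ m := by
          have h7 := hval u huW 1 m
          rw [map_one, mul_one, map_one] at h7
          exact h7
        rw [h5, hγu, hval u' hu'W, h6]
        exact hdist
    · push Not at hu'
      refine ⟨α u (i m₀), Finset.mem_image.2 ⟨(u, m₀), Finset.mem_product.2 ⟨huW, hm₀E⟩, rfl⟩,
        hBmem u (hWT u huW) m₀, ?_, ?_⟩
      · have h5 : α γ (α u (i m₀)) = α (γ * u) (i m₀) := by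
          rw [map_mul]
          rfl
        rw [h5]
        exact hBmem _ huT m₀
      · have h5 : α γ (α u (i m₀)) = α (γ * u) (i m₀) := by
          rw [map_mul]
          rfl
        have h6 : χ (α u (i m₀)) = ψ m₀ := by
          have h7 := hval u huW 1 m₀
          rw [map_one, mul_one, map_one] at h7
          exact h7
        rw [h5, hval1 (γ * u) hu', h6]
        exact hm₀
  · rintro c ⟨v, hv, hvT⟩
    have h1 : ∑ l, c l • α (rp δ (t l)) (i m₁) =
        Ph α δ i (∑ l, c l • Finsupp.single (t l) m₁) := by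
      rw [map_sum]
      refine Finset.sum_congr rfl fun l _ => ?_
      rw [map_zsmul, Ph_single]
    rw [h1] at hv
    have h2 := hinj hv
    funext l
    have h3 : v (t l) = 0 := hvT (t l) (by
      rw [hT]
      exact Finset.mem_image_of_mem t (Finset.mem_univ l))
    rw [h2, Finsupp.finsetSum_apply, Finset.sum_eq_single l] at h3
    · rw [Finsupp.smul_apply, Finsupp.single_eq_same] at h3
      exact hm₁ _ h3
    · intro b _ hb
      rw [Finsupp.smul_apply, Finsupp.single_eq_of_ne (fun h => hb (ht h).symm), smul_zero]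
    · intro h
      exact absurd (Finset.mem_univ l) h

theorem nonRec_of_JI {D M : Type} [Group D] [AddCommGroup M] (D₀ : Subgroup D)
    (β : D →* AddMonoid.End M) (hJ : JI β D₀) :
    ∃ (BM : AddSubgroup M) (βB : D →* AddMonoid.End BM), (∀ d (b : BM), (βB d b : M) = β d b) ∧
      NonRec βB ∧ ∃ m : BM, ∀ n : ℤ, n • m = 0 → n = 0 := by
  classical
  obtain ⟨BM, χ, E₀, ε, a, hβ, hε, hχ, -⟩ := pair_of_JI D₀ β hJ 1
  let βB : D →* AddMonoid.End BM :=
    { toFun := fun d =>
        { toFun := fun b => ⟨β d b, hβ d b b.2⟩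
          map_zero' := by
            apply Subtype.ext
            exact map_zero (β d)
          map_add' := by
            intro x y
            apply Subtype.ext
            exact map_add (β d) _ _ }
      map_one' := by
        ext b
        show β 1 (b : M) = b
        rw [map_one]
        rfl
      map_mul' := by
        intro x y
        ext b
        show β (x * y) (b : M) = β x (β y b)
        rw [map_mul]
        rfl }
  refine ⟨BM, βB, fun d b => rfl, ⟨χ, E₀, ε, hε, fun d hd => hχ d hd⟩, ?_⟩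
  have hD : Nontrivial D := by
    by_contra hcon
    rw [not_nontrivial_iff_subsingleton] at hcon
    obtain ⟨F, hF⟩ := hJ.gen
    apply hJ.inf
    refine ⟨F, fun m => ⟨1, one_ne_zero, ?_⟩⟩
    have h1 := hF (AddSubgroup.closure (F : Set M)) AddSubgroup.subset_closure (by
      intro γ _ m hm
      have h2 : γ = 1 := Subsingleton.elim _ _
      rw [h2, map_one]
      exact hm)
    rw [h1]
    simp
  obtain ⟨d, hd⟩ := exists_ne (1 : D)
  obtain ⟨b, -, hb⟩ := hχ d hd
  refine ⟨b, fun n hn => ?_⟩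
  by_contra hn0
  have h1 : (b : M) = 0 := hJ.tf n b hn0 (by
    have := congrArg Subtype.val hn
    simpa using this)
  have h2 : b = 0 := Subtype.ext h1
  have h3 : (⟨β d b, hβ d b b.2⟩ : BM) = 0 := by
    apply Subtype.ext
    show β d (b : M) = 0
    rw [h1, map_zero]
  rw [h3, h2, dist_self] at hb
  exact absurd hb (not_le.2 hε)

/-- the induced modules of the theorem -/
theorem induced_all {G G₀ Γ D A M : Type} [Group G] [Group G₀] [Group Γ] [Group D]
    [AddCommGroup A] [AddCommGroup M] (p : G →* G₀) (hp : Function.Surjective p)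
    (α : Γ →* AddMonoid.End A) (j : Multiplicative A →* G₀) (π : G₀ →* Γ) (hext : IsExt α j π)
    (δ : D →* Γ) (hδ : Infinite (Γ ⧸ δ.range)) (β : D →* AddMonoid.End M) (i : M →+ A)
    (hi : ∀ d m, i (β d m) = α (δ d) (i m)) (hind : Indep α δ i)
    (hM : (NonRec β ∧ ∃ m : M, ∀ n : ℤ, n • m = 0 → n = 0) ∨ ∃ D₀ : Subgroup D, JI β D₀)
    {C : Type w} [CStarAlgebra C] [PartialOrder C] [StarOrderedRing C] (U : G →* unitary C)
    (hC : IsGroupCStar G C U) (n : ℕ) : ¬ NucDimLE C n := by
  rcases hM with hM | ⟨D₀, hJ⟩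
  · exact induced_NR p hp α j π hext δ hδ β i hi hind hM.1 hM.2 U hC n
  · obtain ⟨BM, βB, hβB, hN, hm⟩ := nonRec_of_JI D₀ β hJ
    refine induced_NR p hp α j π hext δ hδ βB (i.comp BM.subtype) ?_ ?_ hN hm U hC n
    · intro d b
      show i (βB d b : M) = α (δ d) (i b)
      rw [hβB, hi]
    · intro s m hs h0 t ht
      have h1 := hind s (fun t => (m t : M)) hs h0 t ht
      exact Subtype.ext h1

end Pool.Agent.LibNW45
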