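import Mathlib
import Pool.Agent.LibNV.Defs

set_option autoImplicit false

/-! Modules of finite rank over a finitely generated virtually abelian group: the algebra generated by
the abelian subgroup. -/

namespace Pool.Agent.LibNW45

open TensorProduct Pool.Agent.LibNV

/-- `D` is finitely generated, `D₀` is an abelian subgroup of finite index, and `M` is a torsion-free
`D`-module of finite rank on which `D₀` acts semisimply: every `D₀`-invariant subgroup `L` has a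
`D₀`-invariant complement `L'` up to torsion (so `M ⊗ ℚ` is a semisimple `ℚ D₀`-module). -/
structure FRS {D M : Type} [Group D] [AddCommGroup M] (β : D →* AddMonoid.End M)
    (D₀ : Subgroup D) : Prop where
  fg : Group.FG D
  fin : D₀.FiniteIndex
  comm : ∀ a ∈ D₀, ∀ b ∈ D₀, a * b = b * a
  tf : ∀ (n : ℤ) (m : M), n ≠ 0 → n • m = 0 → m = 0
  rk : FinRk (⊥ : AddSubgroup M)
  ss : ∀ L : AddSubgroup M, (∀ d ∈ D₀, ∀ m ∈ L, β d m ∈ L) → ∃ L' : AddSubgroup M,
    (∀ d ∈ D₀, ∀ m ∈ L', β d m ∈ L') ∧ L ⊓ L' = ⊥ ∧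
      ∀ m : M, ∃ n : ℤ, n ≠ 0 ∧ n • m ∈ L ⊔ L'

private theorem j1_zsmul {V : Type} [AddCommGroup V] [Module ℚ V] (n : ℤ) (x : V) :
    n • x = (n : ℚ) • x := (Int.cast_smul_eq_zsmul ℚ n x).symm

private theorem j1_inv {V : Type} [AddCommGroup V] [Module ℚ V] (n : ℤ) (hn : n ≠ 0)
    (x : V) : x = ((n : ℚ)⁻¹) • (n • x) := by
  have h : (n : ℚ) ≠ 0 := by exact_mod_cast hn
  rw [j1_zsmul, smul_smul, inv_mul_cancel₀ h, one_smul]

private theorem j1_zero {V : Type} [AddCommGroup V] [Module ℚ V] (n : ℤ) (hn : n ≠ 0)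
    (x : V) (h : n • x = 0) : x = 0 := by
  rw [j1_inv n hn x, h, smul_zero]

private theorem j1_rat {D M : Type} [Group D] [AddCommGroup M] (β : D →* AddMonoid.End M)
    (htf : ∀ (n : ℤ) (m : M), n ≠ 0 → n • m = 0 → m = 0) :
    ∃ (V : Type) (_ : AddCommGroup V) (_ : Module ℚ V) (ρ : D →* Module.End ℚ V) (ι : M →+ V),
      Function.Injective ι ∧ (∀ γ m, ι (β γ m) = ρ γ (ι m)) ∧
      ∀ x : V, ∃ n : ℤ, n ≠ 0 ∧ ∃ m, n • x = ι m := by
  classical
  have hloc : IsLocalizedModule (nonZeroDivisors ℤ) (TensorProduct.mk ℤ ℚ M 1) :=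
    (isLocalizedModule_iff_isBaseChange (nonZeroDivisors ℤ) ℚ (TensorProduct.mk ℤ ℚ M 1)).2
      (TensorProduct.isBaseChange ℤ M ℚ)
  let ρ : D →* Module.End ℚ (ℚ ⊗[ℤ] M) :=
    { toFun := fun γ => (AddMonoidHom.toIntLinearMap (β γ : M →+ M)).baseChange ℚ
      map_one' := by
        ext m
        simp
        rfl
      map_mul' := by
        intro a b
        ext m
        simp
        rfl }
  let ι : M →+ (ℚ ⊗[ℤ] M) := (TensorProduct.mk ℤ ℚ M 1).toAddMonoidHom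
  have hι : Function.Injective ι := by
    intro a b hab
    have h1 : (TensorProduct.mk ℤ ℚ M 1) a = (TensorProduct.mk ℤ ℚ M 1) b := hab
    rw [IsLocalizedModule.eq_iff_exists (nonZeroDivisors ℤ)] at h1
    obtain ⟨c, hc⟩ := h1
    have hc0 : (c : ℤ) ≠ 0 := nonZeroDivisors.coe_ne_zero c
    have h2 : (c : ℤ) • (a - b) = 0 := by
      rw [smul_sub, sub_eq_zero]
      exact hc
    exact sub_eq_zero.1 (htf _ _ hc0 h2)
  have hρ : ∀ γ m, ι (β γ m) = ρ γ (ι m) := by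
    intro γ m
    show (1 : ℚ) ⊗ₜ[ℤ] (β γ m) =
      ((AddMonoidHom.toIntLinearMap (β γ : M →+ M)).baseChange ℚ) ((1 : ℚ) ⊗ₜ[ℤ] m)
    rw [LinearMap.baseChange_tmul]
    rfl
  have hs : ∀ x : (ℚ ⊗[ℤ] M), ∃ n : ℤ, n ≠ 0 ∧ ∃ m, n • x = ι m := by
    intro x
    obtain ⟨⟨m, c⟩, hc⟩ := IsLocalizedModule.surj (nonZeroDivisors ℤ)
      (TensorProduct.mk ℤ ℚ M 1) x
    exact ⟨c, nonZeroDivisors.coe_ne_zero c, m, hc⟩
  exact ⟨ℚ ⊗[ℤ] M, inferInstance, inferInstance, ρ, ι, hι, hρ, hs⟩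

/-- elements of the algebra preserve invariant subgroups up to torsion -/
private theorem j1_stab {D M V : Type} [Group D] [AddCommGroup M] [AddCommGroup V] [Module ℚ V]
    (β : D →* AddMonoid.End M) (D₀ : Subgroup D) (ρ : D →* Module.End ℚ V) (ι : M →+ V)
    (hρ : ∀ γ m, ι (β γ m) = ρ γ (ι m)) (L : AddSubgroup M)
    (hL : ∀ d ∈ D₀, ∀ m ∈ L, β d m ∈ L) (a : Module.End ℚ V)
    (ha : a ∈ Algebra.adjoin ℚ (ρ '' (D₀ : Set D))) :
    ∀ m ∈ L, ∃ k : ℤ, k ≠ 0 ∧ ∃ m' ∈ L, k • a (ι m) = ι m' := by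
  induction ha using Algebra.adjoin_induction with
  | mem x hx =>
    obtain ⟨d, hd, rfl⟩ := hx
    intro m hm
    exact ⟨1, one_ne_zero, β d m, hL d hd m hm, by rw [one_smul, hρ]⟩
  | algebraMap q =>
    intro m hm
    have hd : (q.den : ℤ) ≠ 0 := by exact_mod_cast q.den_ne_zero
    refine ⟨(q.den : ℤ), hd, q.num • m, AddSubgroup.zsmul_mem _ hm _, ?_⟩
    have h1 : (algebraMap ℚ (Module.End ℚ V) q) (ι m) = q • ι m := by
      rw [Algebra.algebraMap_eq_smul_one]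
      rfl
    rw [h1, map_zsmul, j1_zsmul, j1_zsmul q.num, smul_smul]
    congr 1
    push_cast
    rw [mul_comm]
    exact Rat.mul_den_eq_num q
  | add x y _ _ hx hy =>
    intro m hm
    obtain ⟨k, hk, m', hm', e1⟩ := hx m hm
    obtain ⟨l, hl, m'', hm'', e2⟩ := hy m hm
    refine ⟨k * l, mul_ne_zero hk hl, l • m' + k • m'',
      AddSubgroup.add_mem _ (AddSubgroup.zsmul_mem _ hm' _) (AddSubgroup.zsmul_mem _ hm'' _), ?_⟩
    rw [LinearMap.add_apply, smul_add, map_add, map_zsmul, map_zsmul, ← e1, ← e2, smul_smul,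
      smul_smul, mul_comm l k]
  | mul x y _ _ hx hy =>
    intro m hm
    obtain ⟨k, hk, m', hm', e1⟩ := hy m hm
    obtain ⟨l, hl, m'', hm'', e2⟩ := hx m' hm'
    refine ⟨l * k, mul_ne_zero hl hk, m'', hm'', ?_⟩
    rw [← e2, ← e1, map_zsmul, smul_smul]
    rfl

theorem frs_ring {D M : Type} [Group D] [AddCommGroup M] (β : D →* AddMonoid.End M)
    (D₀ : Subgroup D) (h : FRS β D₀) :
    ∃ (V : Type) (_ : AddCommGroup V) (ι : M →+ V) (R : Type) (_ : CommRing R) (_ : Algebra ℚ R)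
      (_ : Module R V) (lam : D₀ →* Rˣ),
      Module.Finite ℚ R ∧ IsReduced R ∧ Module.Finite R V ∧
      (∀ e : R, (∀ x : V, e • x = 0) → e = 0) ∧ Function.Injective ι ∧
      (∀ x : V, ∃ n : ℤ, n ≠ 0 ∧ ∃ m, n • x = ι m) ∧
      ∀ (d : D₀) (m : M), ι (β d m) = (lam d : R) • ι m := by
  classical
  obtain ⟨V, _, _, ρ, ι, hι, hρ, hs⟩ := j1_rat β h.tf
  obtain ⟨T, hT⟩ := h.rk
  -- finite dimension
  have hfd : Module.Finite ℚ V := by
    refine ⟨⟨T.image ι, ?_⟩⟩
    rw [eq_top_iff]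
    intro x _
    obtain ⟨n, hn, m, hm⟩ := hs x
    obtain ⟨k, hk, hkm⟩ := hT m
    rw [sup_bot_eq] at hkm
    have h1 : ι (k • m) ∈ Submodule.span ℚ ((T.image ι : Finset V) : Set V) := by
      have h2 : AddSubgroup.closure (T : Set M) ≤
          ((Submodule.span ℚ ((T.image ι : Finset V) : Set V)).toAddSubgroup).comap ι := by
        rw [AddSubgroup.closure_le]
        intro t ht
        exact Submodule.subset_span (Finset.mem_coe.2 (Finset.mem_image_of_mem _ ht))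
      exact h2 hkm
    rw [j1_inv n hn x, hm, j1_inv k hk (ι m), ← map_zsmul]
    exact Submodule.smul_mem _ _ (Submodule.smul_mem _ _ h1)
  have hcomm : ∀ a ∈ (ρ '' (D₀ : Set D)), ∀ b ∈ (ρ '' (D₀ : Set D)), a * b = b * a := by
    rintro _ ⟨a, ha, rfl⟩ _ ⟨b, hb, rfl⟩
    rw [← map_mul, h.comm a ha b hb, map_mul]
  obtain ⟨R, cR, aR, j, hj, hr⟩ : ∃ (E : Type) (_ : CommRing E) (_ : Algebra ℚ E)
      (ι : E →ₐ[ℚ] Module.End ℚ V), Function.Injective ι ∧
        ∀ a, a ∈ Algebra.adjoin ℚ (ρ '' (D₀ : Set D)) ↔ ∃ e, ι e = a := by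
    refine ⟨Algebra.adjoin ℚ (ρ '' (D₀ : Set D)), Algebra.adjoinCommRingOfComm ℚ hcomm,
      inferInstance, (Algebra.adjoin ℚ (ρ '' (D₀ : Set D))).val, Subtype.val_injective, ?_⟩
    intro a
    constructor
    · intro ha
      exact ⟨⟨a, ha⟩, rfl⟩
    · rintro ⟨e, rfl⟩
      exact e.2
  have hk0 : ∀ d : D₀, ∃ e : R, j e = ρ d := fun d =>
    (hr _).1 (Algebra.subset_adjoin ⟨d, d.2, rfl⟩)
  choose k hk using hk0
  let κ0 : D₀ →* R :=
    { toFun := k
      map_one' := by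
        apply hj
        rw [hk, map_one, Subgroup.coe_one, map_one]
      map_mul' := fun γ δ => by
        apply hj
        rw [map_mul, hk, hk, hk, Subgroup.coe_mul, map_mul] }
  let lam : D₀ →* Rˣ := MonoidHom.toHomUnits κ0
  have hlam : ∀ d : D₀, j ((lam d : Rˣ) : R) = ρ d := fun γ => hk γ
  let mR : Module R V := Module.compHom V (j : R →+* Module.End ℚ V)
  have hsm : ∀ (e : R) (x : V), e • x = j e x := fun e x => rfl
  have hst : IsScalarTower ℚ R V := by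
    constructor
    intro q e x
    rw [hsm, hsm, map_smul]
    rfl
  have hact : ∀ (d : D₀) (m : M), ι (β d m) = ((lam d : Rˣ) : R) • ι m := by
    intro d m
    rw [hsm, hlam, hρ]
  have hfaith : ∀ e : R, (∀ x : V, e • x = 0) → e = 0 := by
    intro e he
    apply hj
    rw [map_zero]
    ext x
    exact he x
  have hfinR : Module.Finite ℚ R := Module.Finite.of_injective j.toLinearMap hj
  have hfinV : Module.Finite R V := Module.Finite.of_restrictScalars_finite ℚ R V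
  refine ⟨V, inferInstance, ι, R, cR, aR, mR, lam, hfinR, ?_, hfinV, hfaith, hι, hs, hact⟩
  rw [isReduced_iff_pow_one_lt 2 one_lt_two]
  intro x hx
  have hxx : ∀ v : V, x • x • v = 0 := by
    intro v
    rw [smul_smul, ← pow_two, hx, zero_smul]
  have hzs : ∀ (n : ℤ) (v : V), x • (n • v) = n • (x • v) := fun n v => by
    rw [hsm, hsm, map_zsmul]
  let L : AddSubgroup M :=
    { carrier := {m | x • ι m = 0}
      zero_mem' := by
        show x • ι 0 = 0
        rw [map_zero, smul_zero]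
      add_mem' := by
        intro a b ha hb
        show x • ι (a + b) = 0
        rw [map_add, smul_add, show x • ι a = 0 from ha, show x • ι b = 0 from hb, add_zero]
      neg_mem' := by
        intro a ha
        show x • ι (-a) = 0
        rw [map_neg, smul_neg, show x • ι a = 0 from ha, neg_zero] }
  have hLmem : ∀ m, m ∈ L ↔ x • ι m = 0 := fun m => Iff.rfl
  obtain ⟨L', hL', hinf, hsup⟩ := h.ss L (by
    intro d hd m hm
    rw [hLmem] at hm ⊢
    have h1 := hact ⟨d, hd⟩ m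
    simp only at h1
    rw [h1, smul_smul, mul_comm, ← smul_smul, hm, smul_zero])
  have hL'0 : ∀ m ∈ L', m = 0 := by
    intro m hm
    obtain ⟨k, hk, m', hm', e1⟩ := j1_stab β D₀ ρ ι hρ L' hL' (j x) ((hr _).2 ⟨x, rfl⟩) m hm
    have e2 : k • (x • ι m) = ι m' := e1
    have h1 : m' ∈ L := by
      rw [hLmem, ← e2, hzs, hxx, smul_zero]
    have h2 : m' = 0 := by
      have h3 : m' ∈ L ⊓ L' := ⟨h1, hm'⟩
      rw [hinf] at h3
      exact h3
    rw [h2, map_zero] at e2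
    have h3 : m ∈ L := (hLmem m).2 (j1_zero k hk _ e2)
    have h4 : m ∈ L ⊓ L' := ⟨h3, hm⟩
    rw [hinf] at h4
    exact h4
  have hL'bot : L' = ⊥ := (AddSubgroup.eq_bot_iff_forall L').2 hL'0
  have hall : ∀ m, x • ι m = 0 := by
    intro m
    obtain ⟨n, hn, hnm⟩ := hsup m
    rw [hL'bot, sup_bot_eq, hLmem, map_zsmul, hzs] at hnm
    exact j1_zero n hn _ hnm
  apply hfaith
  intro v
  obtain ⟨n, hn, m, hm⟩ := hs v
  apply j1_zero n hn
  rw [← hzs, hm, hall]

end Pool.Agent.LibNW45
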