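import Mathlib
import Pool.Agent.LibNM.N12
import Pool.Agent.LibNV.V14

set_option autoImplicit false

/-! Positivity for the units of a finite dimensional reduced commutative algebra over `ℚ`: a
consequence of the product formula and of the structure of the group of units. -/

namespace Pool.Agent.LibNW45

open Polynomial Pool.Agent.LibNM Pool.Agent.LibNV Pool.Agent.LibND TensorProduct

/-- `ℓ` is the vector of the `log |σ (u j)|` for a ring homomorphism `σ : R → K` to a normed field
of characteristic zero with enough characters. -/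
def IsT {R : Type} [CommRing R] {r : ℕ} (u : Fin r → Rˣ) (ℓ : Fin r → ℝ) : Prop :=
  ∃ (K : Type) (_ : NormedField K), GoodField K ∧ CharZero K ∧
    ∃ σ : R →+* K, ∀ j, ℓ j = Real.log ‖σ (u j : R)‖

section

attribute [local instance] Polynomial.algebra

private theorem j2_fin {R : Type} [CommRing R] [Algebra ℚ R] [Module.Finite ℚ R] :
    Module.Finite ℚ[X] R[X] ∧ Module.Free ℚ[X] R[X] := by
  have h : Algebra.IsPushout ℚ ℚ[X] R R[X] := inferInstance
  exact ⟨Module.Finite.equiv h.out.equiv, Module.Free.of_equiv h.out.equiv⟩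

private theorem j2_red {R : Type} [CommRing R] [IsReduced R] : IsReduced R[X] := by
  constructor
  intro f hf
  rw [Polynomial.isNilpotent_iff] at hf
  ext i
  rw [(hf i).eq_zero, coeff_zero]

theorem positivityR {R : Type} [CommRing R] [IsReduced R] [Nontrivial R] [Algebra ℚ R]
    [Module.Finite ℚ R] {r : ℕ} (u : Fin r → Rˣ)
    (hu : ∀ n : Fin r → ℤ, ∏ j, u j ^ n j = 1 → n = 0) (x : Fin r → ℝ) (hx : x ≠ 0) :
    ∃ ℓ, IsT u ℓ ∧ ∑ j, x j * ℓ j < 0 := by
  classical
  haveI := (j2_fin (R := R)).1
  haveI := (j2_fin (R := R)).2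
  haveI := j2_red (R := R)
  have hinj : Function.Injective (Units.map (C : R →+* R[X]).toMonoidHom) :=
    Units.map_injective (C_injective)
  obtain ⟨τ, -, ℓ, ⟨K, iK, hgood, hchar, σ, -, hℓ⟩, hneg⟩ := positivityV
    (fun j => Units.map (C : R →+* R[X]).toMonoidHom (u j)) (by
      intro n hn
      apply hu n
      apply hinj
      rw [map_prod, map_one, ← hn]
      refine Finset.prod_congr rfl fun j _ => ?_
      rw [map_zpow]) Set.univ Set.infinite_univ x hx
  exact ⟨ℓ, ⟨K, iK, hgood, hchar, σ.comp C, fun j => hℓ j⟩, hneg⟩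

end

end Pool.Agent.LibNW45
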