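import Mathlib
import Pool.Agent.LibNW45.J2

set_option autoImplicit false

/-! Torsion units of a finite dimensional commutative algebra over `ℚ`, and integral relations from
real ones. -/

namespace Pool.Agent.LibNW45

open Polynomial Pool.Agent.LibNM Pool.Agent.LibNV Pool.Agent.LibND

private theorem j3_pow {R : Type} [CommRing R] [Nontrivial R] [Algebra ℚ R] [Module.Finite ℚ R] (v : R) (p k : ℕ)
    (hp : p.Prime) (h1 : v ^ p ^ (k + 1) = 1) (h2 : v ^ p ^ k ≠ 1) :
    p ^ (k + 1) ≤ 2 * Module.finrank ℚ R := by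
  have : Fact p.Prime := ⟨hp⟩
  have hirr : Irreducible (cyclotomic (p ^ (k + 1)) ℚ) :=
    cyclotomic.irreducible_rat (pow_pos hp.pos _)
  have hint : IsIntegral ℚ v := Algebra.IsIntegral.isIntegral v
  have hdvd : minpoly ℚ v ∣ cyclotomic (p ^ (k + 1)) ℚ * (X ^ p ^ k - 1) := by
    rw [cyclotomic_prime_pow_mul_X_pow_sub_one]
    apply minpoly.dvd
    rw [map_sub, map_pow, aeval_X, map_one, h1, sub_self]
  have hdeg : (minpoly ℚ v).natDegree ≤ Module.finrank ℚ R := minpoly.natDegree_le v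
  by_cases hd : cyclotomic (p ^ (k + 1)) ℚ ∣ minpoly ℚ v
  swap
  · exfalso
    have hc : IsCoprime (cyclotomic (p ^ (k + 1)) ℚ) (minpoly ℚ v) := hirr.coprime_iff_not_dvd.2 hd
    apply h2
    have h3 : minpoly ℚ v ∣ X ^ p ^ k - 1 := hc.symm.dvd_of_dvd_mul_left hdvd
    have h4 : aeval v (X ^ p ^ k - 1 : ℚ[X]) = 0 := by
      obtain ⟨q, hq⟩ := h3
      rw [hq, map_mul, minpoly.aeval, zero_mul]
    rw [map_sub, map_pow, aeval_X, map_one] at h4
    exact sub_eq_zero.1 h4
  · have h3 := natDegree_le_of_dvd hd (minpoly.ne_zero hint)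
    rw [natDegree_cyclotomic, Nat.totient_prime_pow hp (Nat.succ_pos k), Nat.succ_sub_one] at h3
    have h4 : p ^ (k + 1) ≤ 2 * (p ^ k * (p - 1)) := by
      have h5 := hp.two_le
      have h6 : p ≤ 2 * (p - 1) := by omega
      calc p ^ (k + 1) = p ^ k * p := pow_succ p k
        _ ≤ p ^ k * (2 * (p - 1)) := Nat.mul_le_mul le_rfl h6
        _ = 2 * (p ^ k * (p - 1)) := by ring
    omega

/-- the torsion units have bounded order -/
theorem torsion_bound (R : Type) [CommRing R] [Nontrivial R] [Algebra ℚ R] [Module.Finite ℚ R] :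
    ∃ W : ℕ, 0 < W ∧ ∀ (w : Rˣ) (k : ℕ), 0 < k → w ^ k = 1 → w ^ W = 1 := by
  refine ⟨(2 * Module.finrank ℚ R).factorial, Nat.factorial_pos _, fun w k hk hwk => ?_⟩
  have ho : 0 < orderOf w := orderOf_pos_iff.2 (isOfFinOrder_iff_pow_eq_one.2 ⟨k, hk, hwk⟩)
  rw [← orderOf_dvd_iff_pow_eq_one, Nat.dvd_iff_prime_pow_dvd_dvd]
  intro p l hp hpl
  rcases l with _ | l
  · rw [pow_zero]
    exact one_dvd _
  · obtain ⟨c, hc⟩ := hpl
    have hc0 : 0 < c := by
      rcases Nat.eq_zero_or_pos c with h | h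
      · rw [h, mul_zero] at hc
        omega
      · exact h
    have h1 : ((w ^ c : Rˣ) : R) ^ p ^ (l + 1) = 1 := by
      rw [← Units.val_pow_eq_pow_val, ← pow_mul, mul_comm, ← hc, pow_orderOf_eq_one, Units.val_one]
    have h2 : ((w ^ c : Rˣ) : R) ^ p ^ l ≠ 1 := by
      intro h
      rw [← Units.val_pow_eq_pow_val, ← pow_mul, Units.val_eq_one] at h
      have h3 := orderOf_dvd_of_pow_eq_one h
      rw [hc] at h3
      have h4 := Nat.le_of_dvd (Nat.mul_pos hc0 (pow_pos hp.pos l)) h3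
      have h5 : p ^ (l + 1) * c = c * p ^ l * p := by ring
      rw [h5] at h4
      have h6 := hp.two_le
      have h7 : 0 < c * p ^ l := Nat.mul_pos hc0 (pow_pos hp.pos l)
      nlinarith
    have h3 := j3_pow _ p l hp h1 h2
    exact Nat.dvd_factorial (pow_pos hp.pos _) h3

/-- a power of every element lies in the lattice -/
theorem pow_mem_lattice {Q : Type} [Group Q] {r : ℕ} (e : Zd r →* Q) (F : Finset Q)
    (h : ∀ q : Q, ∃ ν : Zd r, ∃ f ∈ F, q = e ν * f) (q : Q) :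
    ∃ L : ℕ, 0 < L ∧ ∃ ν : Zd r, q ^ L = e ν := by
  classical
  choose ν f hf hν using fun k : ℕ => h (q ^ k)
  obtain ⟨a, b, hab, heq⟩ : ∃ a b : ℕ, a ≠ b ∧ f a = f b := by
    have h1 : ¬ Function.Injective (fun k : ℕ => (⟨f k, hf k⟩ : F)) := not_injective_infinite_finite _
    unfold Function.Injective at h1
    push Not at h1
    obtain ⟨a, b, h2, h3⟩ := h1
    exact ⟨a, b, h3, congrArg Subtype.val h2⟩
  have key : ∀ a b : ℕ, a < b → f a = f b → ∃ L : ℕ, 0 < L ∧ ∃ ν : Zd r, q ^ L = e ν := by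
    intro a b hlt heq
    refine ⟨b - a, Nat.sub_pos_of_lt hlt, ν b * (ν a)⁻¹, ?_⟩
    have h1 : q ^ b = q ^ (b - a) * q ^ a := by rw [← pow_add, Nat.sub_add_cancel hlt.le]
    rw [hν b, hν a, ← heq] at h1
    rw [map_mul, map_inv, ← mul_right_cancel_iff (a := e (ν a) * f a), ← h1, mul_assoc,
      inv_mul_cancel_left]
  rcases lt_or_gt_of_ne hab with h1 | h1
  · exact key a b h1 heq
  · exact key b a h1 heq.symm

/-- the norm of a word in the units -/
theorem norm_word {E : Type} [CommRing E] {r : ℕ} (e' : Zd r →* Eˣ) {K : Type}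
    [NormedField K] (σ : E →+* K) (ν : Zd r) :
    Real.log ‖σ (e' ν : E)‖ = ∑ j, (ν.toAdd j : ℝ) *
      Real.log ‖σ (e' (Multiplicative.ofAdd (Pi.single j 1)) : E)‖ := by
  let N : Eˣ →* ℝ := ((normHom : K →*₀ ℝ) : K →* ℝ).comp ((σ : E →* K).comp (Units.coeHom E))
  have hN : ∀ x : Eˣ, N x = ‖σ (x : E)‖ := fun x => rfl
  have hpos : ∀ x : Eˣ, 0 < N x := fun x => norm_pos_iff.2 (x.isUnit.map σ).ne_zero
  rw [← hN, map_zd e' ν, map_prod, Real.log_prod (fun j _ => (hpos _).ne')]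
  refine Finset.sum_congr rfl fun j _ => ?_
  rw [map_zpow, Real.log_zpow, hN]

/-- if no test is negative at `x`, then every rational image of `x` is a torsion relation -/
theorem torsion_of_nonneg {R : Type} [CommRing R] [IsReduced R] [Nontrivial R] [Algebra ℚ R]
    [Module.Finite ℚ R] {r : ℕ} (h : Zd r →* Rˣ) (x : Fin r → ℝ)
    (hx : ∀ ℓ, IsT (fun j => h (Multiplicative.ofAdd (Pi.single j 1))) ℓ → 0 ≤ ∑ j, x j * ℓ j)
    (φ : ℝ →ₗ[ℚ] ℚ) (N : ℤ) (n : Fin r → ℤ) (hn : ∀ j, (n j : ℚ) = N * φ (x j)) :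
    ∃ k : ℕ, 0 < k ∧ h (Multiplicative.ofAdd n) ^ k = 1 := by
  classical
  have hfg : Group.FG h.range := by
    have : Group.FG (Zd r) := inferInstance
    exact Group.fg_range h
  obtain ⟨s, e, F, he, hdec⟩ := lattice h.range hfg
  have hdec' : ∀ j : Fin r, ∃ L : ℕ, 0 < L ∧ ∃ ν : Zd s,
      (⟨h (Multiplicative.ofAdd (Pi.single j 1)), ⟨_, rfl⟩⟩ : h.range) ^ L = e ν :=
    fun j => pow_mem_lattice e F hdec _
  choose Lj hLj νj hνj using hdec'
  obtain ⟨L, hL⟩ : ∃ L : ℕ, L = ∏ j, Lj j := ⟨_, rfl⟩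
  have hL0 : 0 < L := by
    rw [hL]
    exact Finset.prod_pos fun j _ => hLj j
  have hLd : ∀ j, Lj j ∣ L := by
    intro j
    rw [hL]
    exact Finset.dvd_prod_of_mem _ (Finset.mem_univ j)
  have hμ : ∀ j : Fin r, ∃ μ : Zd s, h (Multiplicative.ofAdd (Pi.single j 1)) ^ L =
      ((e μ : h.range) : Rˣ) := by
    intro j
    obtain ⟨c, hc⟩ := hLd j
    refine ⟨(νj j) ^ c, ?_⟩
    rw [hc, pow_mul, map_pow, SubmonoidClass.coe_pow, ← hνj j]
    rfl
  choose μ hμ using hμ
  obtain ⟨e', he'⟩ : ∃ e' : Zd s →* Rˣ, e' = h.range.subtype.comp e := ⟨_, rfl⟩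
  have he'x : ∀ ν, e' ν = ((e ν : h.range) : Rˣ) := by
    intro ν
    rw [he']
    rfl
  have he'inj : Function.Injective e' := by
    rw [he']
    exact Subtype.val_injective.comp he
  have hlog : ∀ (K : Type) (iK : NormedField K) (σ : R →+* K) (j : Fin r),
      (L : ℝ) * Real.log ‖σ (h (Multiplicative.ofAdd (Pi.single j 1)) : R)‖ =
        ∑ i, ((μ j).toAdd i : ℝ) *
          Real.log ‖σ (e' (Multiplicative.ofAdd (Pi.single i 1)) : R)‖ := by
    intro K iK σ j
    rw [← norm_word e' σ, he'x, ← hμ, Units.val_pow_eq_pow_val, map_pow, norm_pow, Real.log_pow]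
  -- the pulled back vector vanishes
  have hx' : (fun i => ∑ j, x j * ((μ j).toAdd i : ℝ)) = 0 := by
    by_contra hne
    obtain ⟨ℓ', ⟨K, iK, hgood, hchar, σ, hℓ'⟩, hneg⟩ := positivityR
      (fun i => e' (Multiplicative.ofAdd (Pi.single i 1))) (by
        intro m hm
        have h1 := map_zd e' (Multiplicative.ofAdd m)
        have h2 : e' (Multiplicative.ofAdd m) = 1 := h1.trans hm
        have h3 : Multiplicative.ofAdd m = 1 := he'inj (by rw [h2, map_one])
        exact Multiplicative.ofAdd.injective h3) _ hne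
    have h1 := hx (fun j => Real.log ‖σ (h (Multiplicative.ofAdd (Pi.single j 1)) : R)‖)
      ⟨K, iK, hgood, hchar, σ, fun j => rfl⟩
    have h2 : (L : ℝ) * ∑ j, x j * Real.log ‖σ (h (Multiplicative.ofAdd (Pi.single j 1)) : R)‖ =
        ∑ i, (∑ j, x j * ((μ j).toAdd i : ℝ)) * ℓ' i := by
      rw [Finset.mul_sum]
      have h3 : ∀ j ∈ Finset.univ, (L : ℝ) *
          (x j * Real.log ‖σ (h (Multiplicative.ofAdd (Pi.single j 1)) : R)‖) =
          ∑ i, x j * ((μ j).toAdd i : ℝ) * ℓ' i := by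
        intro j _
        rw [mul_left_comm, hlog K iK σ j, Finset.mul_sum]
        refine Finset.sum_congr rfl fun i _ => ?_
        rw [hℓ' i, mul_assoc]
      rw [Finset.sum_congr rfl h3, Finset.sum_comm]
      refine Finset.sum_congr rfl fun i _ => ?_
      rw [Finset.sum_mul]
    have h4 : (0 : ℝ) < L := by exact_mod_cast hL0
    have h5 := mul_nonneg h4.le h1
    rw [h2] at h5
    exact absurd hneg (not_lt.2 h5)
  refine ⟨L, hL0, ?_⟩
  have h1 : ∀ i, ∑ j, n j * (μ j).toAdd i = 0 := by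
    intro i
    have h2 := congrFun hx' i
    have h3 := congrArg φ h2
    simp only [Pi.zero_apply, map_sum, map_zero] at h3
    have h4 : ∀ j ∈ Finset.univ, φ (x j * ((μ j).toAdd i : ℝ)) = φ (x j) * ((μ j).toAdd i : ℚ) := by
      intro j _
      have h5 : x j * ((μ j).toAdd i : ℝ) = ((μ j).toAdd i : ℚ) • x j := by
        rw [Rat.smul_def]
        push_cast
        ring
      rw [h5, map_smul, smul_eq_mul, mul_comm]
    rw [Finset.sum_congr rfl h4] at h3
    have h6 : ((∑ j, n j * (μ j).toAdd i : ℤ) : ℚ) = N * ∑ j, φ (x j) * ((μ j).toAdd i : ℚ) := by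
      push_cast
      rw [Finset.mul_sum]
      refine Finset.sum_congr rfl fun j _ => ?_
      rw [hn j, mul_assoc]
    rw [h3, mul_zero] at h6
    exact_mod_cast h6
  have h2 : h (Multiplicative.ofAdd n) ^ L = e' (∏ j, μ j ^ n j) := by
    rw [map_zd h (Multiplicative.ofAdd n), ← Finset.prod_pow, map_prod]
    refine Finset.prod_congr rfl fun j _ => ?_
    rw [map_zpow, he'x, ← hμ, toAdd_ofAdd, ← zpow_natCast, ← zpow_natCast, ← zpow_mul, ← zpow_mul,
      mul_comm]
  have h3 : (∏ j, μ j ^ n j) = 1 := by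
    apply Multiplicative.toAdd.injective
    rw [toAdd_prod]
    funext i
    simp only [toAdd_zpow, Finset.sum_apply, Pi.smul_apply, smul_eq_mul, toAdd_one, Pi.zero_apply]
    exact h1 i
  rw [h2, h3, map_one]

end Pool.Agent.LibNW45
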