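import Mathlib
import Pool.Agent.LibNW45.J1
import Pool.Agent.LibNW45.J3
import Pool.Agent.LibNM.N02
import Pool.Agent.LibNV.V15

set_option autoImplicit false

/-! Finitely many tests, at different cosets, one of which is small for all but finitely many `d`. -/

namespace Pool.Agent.LibNW45

open Polynomial Filter Topology Pool.Agent.LibNM Pool.Agent.LibNV Pool.Agent.LibND

/-- `φ d = ‖f (d m)‖` for a homomorphism `f : M → K` to a good field of characteristic zero and an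
element `m` with `f m = 1`. -/
def IsMT {D M : Type} [Group D] [AddCommGroup M] (β : D →* AddMonoid.End M) (φ : D → ℝ) : Prop :=
  ∃ (K : Type) (_ : NormedField K), GoodField K ∧ CharZero K ∧
    ∃ (f : M →+ K) (m : M), f m = 1 ∧ ∀ d, φ d = ‖f (β d m)‖

/-- a lattice in `D` which is mapped to `D₀` by all endomorphisms -/
theorem frs_lattice {D : Type} [Group D] (D₀ : Subgroup D) (hfg : Group.FG D)
    (hfin : D₀.FiniteIndex) (hcomm : ∀ a ∈ D₀, ∀ b ∈ D₀, a * b = b * a) :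
    ∃ (r : ℕ) (e : Zd r →* D) (F : Finset D), Function.Injective e ∧
      (∀ d : D, ∃ ν : Zd r, ∃ g ∈ F, d = e ν * g) ∧ ∀ (c : D →* D) (ν : Zd r), c (e ν) ∈ D₀ := by
  classical
  let iC : CommGroup D₀ :=
    { (inferInstance : Group D₀) with
      mul_comm := fun a b => Subtype.ext (hcomm a a.2 b b.2) }
  have hfg₀ : Group.FG D₀ := by
    have : Group.FG D := hfg
    exact Subgroup.fg_of_index_ne_zero D₀
  obtain ⟨r, e₀, F₀, he₀, hdec⟩ := lattice D₀ hfg₀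
  have hidx : D₀.index ≠ 0 := hfin.index_ne_zero
  obtain ⟨L, hL⟩ : ∃ L : ℕ, L = (D₀.index).factorial := ⟨_, rfl⟩
  have hL0 : 0 < L := by
    rw [hL]
    exact Nat.factorial_pos _
  have hpow : ∀ d : D, d ^ L ∈ D₀ := by
    intro d
    refine Subgroup.pow_mem_of_index_ne_zero_of_dvd hidx d fun m hm hm' => ?_
    rw [hL]
    exact Nat.dvd_factorial hm hm'
  let e : Zd r →* D := D₀.subtype.comp ((powMonoidHom L).comp e₀)
  have he : ∀ ν, e ν = ((e₀ ν : D₀) : D) ^ L := fun ν => rfl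
  refine ⟨r, e, ?_⟩
  -- representatives
  let G : Finset D := (Finset.univ : Finset (Fin r → Fin L)).image
    fun ρ => ((e₀ (Multiplicative.ofAdd fun j => ((ρ j : ℕ) : ℤ)) : D₀) : D)
  obtain ⟨_⟩ := nonempty_fintype (D ⧸ D₀)
  let Q : Finset D := (Finset.univ : Finset (D ⧸ D₀)).image fun q => (q.out)⁻¹
  refine ⟨((G ×ˢ F₀) ×ˢ Q).image fun p => p.1.1 * (p.1.2 : D) * p.2, ?_, ?_, ?_⟩
  · intro x y hxy
    have h1 : (e₀ x) ^ L = (e₀ y) ^ L := Subtype.ext hxy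
    rw [← map_pow, ← map_pow] at h1
    have h2 := he₀ h1
    have h3 := congrArg Multiplicative.toAdd h2
    rw [toAdd_pow, toAdd_pow] at h3
    apply Multiplicative.toAdd.injective
    funext j
    have h4 := congrFun h3 j
    simp only [Pi.smul_apply, nsmul_eq_mul] at h4
    have h5 : (L : ℤ) ≠ 0 := by exact_mod_cast hL0.ne'
    exact mul_left_cancel₀ h5 h4
  · intro d
    have h5 : (((d⁻¹ : D) : D ⧸ D₀).out)⁻¹ * d⁻¹ ∈ D₀ :=
      QuotientGroup.eq.1 (Quotient.out_eq' ((d⁻¹ : D) : D ⧸ D₀))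
    obtain ⟨ν, f, hf, hνf⟩ := hdec (⟨_, h5⟩ : D₀)⁻¹
    have h6 := congrArg (fun x : D₀ => (x : D)) hνf
    have h7 : ((((d⁻¹ : D) : D ⧸ D₀).out)⁻¹ * d⁻¹)⁻¹ = (e₀ ν : D) * (f : D) := h6
    -- division by `L`
    let ν' : Zd r := Multiplicative.ofAdd fun j => ν.toAdd j / L
    have hρ : ∀ j, 0 ≤ ν.toAdd j % L ∧ ν.toAdd j % L < L := fun j =>
      ⟨Int.emod_nonneg _ (by exact_mod_cast hL0.ne'), Int.emod_lt_of_pos _ (by exact_mod_cast hL0)⟩
    let ρ : Fin r → Fin L := fun j => ⟨(ν.toAdd j % L).toNat, by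
      have := hρ j
      omega⟩
    have h8 : ν = ν' ^ L * Multiplicative.ofAdd fun j => ((ρ j : ℕ) : ℤ) := by
      apply Multiplicative.toAdd.injective
      rw [toAdd_mul, toAdd_pow]
      funext j
      have h9 : (((ρ j : ℕ) : ℤ)) = ν.toAdd j % L := Int.toNat_of_nonneg (hρ j).1
      simp only [Pi.add_apply, toAdd_ofAdd, nsmul_eq_mul, h9]
      show ν.toAdd j = L * (ν.toAdd j / L) + ν.toAdd j % L
      rw [Int.mul_ediv_add_emod]
    refine ⟨ν', ((e₀ (Multiplicative.ofAdd fun j => ((ρ j : ℕ) : ℤ)) : D₀) : D) * (f : D) *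
      (((d⁻¹ : D) : D ⧸ D₀).out)⁻¹, ?_, ?_⟩
    · refine Finset.mem_image.2 ⟨((_, f), _), Finset.mem_product.2 ⟨Finset.mem_product.2
        ⟨Finset.mem_image.2 ⟨ρ, Finset.mem_univ _, rfl⟩, hf⟩,
        Finset.mem_image.2 ⟨_, Finset.mem_univ _, rfl⟩⟩, rfl⟩
    · rw [he, ← mul_assoc, ← mul_assoc]
      have h9 : ((e₀ ν' : D₀) : D) ^ L * ((e₀ (Multiplicative.ofAdd fun j => ((ρ j : ℕ) : ℤ)) : D₀) : D)
          = (e₀ ν : D) := by
        conv_rhs => rw [h8]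
        rw [map_mul, map_pow]
        rfl
      rw [h9, ← h7, mul_inv_rev, inv_inv, inv_inv, mul_assoc, mul_inv_cancel, mul_one]
  · intro c ν
    rw [he, map_pow]
    exact hpow _

/-- a nonzero rational image of a nonzero real vector -/
theorem exists_rat_image {r : ℕ} (x : Fin r → ℝ) (hx : x ≠ 0) :
    ∃ (φ : ℝ →ₗ[ℚ] ℚ) (N : ℤ) (n : Fin r → ℤ), (∀ j, (n j : ℚ) = N * φ (x j)) ∧ n ≠ 0 := by
  classical
  obtain ⟨j₀, hj₀⟩ : ∃ j, x j ≠ 0 := by
    by_contra h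
    push Not at h
    exact hx (funext h)
  obtain ⟨φ, hφ⟩ : ∃ φ : Module.Dual ℚ ℝ, φ (x j₀) ≠ 0 := by
    by_contra h
    push Not at h
    exact hj₀ ((Module.forall_dual_apply_eq_zero_iff ℚ (x j₀)).1 h)
  obtain ⟨N, hN⟩ : ∃ N : ℕ, N = ∏ j, (φ (x j)).den := ⟨_, rfl⟩
  have hN0 : N ≠ 0 := by
    rw [hN]
    exact Finset.prod_ne_zero_iff.2 fun j _ => (φ (x j)).den_ne_zero
  have hn : ∀ j, ∃ n : ℤ, (n : ℚ) = ((N : ℤ) : ℚ) * φ (x j) := by
    intro j
    have h1 : (φ (x j)).den ∣ N := by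
      rw [hN]
      exact Finset.dvd_prod_of_mem (fun j => (φ (x j)).den) (Finset.mem_univ j)
    obtain ⟨c, hc⟩ := h1
    refine ⟨c * (φ (x j)).num, ?_⟩
    have h2 : ((φ (x j)).den : ℚ) * φ (x j) = (φ (x j)).num := by
      rw [mul_comm]
      exact Rat.mul_den_eq_num _
    rw [hc]
    push_cast
    rw [← h2]
    ring
  choose n hn using hn
  refine ⟨φ, N, n, hn, ?_⟩
  intro h
  have h1 := hn j₀
  rw [h, Pi.zero_apply, Int.cast_zero] at h1
  rcases mul_eq_zero.1 h1.symm with h2 | h2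
  · exact hN0 (by exact_mod_cast h2)
  · exact hφ h2

end Pool.Agent.LibNW45
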