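import Mathlib
import Pool.Agent.LibNW45.J4

set_option autoImplicit false

/-! Finitely many tests, at different cosets, one of which is small for all but finitely many `d`. -/

namespace Pool.Agent.LibNW45

open Polynomial Filter Topology Pool.Agent.LibNM Pool.Agent.LibNV Pool.Agent.LibND

/-- compactness: integer vectors on which all tests are bounded below are bounded -/
private theorem j5_compact {r : ℕ} (s : Finset ℤ) (ℓ : ℤ → Fin r → ℝ)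
    (h : ∀ x : Fin r → ℝ, x ≠ 0 → ∃ τ ∈ s, ∑ j, x j * ℓ τ j < 0) (M : ℝ) :
    {ν : Fin r → ℤ | ∀ τ ∈ s, - M < ∑ j, (ν j : ℝ) * ℓ τ j}.Finite := by
  let g : (Fin r → ℝ) → ℝ := fun x => ∑ τ ∈ s, max 0 (- ∑ j, x j * ℓ τ j)
  have hgc : Continuous g := by
    refine continuous_finsetSum _ fun τ _ => continuous_const.max (Continuous.neg ?_)
    exact continuous_finsetSum _ fun j _ => (continuous_apply j).mul continuous_const
  have hg0 : ∀ x : Fin r → ℝ, x ≠ 0 → 0 < g x := by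
    intro x hx
    obtain ⟨τ, hτ, hlt⟩ := h x hx
    refine lt_of_lt_of_le (lt_of_lt_of_le (neg_pos.2 hlt) (le_max_right 0 _))
      (Finset.single_le_sum (f := fun τ => max 0 (- ∑ j, x j * ℓ τ j))
        (fun i _ => le_max_left _ _) hτ)
  have hgh : ∀ (t : ℝ) (x : Fin r → ℝ), 0 ≤ t → g (t • x) = t * g x := by
    intro t x ht
    simp only [g, Finset.mul_sum]
    refine Finset.sum_congr rfl fun τ _ => ?_
    have e1 : - ∑ j, (t • x) j * ℓ τ j = t * (- ∑ j, x j * ℓ τ j) := by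
      rw [mul_neg, Finset.mul_sum]
      congr 1
      exact Finset.sum_congr rfl fun j _ => by simp [mul_assoc]
    rw [e1, mul_max_of_nonneg _ _ ht, mul_zero]
  obtain ⟨c, hc, hcg⟩ : ∃ c : ℝ, 0 < c ∧ ∀ x : Fin r → ℝ, c * ‖x‖ ≤ g x := by
    by_cases hne : (Metric.sphere (0 : Fin r → ℝ) 1).Nonempty
    · obtain ⟨x0, hx0, hmin⟩ := (isCompact_sphere (0 : Fin r → ℝ) 1).exists_isMinOn hne
        hgc.continuousOn
      have hx00 : x0 ≠ 0 := by
        rintro rfl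
        rw [mem_sphere_zero_iff_norm, norm_zero] at hx0
        exact zero_ne_one hx0
      refine ⟨g x0, hg0 x0 hx00, fun x => ?_⟩
      rcases eq_or_ne x 0 with rfl | hx
      · rw [norm_zero, mul_zero]
        exact Finset.sum_nonneg fun i _ => le_max_left _ _
      · have hxn : 0 < ‖x‖ := norm_pos_iff.2 hx
        have h1 : ‖x‖⁻¹ • x ∈ Metric.sphere (0 : Fin r → ℝ) 1 := by
          rw [mem_sphere_zero_iff_norm, norm_smul, norm_inv, norm_norm, inv_mul_cancel₀ hxn.ne']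
        have h2 : g x0 ≤ g (‖x‖⁻¹ • x) := hmin h1
        rw [hgh _ _ (inv_nonneg.2 hxn.le), inv_mul_eq_div, le_div_iff₀ hxn] at h2
        exact h2
    · refine ⟨1, one_pos, fun x => ?_⟩
      have hx : x = 0 := by
        by_contra hx
        have hxn : 0 < ‖x‖ := norm_pos_iff.2 hx
        exact hne ⟨‖x‖⁻¹ • x, by
          rw [mem_sphere_zero_iff_norm, norm_smul, norm_inv, norm_norm, inv_mul_cancel₀ hxn.ne']⟩
      subst hx
      rw [norm_zero, mul_zero]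
      exact Finset.sum_nonneg fun i _ => le_max_left _ _
  obtain ⟨B, hB⟩ := exists_nat_ge ((s.card : ℝ) * max 0 M / c)
  refine (Set.finite_Icc (fun _ : Fin r => -(B : ℤ)) fun _ => (B : ℤ)).subset fun ν hν => ?_
  have h1 : g (fun j => (ν j : ℝ)) ≤ s.card * max 0 M := by
    calc g (fun j => (ν j : ℝ)) ≤ ∑ _τ ∈ s, max 0 M := by
          refine Finset.sum_le_sum fun τ hτ => max_le_max le_rfl ?_
          have := hν τ hτ
          linarith
      _ = s.card * max 0 M := by rw [Finset.sum_const, nsmul_eq_mul]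
  have h2 : ‖(fun j => (ν j : ℝ) : Fin r → ℝ)‖ ≤ B := by
    refine le_trans ?_ hB
    rw [le_div_iff₀ hc, mul_comm]
    exact (hcg _).trans h1
  have h3 : ∀ j, |ν j| ≤ (B : ℤ) := by
    intro j
    have h4 := (norm_le_pi_norm (fun j => (ν j : ℝ) : Fin r → ℝ) j).trans h2
    rw [Real.norm_eq_abs] at h4
    exact_mod_cast h4
  exact ⟨fun j => (abs_le.1 (h3 j)).1, fun j => (abs_le.1 (h3 j)).2⟩

/-- the test of a homomorphism to a field -/
private theorem j5_test {D M V R : Type} [Group D] [AddCommGroup M] [AddCommGroup V] [CommRing R]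
    [Module R V] (hV : Module.Finite R V) (β : D →* AddMonoid.End M) (ι : M →+ V)
    (hs : ∀ x : V, ∃ n : ℤ, n ≠ 0 ∧ ∃ m, n • x = ι m)
    (hf : ∀ e : R, (∀ x : V, e • x = 0) → e = 0) {r : ℕ} (e : Zd r →* D) (c : D →* D)
    (h : Zd r →* Rˣ) (hh : ∀ ν m, ι (β (c (e ν)) m) = (h ν : R) • ι m) {ℓ : Fin r → ℝ}
    (hT : IsT (fun j => h (Multiplicative.ofAdd (Pi.single j 1))) ℓ) :
    ∃ φ : D → ℝ, IsMT β φ ∧ (∀ d, 0 ≤ φ d) ∧ ∀ (ν : Zd r) (g : D),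
      φ (c (e ν * g)) = Real.exp (∑ j, (ν.toAdd j : ℝ) * ℓ j) * φ (c g) := by
  obtain ⟨K, iK, hgood, hchar, σ, hℓ⟩ := hT
  obtain ⟨f₀, hf₀, v, hv⟩ := exists_functional hV hf σ
  obtain ⟨n, hn, m₀, hm₀⟩ := hs v
  have hne : f₀ (ι m₀) ≠ 0 := by
    rw [← hm₀, map_zsmul, zsmul_eq_mul]
    exact mul_ne_zero (by exact_mod_cast hn) hv
  let f : M →+ K := (AddMonoidHom.mulLeft (f₀ (ι m₀))⁻¹).comp (f₀.comp ι)
  have hfm : ∀ m, f m = (f₀ (ι m₀))⁻¹ * f₀ (ι m) := fun m => rfl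
  have hexp : ∀ ν : Zd r, ‖σ (h ν : R)‖ = Real.exp (∑ j, (ν.toAdd j : ℝ) * ℓ j) := by
    intro ν
    have h1 := norm_word h σ ν
    have h2 : 0 < ‖σ (h ν : R)‖ := norm_pos_iff.2 ((h ν).isUnit.map σ).ne_zero
    rw [← Real.exp_log h2, h1]
    congr 1
    exact Finset.sum_congr rfl fun j _ => by rw [hℓ]
  refine ⟨fun d => ‖f (β d m₀)‖, ⟨K, iK, hgood, hchar, f, m₀, ?_, fun d => rfl⟩,
    fun d => norm_nonneg _, fun ν g => ?_⟩
  · rw [hfm, inv_mul_cancel₀ hne]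
  · have h1 : f (β (c (e ν * g)) m₀) = σ (h ν : R) * f (β (c g) m₀) := by
      have h2 : β (c (e ν * g)) m₀ = β (c (e ν)) (β (c g) m₀) := by
        rw [map_mul, map_mul]
        rfl
      rw [h2, hfm, hh, hf₀, hfm, mul_left_comm]
    show ‖f (β (c (e ν * g)) m₀)‖ = _
    rw [h1, norm_mul, hexp]

theorem tests_frs {D M Q : Type} [Group D] [AddCommGroup M] [Nonempty Q]
    (β : D →* AddMonoid.End M) (D₀ : Subgroup D) (hM : FRS β D₀) [Nontrivial M]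
    (c : Q → D →* D) (S : ℤ → Finset Q)
    (hS : ∀ τ, ∀ d : D, (∀ q ∈ S τ, ∀ m, β (c q d) m = m) → d = 1) :
    ∃ (s : Finset ℤ) (q : ℤ → Q) (φ : ℤ → D → ℝ), (∀ τ ∈ s, q τ ∈ S τ ∧ IsMT β (φ τ)) ∧
      ∀ δ : ℝ, 0 < δ → {d : D | ∀ τ ∈ s, δ ≤ φ τ (c (q τ) d)}.Finite := by
  classical
  obtain ⟨V, _, ι, R, _, _, _, lam, hfinR, hred, hfinV, hfaith, hι, hs, hact⟩ := frs_ring β D₀ hM
  have hntR : Nontrivial R := by
    by_contra hcon
    rw [not_nontrivial_iff_subsingleton] at hcon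
    obtain ⟨m, hm⟩ := exists_ne (0 : M)
    apply hm
    apply hι
    rw [map_zero, ← one_smul R (ι m), Subsingleton.elim (1 : R) 0, zero_smul]
  obtain ⟨r, e, F, he, hdec, hcD⟩ := frs_lattice D₀ hM.fg hM.fin hM.comm
  obtain ⟨h, hh⟩ : ∃ h : Q → Zd r →* Rˣ, ∀ q ν m,
      ι (β (c q (e ν)) m) = ((h q ν : Rˣ) : R) • ι m := by
    refine ⟨fun q => lam.comp (((c q).comp e).codRestrict D₀ (hcD (c q))), fun q ν m => ?_⟩
    exact hact ⟨c q (e ν), hcD (c q) ν⟩ m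
  have hpos : ∀ T' : Set ℤ, T'.Infinite → ∀ x : Fin r → ℝ, x ≠ 0 →
      ∃ τ ∈ T', ∃ ℓ ∈ {ℓ | ∃ q ∈ S τ, IsT (fun j => h q (Multiplicative.ofAdd (Pi.single j 1))) ℓ},
        ∑ j, x j * ℓ j < 0 := by
    intro T' hT' x hx
    obtain ⟨τ, hτ⟩ := hT'.nonempty
    refine ⟨τ, hτ, ?_⟩
    by_contra hcon
    have H : ∀ q ∈ S τ, ∀ ℓ, IsT (fun j => h q (Multiplicative.ofAdd (Pi.single j 1))) ℓ →
        0 ≤ ∑ j, x j * ℓ j := by
      intro q hq ℓ hℓ
      by_contra h1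
      exact hcon ⟨ℓ, ⟨q, hq, hℓ⟩, not_le.1 h1⟩
    obtain ⟨φ, N, n, hn, hn0⟩ := exists_rat_image x hx
    have hk : ∀ q : Q, ∃ k : ℕ, 0 < k ∧ (q ∈ S τ → h q (Multiplicative.ofAdd n) ^ k = 1) := by
      intro q
      by_cases hq : q ∈ S τ
      · obtain ⟨k, hk, hk1⟩ := torsion_of_nonneg (h q) x (H q hq) φ N n hn
        exact ⟨k, hk, fun _ => hk1⟩
      · exact ⟨1, one_pos, fun h' => absurd h' hq⟩
    choose k hk0 hk using hk
    obtain ⟨k', hk'⟩ : ∃ k' : ℕ, k' = ∏ q ∈ S τ, k q := ⟨_, rfl⟩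
    have hk'0 : 0 < k' := by
      rw [hk']
      exact Finset.prod_pos fun q _ => hk0 q
    have h1 : ∀ q ∈ S τ, h q (Multiplicative.ofAdd n ^ k') = 1 := by
      intro q hq
      obtain ⟨a, ha⟩ : k q ∣ k' := by
        rw [hk']
        exact Finset.dvd_prod_of_mem _ hq
      rw [map_pow, ha, pow_mul, hk q hq, one_pow]
    have h2 : e (Multiplicative.ofAdd n ^ k') = 1 := by
      refine hS τ _ fun q hq m => ?_
      apply hι
      rw [hh, h1 q hq, Units.val_one, one_smul]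
    have h3 : Multiplicative.ofAdd n ^ k' = 1 := he (by rw [h2, map_one])
    have h4 := congrArg Multiplicative.toAdd h3
    rw [toAdd_pow, toAdd_ofAdd, toAdd_one] at h4
    apply hn0
    funext j
    have h5 := congrFun h4 j
    simp only [Pi.smul_apply, nsmul_eq_mul, Pi.zero_apply] at h5
    rcases mul_eq_zero.1 h5 with h6 | h6
    · exact absurd (by exact_mod_cast h6) hk'0.ne'
    · exact h6
  obtain ⟨s, ℓ, _, hl, hneg⟩ := selection (fun τ => {ℓ | ∃ q ∈ S τ,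
    IsT (fun j => h q (Multiplicative.ofAdd (Pi.single j 1))) ℓ}) hpos Set.univ Set.infinite_univ
  have hex : ∀ τ : ℤ, ∃ (q : Q) (φ : D → ℝ), τ ∈ s → q ∈ S τ ∧ IsMT β φ ∧ (∀ d, 0 ≤ φ d) ∧
      ∀ (ν : Zd r) (g : D),
        φ (c q (e ν * g)) = Real.exp (∑ j, (ν.toAdd j : ℝ) * ℓ τ j) * φ (c q g) := by
    intro τ
    by_cases hτ : τ ∈ s
    · obtain ⟨q, hq, ht⟩ := hl τ hτ
      obtain ⟨φ, hφ⟩ := j5_test hfinV β ι hs hfaith e (c q) (h q) (hh q) ht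
      exact ⟨q, φ, fun _ => ⟨hq, hφ⟩⟩
    · exact ⟨Classical.arbitrary Q, 0, fun h => absurd h hτ⟩
  choose q φ hφ using hex
  refine ⟨s, q, φ, fun τ hτ => ⟨(hφ τ hτ).1, (hφ τ hτ).2.1⟩, fun δ hδ => ?_⟩
  obtain ⟨C, hC⟩ : ∃ C : ℝ, C = 1 + ∑ τ ∈ s, ∑ g ∈ F, φ τ (c (q τ) g) := ⟨_, rfl⟩
  have hnn : ∀ τ ∈ s, 0 ≤ ∑ g ∈ F, φ τ (c (q τ) g) := fun τ hτ =>
    Finset.sum_nonneg fun g _ => (hφ τ hτ).2.2.1 _
  have hC0 : 0 < C := by
    rw [hC]
    have := Finset.sum_nonneg hnn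
    linarith
  have hCle : ∀ τ ∈ s, ∀ g ∈ F, φ τ (c (q τ) g) ≤ C := by
    intro τ hτ g hg
    have h5 : φ τ (c (q τ) g) ≤ ∑ g ∈ F, φ τ (c (q τ) g) :=
      Finset.single_le_sum (f := fun g => φ τ (c (q τ) g)) (fun g _ => (hφ τ hτ).2.2.1 _) hg
    have h6 : ∑ g ∈ F, φ τ (c (q τ) g) ≤ ∑ τ ∈ s, ∑ g ∈ F, φ τ (c (q τ) g) :=
      Finset.single_le_sum (f := fun τ => ∑ g ∈ F, φ τ (c (q τ) g)) hnn hτ
    rw [hC]
    linarith
  have hfin := j5_compact s ℓ hneg (1 - Real.log (δ / C))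
  refine (((hfin.prod F.finite_toSet).image
    fun p : (Fin r → ℤ) × D => e (Multiplicative.ofAdd p.1) * p.2)).subset fun d hd => ?_
  obtain ⟨ν, g, hg, hνg⟩ := hdec d
  refine ⟨(ν.toAdd, g), ⟨fun τ hτ => ?_, hg⟩, hνg.symm⟩
  have h5 : δ ≤ Real.exp (∑ j, (ν.toAdd j : ℝ) * ℓ τ j) * C := by
    have h6 := hd τ hτ
    rw [hνg, (hφ τ hτ).2.2.2 ν g] at h6
    exact h6.trans (mul_le_mul_of_nonneg_left (hCle τ hτ g hg) (Real.exp_nonneg _))
  have h6 : Real.log (δ / C) ≤ ∑ j, (ν.toAdd j : ℝ) * ℓ τ j := by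
    rw [Real.log_le_iff_le_exp (div_pos hδ hC0), div_le_iff₀ hC0]
    exact h5
  show -(1 - Real.log (δ / C)) < ∑ j, (ν.toAdd j : ℝ) * ℓ τ j
  linarith

end Pool.Agent.LibNW45
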