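import Mathlib
import Pool.Agent.LibNW45.J5

set_option autoImplicit false

/-! A finite set of cosets on which every `d ≠ 1` acts nontrivially. -/

namespace Pool.Agent.LibNW45

open Pool.Agent.LibNM Pool.Agent.LibNV Pool.Agent.LibND

theorem exists_block {D M Q : Type} [Group D] [AddCommGroup M] (β : D →* AddMonoid.End M)
    (D₀ : Subgroup D) (hM : FRS β D₀) [Nontrivial M] [Nonempty Q] (c : Q → D →* D)
    (hc : ∀ d : D, (∀ q m, β (c q d) m = m) → d = 1) :
    ∃ S : Finset Q, ∀ d : D, (∀ q ∈ S, ∀ m, β (c q d) m = m) → d = 1 := by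
  classical
  obtain ⟨V, _, ι, R, _, _, _, lam, hfinR, hred, hfinV, hfaith, hι, hs, hact⟩ := frs_ring β D₀ hM
  have hntR : Nontrivial R := by
    by_contra hcon
    rw [not_nontrivial_iff_subsingleton] at hcon
    obtain ⟨m, hm⟩ := exists_ne (0 : M)
    apply hm
    apply hι
    rw [map_zero, ← one_smul R (ι m), Subsingleton.elim (1 : R) 0, zero_smul]
  obtain ⟨r, e, F, he, hdec, hcD⟩ := frs_lattice D₀ hM.fg hM.fin hM.comm
  obtain ⟨h, hh⟩ : ∃ h : Q → Zd r →* Rˣ, ∀ q ν m,
      ι (β (c q (e ν)) m) = ((h q ν : Rˣ) : R) • ι m := by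
    refine ⟨fun q => lam.comp (((c q).comp e).codRestrict D₀ (hcD (c q))), fun q ν m => ?_⟩
    exact hact ⟨c q (e ν), hcD (c q) ν⟩ m
  -- the kernel of `h q`
  have hker : ∀ (q : Q) (ν : Zd r), (∀ m, β (c q (e ν)) m = m) → h q ν = 1 := by
    intro q ν hν
    apply Units.ext
    rw [Units.val_one]
    have h1 : ((h q ν : Rˣ) : R) - 1 = 0 := by
      apply hfaith
      intro x
      obtain ⟨n, hn, m, hm⟩ := hs x
      have h2 : n • ((((h q ν : Rˣ) : R) - 1) • x) = 0 := by
        rw [← smul_comm, hm, sub_smul, ← hh, hν, one_smul, sub_self]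
      have h3 : ∀ y : V, n • y = 0 → y = 0 := by
        intro y hy
        have h4 : ((n : ℚ) • (algebraMap ℚ R 1 : R)) • y = 0 := by
          have h5 : ((n : ℚ) • (algebraMap ℚ R 1 : R)) = (n : R) := by
            rw [map_one, Algebra.smul_def, mul_one, map_intCast]
          rw [h5, Int.cast_smul_eq_zsmul, hy]
        have h6 : ((n : ℚ)⁻¹ • (1 : R)) • (((n : ℚ) • (algebraMap ℚ R 1 : R)) • y) = y := by
          rw [smul_smul, map_one, smul_mul_smul_comm, mul_one,
            inv_mul_cancel₀ (by exact_mod_cast hn : (n : ℚ) ≠ 0), one_smul, one_smul]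
        rw [← h6, h4, smul_zero]
      exact h3 _ h2
    exact sub_eq_zero.1 h1
  obtain ⟨W, hW, htor⟩ := torsion_bound R
  -- the spaces of relations
  let U : Finset Q → Submodule ℚ (Fin r → ℚ) := fun S =>
    { carrier := {v | ∃ N : ℤ, N ≠ 0 ∧ ∃ n : Fin r → ℤ, (∀ j, (n j : ℚ) = N * v j) ∧
        ∀ q ∈ S, h q (Multiplicative.ofAdd n) ^ W = 1}
      zero_mem' := ⟨1, one_ne_zero, 0, fun j => by simp, fun q _ => by
        have h1 : Multiplicative.ofAdd (0 : Fin r → ℤ) = 1 := rfl
        rw [h1, map_one, one_pow]⟩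
      add_mem' := by
        rintro v w ⟨N, hN, n, hn, hn'⟩ ⟨N', hN', n', hn1, hn2⟩
        refine ⟨N * N', mul_ne_zero hN hN', fun j => N' * n j + N * n' j, fun j => ?_,
          fun q hq => ?_⟩
        · push_cast
          rw [hn j, hn1 j, Pi.add_apply]
          ring
        · have h1 : (Multiplicative.ofAdd fun j => N' * n j + N * n' j) =
              (Multiplicative.ofAdd n) ^ N' * (Multiplicative.ofAdd n') ^ N := by
            apply Multiplicative.toAdd.injective
            rw [toAdd_mul, toAdd_zpow, toAdd_zpow]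
            funext j
            simp
          rw [h1, map_mul, map_zpow, map_zpow, mul_pow, ← zpow_natCast, ← zpow_natCast, ← zpow_mul,
            ← zpow_mul, mul_comm N', mul_comm N, zpow_mul, zpow_mul, zpow_natCast, zpow_natCast,
            hn' q hq, hn2 q hq, one_zpow, one_zpow, one_mul]
      smul_mem' := by
        rintro a v ⟨N, hN, n, hn, hn'⟩
        refine ⟨N * a.den, mul_ne_zero hN (by exact_mod_cast a.den_ne_zero),
          fun j => a.num * n j, fun j => ?_, fun q hq => ?_⟩
        · push_cast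
          rw [hn j, Pi.smul_apply, smul_eq_mul]
          have h2 : (a.den : ℚ) * a = a.num := by
            rw [mul_comm]
            exact Rat.mul_den_eq_num _
          rw [← h2]
          ring
        · have h1 : (Multiplicative.ofAdd fun j => a.num * n j) =
              (Multiplicative.ofAdd n) ^ a.num := by
            apply Multiplicative.toAdd.injective
            rw [toAdd_zpow]
            funext j
            simp
          rw [h1, map_zpow, ← zpow_natCast, ← zpow_mul, mul_comm a.num, zpow_mul, zpow_natCast,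
            hn' q hq, one_zpow] }
  have hU : ∀ S v, v ∈ U S ↔ ∃ N : ℤ, N ≠ 0 ∧ ∃ n : Fin r → ℤ, (∀ j, (n j : ℚ) = N * v j) ∧
      ∀ q ∈ S, h q (Multiplicative.ofAdd n) ^ W = 1 := fun S v => Iff.rfl
  have hmono : ∀ S q, U (insert q S) ≤ U S := by
    rintro S q v ⟨N, hN, n, hn, hn'⟩
    exact ⟨N, hN, n, hn, fun q' hq' => hn' q' (Finset.mem_insert_of_mem hq')⟩
  have hint : ∀ (S : Finset Q) (n : Fin r → ℤ), (fun j => (n j : ℚ)) ∈ U S →
      ∀ q ∈ S, h q (Multiplicative.ofAdd n) ^ W = 1 := by
    rintro S n ⟨N, hN, n', hn', hn2⟩ q hq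
    have h1 : n' = fun j => N * n j := by
      funext j
      have h2 : ((n' j : ℤ) : ℚ) = ((N * n j : ℤ) : ℚ) := by
        push_cast
        exact hn' j
      exact_mod_cast h2
    have h2 : Multiplicative.ofAdd n' = (Multiplicative.ofAdd n) ^ N := by
      rw [h1]
      apply Multiplicative.toAdd.injective
      rw [toAdd_zpow]
      funext j
      simp
    have h3 := hn2 q hq
    rw [h2, map_zpow] at h3
    have h4 : (h q (Multiplicative.ofAdd n)) ^ (N * W : ℤ) = 1 := by
      rw [zpow_mul, zpow_natCast]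
      exact h3
    have h5 : (h q (Multiplicative.ofAdd n)) ^ (N.natAbs * W) = 1 := by
      rcases Int.natAbs_eq N with h6 | h6
      · rw [h6] at h4
        have h7 : (((N.natAbs : ℕ) : ℤ) * (W : ℤ)) = ((N.natAbs * W : ℕ) : ℤ) := by push_cast; ring
        rw [h7, zpow_natCast] at h4
        exact h4
      · rw [h6] at h4
        have h7 : (-((N.natAbs : ℕ) : ℤ) * (W : ℤ)) = -((N.natAbs * W : ℕ) : ℤ) := by
          push_cast
          ring
        rw [h7, zpow_neg, inv_eq_one, zpow_natCast] at h4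
        exact h4
    exact htor _ _ (Nat.mul_pos (Int.natAbs_pos.2 hN) hW) h5
  obtain ⟨_, ⟨S₀, rfl⟩, hmin⟩ := IsArtinian.set_has_minimal (Set.range U) ⟨_, ⟨∅, rfl⟩⟩
  -- the minimal space is zero
  have hzero : ∀ n : Fin r → ℤ, (∀ q ∈ S₀, h q (Multiplicative.ofAdd n) = 1) → n = 0 := by
    intro n hn
    by_contra hn0
    have h1 : e (Multiplicative.ofAdd n ^ W) ≠ 1 := by
      intro h2
      have h3 : Multiplicative.ofAdd n ^ W = 1 := he (by rw [h2, map_one])
      have h4 := congrArg Multiplicative.toAdd h3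
      rw [toAdd_pow, toAdd_ofAdd, toAdd_one] at h4
      apply hn0
      funext j
      have h5 := congrFun h4 j
      simp only [Pi.smul_apply, nsmul_eq_mul, Pi.zero_apply] at h5
      rcases mul_eq_zero.1 h5 with h6 | h6
      · exact absurd (by exact_mod_cast h6) hW.ne'
      · exact h6
    obtain ⟨q, hq⟩ : ∃ q, ¬ ∀ m, β (c q (e (Multiplicative.ofAdd n ^ W))) m = m := by
      by_contra hcon
      push Not at hcon
      exact h1 (hc _ hcon)
    have h2 : (fun j => (n j : ℚ)) ∈ U S₀ :=
      ⟨1, one_ne_zero, n, fun j => by simp, fun q hq => by rw [hn q hq, one_pow]⟩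
    have h3 : (fun j => (n j : ℚ)) ∉ U (insert q S₀) := by
      intro h4
      have h5 := hint _ n h4 q (Finset.mem_insert_self _ _)
      apply hq
      intro m
      apply hι
      rw [hh, map_pow, h5, Units.val_one, one_smul]
    exact hmin _ ⟨insert q S₀, rfl⟩ (lt_of_le_of_ne (hmono S₀ q) fun h4 => h3 (h4 ▸ h2))
  -- the intersection of the kernels is finite
  have hfin : {d : D | ∀ q ∈ S₀, ∀ m, β (c q d) m = m}.Finite := by
    choose ν g hg hνg using hdec
    refine Set.Finite.of_injOn (f := g) (t := (F : Set D)) (fun d _ => hg d) ?_ F.finite_toSet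
    intro d hd d' hd' hgg
    have h1 : d * d'⁻¹ = e (ν d * (ν d')⁻¹) := by
      rw [map_mul, map_inv]
      conv_lhs => rw [hνg d, hνg d', hgg, mul_inv_rev, mul_assoc, mul_inv_cancel_left]
    have h2 : ∀ q ∈ S₀, ∀ m, β (c q (d * d'⁻¹)) m = m := by
      intro q hq m
      rw [map_mul, map_mul]
      show β (c q d) (β (c q d'⁻¹) m) = m
      rw [hd q hq]
      have h3 : β (c q d'⁻¹) (β (c q d') m) = m := by
        have h4 : β (c q d'⁻¹) (β (c q d') m) = (β (c q d'⁻¹) * β (c q d')) m := rfl
        rw [h4, ← map_mul, ← map_mul, inv_mul_cancel, map_one, map_one]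
        rfl
      rw [hd' q hq] at h3
      exact h3
    have h3 : (ν d * (ν d')⁻¹).toAdd = 0 := by
      apply hzero
      intro q hq
      apply hker
      rw [ofAdd_toAdd, ← h1]
      exact h2 q hq
    have h4 : ν d * (ν d')⁻¹ = 1 := Multiplicative.toAdd.injective h3
    rw [h4, map_one] at h1
    exact mul_inv_eq_one.1 h1
  have hex : ∀ d : D, ∃ q : Q, d ≠ 1 → ¬ ∀ m, β (c q d) m = m := by
    intro d
    by_cases hd : d = 1
    · exact ⟨Classical.arbitrary Q, fun h' => absurd hd h'⟩
    · by_contra hcon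
      push Not at hcon
      exact hd (hc d fun q => (hcon q).2)
  choose qq hqq using hex
  refine ⟨S₀ ∪ hfin.toFinset.image qq, fun d hd => ?_⟩
  by_contra hd1
  have h1 : d ∈ hfin.toFinset := by
    rw [Set.Finite.mem_toFinset]
    intro q hq
    exact hd q (Finset.mem_union_left _ hq)
  exact hqq d hd1 (hd _ (Finset.mem_union_right _ (Finset.mem_image_of_mem _ h1)))

end Pool.Agent.LibNW45
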