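import Mathlib
import Pool.Agent.LibNW45.I4
import Pool.Agent.LibNW45.J6
import Pool.Agent.LibNM.N08

set_option autoImplicit false

/-! Modules induced from modules of finite rank over a normal subgroup of infinite index. -/

namespace Pool.Agent.LibNW45

open Filter Topology Pool.Agent.LibND Pool.Agent.LibNM Pool.Agent.LibNV

universe w

private theorem j7_min {α : Type*} (S : Finset α) (g : α → ℝ) (hg : ∀ a ∈ S, 0 < g a) :
    ∃ c : ℝ, 0 < c ∧ ∀ a ∈ S, c ≤ g a := by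
  classical
  induction S using Finset.induction_on with
  | empty => exact ⟨1, one_pos, fun a ha => absurd ha (Finset.notMem_empty a)⟩
  | insert b S hb ih =>
    obtain ⟨c, hc, hcS⟩ := ih fun a ha => hg a (Finset.mem_insert_of_mem ha)
    refine ⟨min c (g b), lt_min hc (hg b (Finset.mem_insert_self _ _)), fun a ha => ?_⟩
    rcases Finset.mem_insert.1 ha with rfl | ha
    · exact min_le_right _ _
    · exact (min_le_left _ _).trans (hcS a ha)

private theorem j7_eta {M : Type} [AddCommGroup M]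
    (htf : ∀ (n : ℤ) (m : M), n ≠ 0 → n • m = 0 → m = 0) (Z : Finset M) :
    ∃ η : M →+ ℝ, ∀ w ∈ Z, w ≠ 0 → η w ≠ 0 := by
  classical
  induction Z using Finset.induction_on with
  | empty => exact ⟨0, fun a ha => absurd ha (Finset.notMem_empty a)⟩
  | insert w Z _ ih =>
    obtain ⟨η, hη⟩ := ih
    by_cases hw : w = 0 ∨ η w ≠ 0
    · refine ⟨η, fun z hz hz0 => ?_⟩
      rcases Finset.mem_insert.1 hz with rfl | hz
      · rcases hw with h | h
        · exact absurd h hz0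
        · exact h
      · exact hη z hz hz0
    · push Not at hw
      obtain ⟨hw0, hηw⟩ := hw
      obtain ⟨η', -, hη'⟩ := ext_real (⊥ : AddSubgroup M) (fun _ : Unit => w) (by
        intro c hc
        rw [AddSubgroup.mem_bot] at hc
        have h2 : (c.sum fun i z => z • w) = c () • w := by
          rw [Finsupp.sum_fintype _ _ (by intro i; simp)]
          simp
        rw [h2] at hc
        ext
        by_contra hne
        exact hw0 (htf _ _ hne hc)) (fun _ => (1 : ℝ))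
      obtain ⟨t, ht⟩ := Infinite.exists_notMem_finset
        (insert (0 : ℝ) (Z.image fun z => - η z / η' z))
      rw [Finset.mem_insert, not_or] at ht
      refine ⟨η + (AddMonoidHom.mulLeft t).comp η', fun z hz hz0 => ?_⟩
      have hval : ∀ z, (η + (AddMonoidHom.mulLeft t).comp η') z = η z + t * η' z := fun z => rfl
      rw [hval]
      rcases Finset.mem_insert.1 hz with rfl | hz
      · rw [hηw, hη' (), mul_one, zero_add]
        exact ht.1
      · intro h
        by_cases h' : η' z = 0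
        · rw [h', mul_zero, add_zero] at h
          exact hη z hz hz0 h
        · apply ht.2
          refine Finset.mem_image.2 ⟨z, hz, ?_⟩
          rw [div_eq_iff h']
          linarith

/-- a character which is nontrivial on finitely many nonzero elements -/
theorem generic_M {M : Type} [AddCommGroup M]
    (htf : ∀ (n : ℤ) (m : M), n ≠ 0 → n • m = 0 → m = 0) (Z : Finset M) :
    ∃ g : AddChar M Circle, ∀ w ∈ Z, w ≠ 0 → g w ≠ 1 := by
  classical
  obtain ⟨η, hη⟩ := j7_eta htf Z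
  obtain ⟨ψ, hψ⟩ := generic_char (Z.image fun z => ((η z : ℝ) : ℂ)) (Finset.countable_toSet _)
  refine ⟨ψ.compAddMonoidHom (Complex.ofRealHom.toAddMonoidHom.comp η), fun w hw hw0 => ?_⟩
  exact hψ _ (Finset.mem_coe.2 (Finset.mem_image_of_mem _ hw))
    (fun h => hη w hw hw0 (Complex.ofReal_eq_zero.1 h))

/-- the character of a test -/
private theorem j7_char {D M : Type} [Group D] [AddCommGroup M] (β : D →* AddMonoid.End M)
    (φ : D → ℝ) (h : IsMT β φ) :
    ∃ (ch : AddChar M Circle) (m : M) (ε δ : ℝ), 0 < ε ∧ 0 < δ ∧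
      ∀ d, φ d < δ → ε ≤ dist (ch (β d m)) (ch m) := by
  obtain ⟨K, iK, hgood, hchar, f, m, hfm, hφ⟩ := h
  obtain ⟨ψ, hψc, hψ1⟩ := hgood 1 one_ne_zero
  have hε : 0 < dist (ψ 1) 1 := dist_pos.2 hψ1
  obtain ⟨δ, hδ, hδ'⟩ := Metric.tendsto_nhds_nhds.1 hψc (dist (ψ 1) 1 / 2) (half_pos hε)
  refine ⟨ψ.compAddMonoidHom f, m, dist (ψ 1) 1 / 2, δ, half_pos hε, hδ, fun d hd => ?_⟩
  have h1 : ψ.compAddMonoidHom f m = ψ 1 := by
    show ψ (f m) = ψ 1
    rw [hfm]
  have h2 : ψ.compAddMonoidHom f (β d m) = ψ (f (β d m)) := rfl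
  rw [h1, h2]
  have h3 : dist (f (β d m)) 0 < δ := by
    rw [dist_zero_right, ← hφ]
    exact hd
  have h4 := hδ' h3
  have h5 := dist_triangle (ψ 1) (ψ (f (β d m))) 1
  rw [dist_comm (ψ 1) (ψ (f (β d m)))] at h5
  linarith

theorem frank_main {G G₀ Γ D A M : Type} [Group G] [Group G₀] [Group Γ] [Group D]
    [AddCommGroup A] [AddCommGroup M] (p : G →* G₀) (hp : Function.Surjective p)
    (α : Γ →* AddMonoid.End A) (j : Multiplicative A →* G₀) (π : G₀ →* Γ) (hext : IsExt α j π)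
    (δ : D →* Γ) (hδ : Function.Injective δ) (hnorm : δ.range.Normal)
    (hinf : Infinite (Γ ⧸ δ.range)) (β : D →* AddMonoid.End M) (D₀ : Subgroup D)
    (hM : FRS β D₀) (hnt : Nontrivial M) (i : M →+ A)
    (hi : ∀ d m, i (β d m) = α (δ d) (i m)) (hind : Indep α δ i)
    (hf : ∀ d : D, (∀ (u : Γ) (m : M), α (δ d) (α u (i m)) = α u (i m)) → d = 1)
    {C : Type w} [CStarAlgebra C] [PartialOrder C] [StarOrderedRing C] (U : G →* unitary C)
    (hC : IsGroupCStar G C U) (n : ℕ) : ¬ NucDimLE C n := by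
  classical
  have hinj := Ph_inj α δ i hind
  obtain ⟨m₀, hm₀⟩ := exists_ne (0 : M)
  -- conjugation
  have hcj : ∀ (u : Γ) (d : D), ∃ d' : D, δ d' = u⁻¹ * δ d * u := by
    intro u d
    have h1 := hnorm.conj_mem (δ d) ⟨d, rfl⟩ u⁻¹
    rw [inv_inv] at h1
    exact h1
  choose cj hcj using hcj
  let cH : Γ → D →* D := fun u =>
    { toFun := cj u
      map_one' := by
        apply hδ
        rw [hcj, map_one]
        group
      map_mul' := by
        intro x y
        apply hδ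
        rw [hcj, map_mul, map_mul, hcj, hcj]
        group }
  have hcH : ∀ u d, δ (cH u d) = u⁻¹ * δ d * u := hcj
  obtain ⟨c, hc⟩ : ∃ c : (Γ ⧸ δ.range) → D →* D, ∀ q d,
      δ d * rp δ q = rp δ q * δ (c q d) := by
    refine ⟨fun q => cH (rp δ q), fun q d => ?_⟩
    rw [hcH]
    group
  have hfix : ∀ (d : D) (q : Γ ⧸ δ.range), δ d • q = q := by
    intro d q
    have h1 : δ d • q = ((δ d * rp δ q : Γ) : Γ ⧸ δ.range) := by
      conv_lhs => rw [← rp_mk δ q]
      rfl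
    rw [h1, hc]
    have h2 : ((rp δ q * δ (c q d) : Γ) : Γ ⧸ δ.range) = ((rp δ q : Γ) : Γ ⧸ δ.range) := by
      rw [eq_comm, QuotientGroup.eq, inv_mul_cancel_left]
      exact ⟨_, rfl⟩
    rw [h2, rp_mk]
  have hdu : ∀ u : Γ, ∃ d : D, u = rp δ ((u : Γ) : Γ ⧸ δ.range) * δ d := by
    intro u
    have h1 : ((rp δ ((u : Γ) : Γ ⧸ δ.range) : Γ) : Γ ⧸ δ.range) = ((u : Γ) : Γ ⧸ δ.range) :=
      rp_mk δ _
    rw [QuotientGroup.eq] at h1
    obtain ⟨d, hd⟩ := h1
    exact ⟨d, by rw [hd, mul_inv_cancel_left]⟩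
  have hcfaith : ∀ d : D, (∀ q m, β (c q d) m = m) → d = 1 := by
    intro d hd
    apply hf
    intro u m
    obtain ⟨d₁, hd₁⟩ := hdu u
    have h1 : α (δ d) (α u (i m)) = α (δ d * u) (i m) := by
      rw [map_mul]
      rfl
    have h2 : δ d * u = rp δ ((u : Γ) : Γ ⧸ δ.range) * δ (c ((u : Γ) : Γ ⧸ δ.range) d * d₁) := by
      conv_lhs => rw [hd₁]
      rw [← mul_assoc, hc, map_mul, mul_assoc]
    have h3 : α u (i m) = α (rp δ ((u : Γ) : Γ ⧸ δ.range)) (i (β d₁ m)) := by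
      conv_lhs => rw [hd₁, map_mul]
      show α (rp δ ((u : Γ) : Γ ⧸ δ.range)) (α (δ d₁) (i m)) = _
      rw [hi]
    rw [h1, h2, h3, map_mul]
    show α (rp δ ((u : Γ) : Γ ⧸ δ.range)) (α (δ (c ((u : Γ) : Γ ⧸ δ.range) d * d₁)) (i m)) = _
    rw [← hi, map_mul]
    show α (rp δ ((u : Γ) : Γ ⧸ δ.range))
      (i (β (c ((u : Γ) : Γ ⧸ δ.range) d) (β d₁ m))) = _
    rw [hd]
  have hneQ : Nonempty (Γ ⧸ δ.range) := ⟨((1 : Γ) : Γ ⧸ δ.range)⟩
  obtain ⟨S₀, hS₀⟩ := exists_block β D₀ hM c hcfaith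
  -- translates of the block
  have htr : ∀ (γ : Γ) (d : D), (∀ q ∈ S₀.image (fun q => γ • q), ∀ m, β (c q d) m = m) →
      d = 1 := by
    intro γ d hd
    have h1 : cH γ d = 1 := by
      apply hS₀
      intro q hq m
      obtain ⟨d₁, hd₁⟩ := rp_smul δ γ q
      have h2 : c (γ • q) d = d₁ * c q (cH γ d) * d₁⁻¹ := by
        apply hδ
        have h3 : rp δ (γ • q) = γ * rp δ q * (δ d₁)⁻¹ := by
          rw [hd₁, mul_inv_cancel_right]
        have h4 : δ (c (γ • q) d) = (rp δ (γ • q))⁻¹ * (δ d * rp δ (γ • q)) := by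
          rw [hc, inv_mul_cancel_left]
        have h5 : δ (c q (cH γ d)) = (rp δ q)⁻¹ * (δ (cH γ d) * rp δ q) := by
          rw [hc, inv_mul_cancel_left]
        rw [h4, h3, map_mul, map_mul, map_inv, h5, hcH]
        group
      have h3 : c q (cH γ d) = d₁⁻¹ * c (γ • q) d * d₁ := by
        rw [h2]
        group
      rw [h3, map_mul, map_mul]
      show β d₁⁻¹ (β (c (γ • q) d) (β d₁ m)) = m
      rw [hd (γ • q) (Finset.mem_image_of_mem _ hq)]
      have h4 : β d₁⁻¹ (β d₁ m) = (β d₁⁻¹ * β d₁) m := rfl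
      rw [h4, ← map_mul, inv_mul_cancel, map_one]
      rfl
    have h2 : δ d = 1 := by
      have h3 := hcH γ d
      rw [h1, map_one] at h3
      have h4 : δ d = γ * (γ⁻¹ * δ d * γ) * γ⁻¹ := by group
      rw [h4, ← h3]
      group
    exact hδ (by rw [h2, map_one])
  have hsm : ∀ (γ : Γ) (q : Γ ⧸ δ.range), γ • q = ((γ : Γ) : Γ ⧸ δ.range) * q := by
    intro γ q
    obtain ⟨x, rfl⟩ := QuotientGroup.mk_surjective q
    rfl
  -- disjoint translates
  obtain ⟨f, -, hfd⟩ := exists_seq_of_forall_finset_exists (fun _ : Γ => True)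
    (fun x y => Disjoint (S₀.image fun q => x • q) (S₀.image fun q => y • q)) (by
      intro s _
      obtain ⟨y', hy'⟩ := Infinite.exists_notMem_finset
        ((s ×ˢ (S₀ ×ˢ S₀)).image fun z : Γ × (Γ ⧸ δ.range) × (Γ ⧸ δ.range) =>
          ((z.1 : Γ) : Γ ⧸ δ.range) * z.2.1 * z.2.2⁻¹)
      obtain ⟨y, rfl⟩ := QuotientGroup.mk_surjective y'
      refine ⟨y, trivial, fun x hx => ?_⟩
      rw [Finset.disjoint_left]
      intro z hz hz'
      obtain ⟨a, ha, rfl⟩ := Finset.mem_image.1 hz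
      obtain ⟨b, hb, hab⟩ := Finset.mem_image.1 hz'
      apply hy'
      refine Finset.mem_image.2 ⟨(x, a, b), Finset.mem_product.2 ⟨hx, Finset.mem_product.2
        ⟨ha, hb⟩⟩, ?_⟩
      show ((x : Γ) : Γ ⧸ δ.range) * a * b⁻¹ = (y : Γ ⧸ δ.range)
      rw [hsm, hsm] at hab
      rw [← hab, mul_inv_cancel_right])
  obtain ⟨S, hS⟩ : ∃ S : ℤ → Finset (Γ ⧸ δ.range),
      ∀ τ, S τ = S₀.image fun q => f (Equiv.intEquivNat τ) • q := ⟨_, fun τ => rfl⟩
  have hSd : ∀ τ τ' x, x ∈ S τ → x ∈ S τ' → τ = τ' := by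
    intro τ τ' x hx hx'
    by_contra hne
    have h1 : Equiv.intEquivNat τ ≠ Equiv.intEquivNat τ' := fun h =>
      hne (Equiv.intEquivNat.injective h)
    rw [hS] at hx hx'
    rcases lt_or_gt_of_ne h1 with h2 | h2
    · exact (Finset.disjoint_left.1 (hfd _ _ h2)) hx hx'
    · exact (Finset.disjoint_left.1 (hfd _ _ h2)) hx' hx
  have hSf : ∀ τ, ∀ d : D, (∀ q ∈ S τ, ∀ m, β (c q d) m = m) → d = 1 := by
    intro τ d hd
    rw [hS] at hd
    exact htr _ d hd
  -- the tests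
  obtain ⟨s, q, φ, hqφ, hfin⟩ := tests_frs β D₀ hM c S hSf
  have hqinj : ∀ τ ∈ s, ∀ τ' ∈ s, q τ = q τ' → τ = τ' := by
    intro τ hτ τ' hτ' h
    exact hSd τ τ' (q τ) (hqφ τ hτ).1 (h ▸ (hqφ τ' hτ').1)
  have hch : ∀ τ : ℤ, ∃ (ch : AddChar M Circle) (m : M) (ε δ' : ℝ), 0 < ε ∧ 0 < δ' ∧
      (τ ∈ s → ∀ d, φ τ d < δ' → ε ≤ dist (ch (β d m)) (ch m)) := by
    intro τ
    by_cases hτ : τ ∈ s
    · obtain ⟨ch, m, ε, δ', h1, h2, h3⟩ := j7_char β (φ τ) (hqφ τ hτ).2
      exact ⟨ch, m, ε, δ', h1, h2, fun _ => h3⟩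
    · exact ⟨1, 0, 1, 1, one_pos, one_pos, fun h => absurd h hτ⟩
  choose ch mm ε₁ δ₁ hε₁ hδ₁ hch using hch
  obtain ⟨δ₀, hδ₀, hδ₀le⟩ := j7_min s δ₁ fun τ _ => hδ₁ τ
  obtain ⟨Lft, hLft⟩ : ∃ Lft : Finset D, ∀ d, d ∈ Lft ↔ ∀ τ ∈ s, δ₀ ≤ φ τ (c (q τ) d) := by
    refine ⟨(hfin δ₀ hδ₀).toFinset, fun d => ?_⟩
    rw [Set.Finite.mem_toFinset]
    rfl
  -- the extra block
  obtain ⟨τ₁, hτ₁⟩ := Infinite.exists_notMem_finset s
  have hL : ∀ d : D, ∃ (x : Γ ⧸ δ.range) (m : M), d ≠ 1 → x ∈ S τ₁ ∧ β (c x d) m ≠ m := by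
    intro d
    by_cases hd : d = 1
    · exact ⟨((1 : Γ) : Γ ⧸ δ.range), 0, fun h => absurd hd h⟩
    · by_contra hcon
      push Not at hcon
      exact hd (hSf τ₁ d fun x hx m => (hcon x m).2 hx)
  choose qL mL hL using hL
  obtain ⟨g, hg⟩ := generic_M hM.tf
    (insert m₀ (Lft.image fun d => β (c (qL d) d) (mL d) - mL d))
  have hgm₀ : g m₀ ≠ 1 := hg m₀ (Finset.mem_insert_self _ _) hm₀
  have hgL : ∀ d ∈ Lft, d ≠ 1 → g (β (c (qL d) d) (mL d)) ≠ g (mL d) := by
    intro d hd hd1 h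
    have h1 : g (β (c (qL d) d) (mL d) - mL d) ≠ 1 :=
      hg _ (Finset.mem_insert_of_mem (Finset.mem_image_of_mem _ hd))
        (sub_ne_zero.2 (hL d hd1).2)
    apply h1
    rw [AddChar.map_sub_eq_div, h, div_self']
  -- cosets
  obtain ⟨W₀, hW₀⟩ : ∃ W₀ : Finset (Γ ⧸ δ.range), W₀ = s.image q ∪ S τ₁ := ⟨_, rfl⟩
  obtain ⟨k, hk⟩ : ∃ k, k = n + 1 := ⟨_, rfl⟩
  obtain ⟨t, ht, htW₀⟩ : ∃ t : Fin k → Γ ⧸ δ.range, Function.Injective t ∧ ∀ l, t l ∉ W₀ := by
    have h1 : ((W₀ : Set (Γ ⧸ δ.range))ᶜ).Infinite := W₀.finite_toSet.infinite_compl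
    let e := h1.natEmbedding
    refine ⟨fun l => e l, fun a b h => Fin.ext (e.injective (Subtype.ext h)), fun l h => ?_⟩
    exact (e l).2 h
  obtain ⟨T, hT⟩ : ∃ T : Finset (Γ ⧸ δ.range), T = Finset.univ.image t := ⟨_, rfl⟩
  have hTcard : T.card ≤ k := by
    rw [hT]
    exact Finset.card_image_le.trans (by simp)
  have hTW₀ : ∀ x ∈ T, x ∉ W₀ := by
    intro x hx
    rw [hT] at hx
    obtain ⟨l, -, rfl⟩ := Finset.mem_image.1 hx
    exact htW₀ l
  obtain ⟨W, hWcard, hWT, hW⟩ : ∃ W : Finset (Γ ⧸ δ.range), W.card = W₀.card + k + 3 ∧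
      (∀ x ∈ W, x ∉ W₀ ∧ x ∉ T) ∧
      ∀ y : Γ ⧸ δ.range, y ≠ 1 → (W.filter fun x => y * x ∈ W).card ≤ 2 := by
    have hbot : Infinite ((Γ ⧸ δ.range) ⧸ (⊥ : Subgroup (Γ ⧸ δ.range))) :=
      (QuotientGroup.quotientBot (G := Γ ⧸ δ.range)).symm.toEquiv.infinite_iff.1 hinf
    obtain ⟨W, h1, h2, -, h3⟩ := anchors (⊥ : Subgroup (Γ ⧸ δ.range))
      ((W₀ ∪ T).image fun x => ((x : Γ ⧸ δ.range) : (Γ ⧸ δ.range) ⧸ (⊥ : Subgroup (Γ ⧸ δ.range))))
      (W₀.card + k + 3)
    refine ⟨W, h1, fun x hx => ⟨fun h => ?_, fun h => ?_⟩, fun y hy => ?_⟩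
    · exact h2 x hx (Finset.mem_image_of_mem _ (Finset.mem_union_left _ h))
    · exact h2 x hx (Finset.mem_image_of_mem _ (Finset.mem_union_right _ h))
    · exact h3 y hy
  -- the characters
  let Ψ : (Γ ⧸ δ.range) → AddChar M Circle := fun x =>
    if h : ∃ τ ∈ s, q τ = x then ch h.choose else g
  have hΨ1 : ∀ τ ∈ s, Ψ (q τ) = ch τ := by
    intro τ hτ
    have h : ∃ τ' ∈ s, q τ' = q τ := ⟨τ, hτ, rfl⟩
    have h1 : Ψ (q τ) = ch h.choose := dif_pos h
    rw [h1, hqinj _ h.choose_spec.1 _ hτ h.choose_spec.2]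
  have hΨ2 : ∀ x, (∀ τ ∈ s, q τ ≠ x) → Ψ x = g := by
    intro x hx
    refine dif_neg ?_
    rintro ⟨τ, hτ, h⟩
    exact hx τ hτ h
  have hΨB : ∀ x ∈ S τ₁, Ψ x = g := by
    intro x hx
    apply hΨ2
    rintro τ hτ rfl
    exact hτ₁ (hSd τ τ₁ _ (hqφ τ hτ).1 hx ▸ hτ)
  have hΨW : ∀ x ∈ W, Ψ x = g := by
    intro x hx
    apply hΨ2
    rintro τ hτ rfl
    apply (hWT _ hx).1
    rw [hW₀]
    exact Finset.mem_union_left _ (Finset.mem_image_of_mem _ hτ)
  let e := AddMonoidHom.ofInjective hinj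
  have he : ∀ v, ((e v : (Ph α δ i).range) : A) = Ph α δ i v := fun v => rfl
  let χ₀ : AddChar ((Γ ⧸ δ.range) →₀ M) Circle :=
    ∏ x ∈ W₀ ∪ W, (Ψ x).compAddMonoidHom (Finsupp.applyAddHom x)
  have hχ₀ : ∀ v, χ₀ v = ∏ x ∈ W₀ ∪ W, Ψ x (v x) := by
    intro v
    show (∏ x ∈ W₀ ∪ W, (Ψ x).compAddMonoidHom (Finsupp.applyAddHom x)) v = _
    rw [AddChar.prod_apply]
    rfl
  obtain ⟨χ, hχ⟩ := ext_circle (Ph α δ i).range (χ₀.compAddMonoidHom e.symm.toAddMonoidHom)
  have hχv : ∀ v, χ (Ph α δ i v) = χ₀ v := by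
    intro v
    rw [← he, hχ]
    simp
  have hval : ∀ x ∈ W₀ ∪ W, ∀ m : M, χ (Ph α δ i (Finsupp.single x m)) = Ψ x m := by
    intro x hx m
    rw [hχv, hχ₀, Finset.prod_eq_single x]
    · rw [Finsupp.single_eq_same]
    · intro y _ hyx
      rw [Finsupp.single_eq_of_ne hyx, AddChar.map_zero_eq_one]
    · intro h
      exact absurd hx h
  have hval1 : ∀ x, x ∉ W₀ ∪ W → ∀ m : M, χ (Ph α δ i (Finsupp.single x m)) = 1 := by
    intro x hx m
    rw [hχv, hχ₀]
    refine Finset.prod_eq_one fun y hy => ?_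
    rw [Finsupp.single_eq_of_ne, AddChar.map_zero_eq_one]
    rintro rfl
    exact hx hy
  have hact : ∀ (γ : Γ) (x : Γ ⧸ δ.range) (m : M), ∃ m' : M,
      α γ (Ph α δ i (Finsupp.single x m)) = Ph α δ i (Finsupp.single (γ • x) m') := by
    intro γ x m
    obtain ⟨d, hd⟩ := rp_smul δ γ x
    refine ⟨β d m, ?_⟩
    rw [Ph_single, Ph_single]
    have h1 : α γ (α (rp δ x) (i m)) = α (γ * rp δ x) (i m) := by
      rw [map_mul]
      rfl
    rw [h1, hd, map_mul]
    show α (rp δ (γ • x)) (α (δ d) (i m)) = α (rp δ (γ • x)) (i (β d m))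
    rw [hi]
  have hactD : ∀ (d : D) (x : Γ ⧸ δ.range) (m : M),
      α (δ d) (Ph α δ i (Finsupp.single x m)) =
        Ph α δ i (Finsupp.single x (β (c x d) m)) := by
    intro d x m
    rw [Ph_single, Ph_single]
    have h1 : α (δ d) (α (rp δ x) (i m)) = α (δ d * rp δ x) (i m) := by
      rw [map_mul]
      rfl
    rw [h1, hc, map_mul]
    show α (rp δ x) (α (δ (c x d)) (i m)) = _
    rw [hi]
  -- the subgroup of the elements without component at `T`
  let B : AddSubgroup A :=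
    { carrier := {x | ∃ v, Ph α δ i v = x ∧ ∀ q ∈ T, v q = 0}
      zero_mem' := ⟨0, map_zero _, fun q _ => rfl⟩
      add_mem' := by
        rintro x y ⟨v, rfl, hv⟩ ⟨v', rfl, hv'⟩
        refine ⟨v + v', map_add _ _ _, fun q hq => ?_⟩
        rw [Finsupp.add_apply, hv q hq, hv' q hq, add_zero]
      neg_mem' := by
        rintro x ⟨v, rfl, hv⟩
        refine ⟨-v, map_neg _ _, fun q hq => ?_⟩
        rw [Finsupp.neg_apply, hv q hq, neg_zero] }
  have hBmem : ∀ x : Γ ⧸ δ.range, x ∉ T → ∀ m : M, Ph α δ i (Finsupp.single x m) ∈ B := by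
    intro x hx m
    refine ⟨Finsupp.single x m, rfl, fun q hq => ?_⟩
    rw [Finsupp.single_eq_of_ne]
    rintro rfl
    exact hx hq
  have hW₀T : ∀ x ∈ W₀, x ∉ T := fun x hx hx' => hTW₀ x hx' hx
  -- the constant
  obtain ⟨ε₂, hε₂, hε₂le⟩ := j7_min s ε₁ fun τ _ => hε₁ τ
  obtain ⟨ε₃, hε₃, hε₃le⟩ := j7_min (Lft.erase 1)
    (fun d => dist (g (β (c (qL d) d) (mL d))) (g (mL d))) (fun d hd =>
      dist_pos.2 (hgL d (Finset.mem_of_mem_erase hd) (Finset.ne_of_mem_erase hd)))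
  have hε₄ : 0 < dist 1 (g m₀) := dist_pos.2 (Ne.symm hgm₀)
  refine moduleCriterion' p hp α j π hext U hC B χ
    (((s.image fun τ => Ph α δ i (Finsupp.single (q τ) (mm τ))) ∪
      (Lft.image fun d => Ph α δ i (Finsupp.single (qL d) (mL d)))) ∪
      (W.image fun x => Ph α δ i (Finsupp.single x m₀)))
    (min (min ε₂ ε₃) (dist 1 (g m₀))) (lt_min (lt_min hε₂ hε₃) hε₄) ?_ k
    (fun l => Ph α δ i (Finsupp.single (t l) m₀)) ?_ n (by omega)
  · intro γ hγ
    by_cases hγr : γ ∈ δ.range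
    · obtain ⟨d, rfl⟩ := hγr
      have hd : d ≠ 1 := by
        rintro rfl
        exact hγ (map_one δ)
      by_cases hdL : d ∈ Lft
      · have hxB := (hL d hd).1
        have hxW₀ : qL d ∈ W₀ := by
          rw [hW₀]
          exact Finset.mem_union_right _ hxB
        refine ⟨Ph α δ i (Finsupp.single (qL d) (mL d)), Finset.mem_union_left _
          (Finset.mem_union_right _ (Finset.mem_image_of_mem _ hdL)), hBmem _ (hW₀T _ hxW₀) _,
          ?_, ?_⟩
        · rw [hactD]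
          exact hBmem _ (hW₀T _ hxW₀) _
        · rw [hactD, hval _ (Finset.mem_union_left _ hxW₀), hval _ (Finset.mem_union_left _ hxW₀),
            hΨB _ hxB]
          exact ((min_le_left _ _).trans (min_le_right _ _)).trans
            (hε₃le d (Finset.mem_erase.2 ⟨hd, hdL⟩))
      · rw [hLft] at hdL
        push Not at hdL
        obtain ⟨τ, hτ, hlt⟩ := hdL
        have hxW₀ : q τ ∈ W₀ := by
          rw [hW₀]
          exact Finset.mem_union_left _ (Finset.mem_image_of_mem _ hτ)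
        refine ⟨Ph α δ i (Finsupp.single (q τ) (mm τ)), Finset.mem_union_left _
          (Finset.mem_union_left _ (Finset.mem_image_of_mem _ hτ)), hBmem _ (hW₀T _ hxW₀) _,
          ?_, ?_⟩
        · rw [hactD]
          exact hBmem _ (hW₀T _ hxW₀) _
        · rw [hactD, hval _ (Finset.mem_union_left _ hxW₀), hval _ (Finset.mem_union_left _ hxW₀),
            hΨ1 τ hτ]
          exact ((min_le_left _ _).trans (min_le_left _ _)).trans ((hε₂le τ hτ).trans
            (hch τ hτ _ (lt_of_lt_of_le hlt (hδ₀le τ hτ))))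
    · have hγ1 : ((γ : Γ) : Γ ⧸ δ.range) ≠ 1 := by
        intro h
        exact hγr ((QuotientGroup.eq_one_iff γ).1 h)
      obtain ⟨x, hxW, hx1, hx2⟩ : ∃ x ∈ W, γ • x ∉ W₀ ∪ W ∧ γ • x ∉ T := by
        by_contra hcon
        push Not at hcon
        have h1 : W ⊆ (W.filter fun x => γ • x ∈ W₀ ∪ T) ∪
            (W.filter fun x => ((γ : Γ) : Γ ⧸ δ.range) * x ∈ W) := by
          intro x hx
          by_cases h2 : γ • x ∈ W₀ ∪ T
          · exact Finset.mem_union_left _ (Finset.mem_filter.2 ⟨hx, h2⟩)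
          · refine Finset.mem_union_right _ (Finset.mem_filter.2 ⟨hx, ?_⟩)
            rw [Finset.mem_union, not_or] at h2
            rw [← hsm]
            by_contra h3
            refine h2.2 (hcon x hx ?_)
            rw [Finset.mem_union, not_or]
            exact ⟨h2.1, h3⟩
        have h2 : (W.filter fun x => γ • x ∈ W₀ ∪ T).card ≤ (W₀ ∪ T).card := by
          refine Finset.card_le_card_of_injOn (fun x => γ • x) ?_ ?_
          · intro x hx
            exact (Finset.mem_filter.1 hx).2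
          · intro a _ b _ hab
            exact MulAction.injective γ hab
        have h3 := (Finset.card_le_card h1).trans (Finset.card_union_le _ _)
        have h4 := hW _ hγ1
        have h5 := Finset.card_union_le W₀ T
        omega
      obtain ⟨m', hm'⟩ := hact γ x m₀
      refine ⟨Ph α δ i (Finsupp.single x m₀), Finset.mem_union_right _
        (Finset.mem_image_of_mem _ hxW), hBmem _ (hWT x hxW).2 _, ?_, ?_⟩
      · rw [hm']
        exact hBmem _ hx2 _
      · rw [hm', hval1 _ hx1, hval _ (Finset.mem_union_right _ hxW), hΨW x hxW]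
        exact min_le_right _ _
  · rintro z ⟨v, hv, hvT⟩
    have h1 : ∑ l, z l • Ph α δ i (Finsupp.single (t l) m₀) =
        Ph α δ i (∑ l, z l • Finsupp.single (t l) m₀) := by
      rw [map_sum]
      refine Finset.sum_congr rfl fun l _ => ?_
      rw [map_zsmul]
    rw [h1] at hv
    have h2 := hinj hv
    funext l
    have h3 : v (t l) = 0 := hvT (t l) (by
      rw [hT]
      exact Finset.mem_image_of_mem t (Finset.mem_univ l))
    rw [h2, Finsupp.finsetSum_apply, Finset.sum_eq_single l] at h3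
    · rw [Finsupp.smul_apply, Finsupp.single_eq_same] at h3
      by_contra hne
      exact hm₀ (hM.tf _ _ hne h3)
    · intro b _ hb
      rw [Finsupp.smul_apply, Finsupp.single_eq_of_ne (fun h => hb (ht h).symm), smul_zero]
    · intro h
      exact absurd (Finset.mem_univ l) h

end Pool.Agent.LibNW45
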