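import Mathlib
import Pool.Agent.LibNW45.Defs

set_option autoImplicit false

/-! Groups with a subgroup of finite index which maps nontrivially to `ℝ`: a functional on a normal
subgroup with finitely many conjugates, extended to its stabilizer. -/

namespace Pool.Agent.LibNW45

universe u

theorem gap (F : Set ℝ) (hF : F.Finite) :
    ∃ d : ℝ, 0 < d ∧ ∀ a ∈ F, ∀ b ∈ F, a = b ∨ d ≤ |a - b| := by
  classical
  rcases hF.toFinset.offDiag.eq_empty_or_nonempty with h | h
  · refine ⟨1, one_pos, fun a ha b hb => ?_⟩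
    by_contra hcon
    push Not at hcon
    have h1 : (a, b) ∈ hF.toFinset.offDiag := by
      rw [Finset.mem_offDiag]
      exact ⟨hF.mem_toFinset.2 ha, hF.mem_toFinset.2 hb, hcon.1⟩
    rw [h] at h1
    exact Finset.notMem_empty _ h1
  · obtain ⟨⟨x, y⟩, hxy, hmin⟩ := Finset.exists_min_image _ (fun z : ℝ × ℝ => |z.1 - z.2|) h
    rw [Finset.mem_offDiag] at hxy
    refine ⟨|x - y|, abs_pos.2 (sub_ne_zero.2 hxy.2.2), fun a ha b hb => ?_⟩
    by_cases hab : a = b
    · exact Or.inl hab
    · right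
      exact hmin (a, b) (by
        rw [Finset.mem_offDiag]
        exact ⟨hF.mem_toFinset.2 ha, hF.mem_toFinset.2 hb, hab⟩)

section

variable {V : Type u} [Group V] (V₁ : Subgroup V) [V₁.Normal] (l : V₁ →* Multiplicative ℝ)

/-- the stabilizer of `l` -/
def stab : Subgroup V where
  carrier := {w | ∀ m : V₁, l (MulAut.conjNormal w⁻¹ m) = l m}
  mul_mem' := by
    intro a b ha hb m
    rw [mul_inv_rev, map_mul, MulAut.mul_apply, hb, ha]
  one_mem' := by
    intro m
    rw [inv_one, map_one]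
    rfl
  inv_mem' := by
    intro a ha m
    rw [inv_inv]
    have h := ha (MulAut.conjNormal a m)
    rw [map_inv, MulAut.inv_apply_self] at h
    exact h.symm

theorem le_stab : V₁ ≤ stab V₁ l := by
  intro w hw m
  have h : MulAut.conjNormal w⁻¹ m = (⟨w, hw⟩ : V₁)⁻¹ * m * ⟨w, hw⟩ := by
    apply Subtype.ext
    simp
  rw [h, map_mul, map_mul, map_inv, mul_comm, mul_inv_cancel_left]

/-- the functional on the stabilizer: transfer -/
noncomputable def tr [V₁.FiniteIndex] : stab V₁ l →* Multiplicative ℝ :=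
  MonoidHom.transfer (l.comp (Subgroup.subgroupOfEquivOfLe (le_stab V₁ l)).toMonoidHom)

theorem tr_apply [V₁.FiniteIndex] (m : V₁) :
    tr V₁ l ⟨m, le_stab V₁ l m.2⟩ = l m ^ (V₁.subgroupOf (stab V₁ l)).index := by
  classical
  set H := V₁.subgroupOf (stab V₁ l) with hH
  set φ : H →* Multiplicative ℝ :=
    l.comp (Subgroup.subgroupOfEquivOfLe (le_stab V₁ l)).toMonoidHom with hφ
  set g : stab V₁ l := ⟨m, le_stab V₁ l m.2⟩ with hg
  have hgH : g ∈ H := by
    rw [hH, Subgroup.mem_subgroupOf]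
    exact m.2
  let T : H.LeftTransversal := default
  have hfix : ∀ q : stab V₁ l ⧸ H, g⁻¹ • q = q := by
    intro q
    induction q using QuotientGroup.induction_on with
    | H t =>
      have h1 : g⁻¹ • (t : stab V₁ l ⧸ H) = ((g⁻¹ * t : stab V₁ l) : stab V₁ l ⧸ H) := rfl
      rw [h1, QuotientGroup.eq, mul_inv_rev, inv_inv, hH, Subgroup.mem_subgroupOf]
      have h2 : (((t⁻¹ * g * t : stab V₁ l)) : V) = (t : V)⁻¹ * m * (t : V)⁻¹⁻¹ := by
        rw [inv_inv]
        rfl
      rw [h2]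
      exact ‹V₁.Normal›.conj_mem m m.2 _
  have h1 : tr V₁ l g = MonoidHom.transfer φ g := rfl
  rw [h1, MonoidHom.transfer_def φ T]
  let _ := H.fintypeQuotientOfFiniteIndex
  have h3 : ∀ q : stab V₁ l ⧸ H, ∀ hq : ((T.2.leftQuotientEquiv q : stab V₁ l))⁻¹ *
      ((g • T).2.leftQuotientEquiv q : stab V₁ l) ∈ H, φ ⟨_, hq⟩ = l m := by
    intro q hq
    have h4 : ((g • T).2.leftQuotientEquiv q : stab V₁ l) = g * (T.2.leftQuotientEquiv q :
        stab V₁ l) := by
      rw [Subgroup.smul_apply_eq_smul_apply_inv_smul, hfix q, smul_eq_mul]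
    set w : stab V₁ l := (T.2.leftQuotientEquiv q : stab V₁ l) with hw
    have h5 : φ ⟨_, hq⟩ = l (MulAut.conjNormal (w : V)⁻¹ m) := by
      rw [hφ]
      show l _ = l _
      congr 1
      apply Subtype.ext
      show (((w)⁻¹ * ((g • T).2.leftQuotientEquiv q : stab V₁ l) : stab V₁ l) : V) = _
      rw [h4]
      simp [hg, mul_assoc]
    rw [h5]
    exact w.2 m
  unfold Subgroup.leftTransversals.diff
  simp only [h3]
  rw [Finset.prod_const, Finset.card_univ, ← Nat.card_eq_fintype_card]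
  rfl

end

end Pool.Agent.LibNW45
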