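import Mathlib
import Pool.Agent.LibNW45.W1

set_option autoImplicit false

/-! A functional with finitely many conjugates: constants. -/

namespace Pool.Agent.LibNW45

universe u

/-- a normal subgroup `V₁`, a subgroup `Sv`, a functional `μ` on `Sv` with finitely many conjugates
on `V₁` and stabilizer `Sv`, tests and constants -/
structure Dat (V : Type u) [Group V] where
  V₁ : Subgroup V
  nor : V₁.Normal
  Sv : Subgroup V
  le : V₁ ≤ Sv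
  μ : Sv → ℝ
  mul : ∀ a b, μ (a * b) = μ a + μ b
  E : Finset V₁
  m₀ : V₁
  B : ℝ
  d : ℝ
  m₀_mem : m₀ ∈ E
  B_pos : 0 < B
  d_pos : 0 < d
  bd : ∀ (w : V), ∀ m ∈ E, |μ ⟨w⁻¹ * m * w, le (by
    have := nor.conj_mem m m.2 w⁻¹; rwa [inv_inv] at this)⟩| ≤ B
  gap0 : ∀ (w : V), ∀ m ∈ E, μ ⟨w⁻¹ * m * w, le (by
    have := nor.conj_mem m m.2 w⁻¹; rwa [inv_inv] at this)⟩ = 0 ∨
      d ≤ |μ ⟨w⁻¹ * m * w, le (by
        have := nor.conj_mem m m.2 w⁻¹; rwa [inv_inv] at this)⟩|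
  m₀_val : d ≤ |μ ⟨m₀, le m₀.2⟩|
  sep : ∀ (w : V), w ∉ Sv → ∃ m ∈ E, d ≤ |μ ⟨w⁻¹ * m * w, le (by
    have := nor.conj_mem m m.2 w⁻¹; rwa [inv_inv] at this)⟩ - μ ⟨m, le m.2⟩|

private theorem W2_normal {V : Type u} [Group V] (h : VI V) :
    ∃ (V₁ : Subgroup V) (_ : V₁.Normal) (_ : V₁.FiniteIndex) (l : V₁ →* Multiplicative ℝ)
      (m : V₁), l m ≠ 1 := by
  obtain ⟨V₀, l, hfin, hl⟩ := h
  have hv : ∃ v : V₀, l v ≠ 1 := by
    by_contra hcon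
    push Not at hcon
    exact hl (MonoidHom.ext hcon)
  obtain ⟨v, hv⟩ := hv
  have h1 : V₀.normalCore.FiniteIndex := inferInstance
  refine ⟨V₀.normalCore, inferInstance, h1,
    l.comp (Subgroup.inclusion V₀.normalCore_le), ?_⟩
  obtain ⟨n, hn⟩ : ∃ n, n = V₀.normalCore.index := ⟨_, rfl⟩
  have hn0 : n ≠ 0 := hn ▸ h1.index_ne_zero
  have hmem : (v : V) ^ n ∈ V₀.normalCore := hn ▸ Subgroup.pow_index_mem V₀.normalCore (v : V)
  refine ⟨⟨(v : V) ^ n, hmem⟩, ?_⟩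
  have h2 : (l.comp (Subgroup.inclusion V₀.normalCore_le)) ⟨(v : V) ^ n, hmem⟩ = l (v ^ n) := rfl
  rw [h2, map_pow]
  intro h3
  apply hv
  have h4 : n • (l v).toAdd = 0 := by
    rw [← toAdd_pow, h3]
    rfl
  rcases smul_eq_zero.1 h4 with h5 | h5
  · exact absurd h5 hn0
  · exact h5

theorem exists_dat {V : Type u} [Group V] (h : VI V) : Nonempty (Dat V) := by
  classical
  obtain ⟨V₁, hnor, hfin, l, m₀, hm₀⟩ := W2_normal h
  obtain ⟨Sv, hSv⟩ : ∃ Sv, Sv = stab V₁ l := ⟨_, rfl⟩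
  obtain ⟨n, hn⟩ : ∃ n, n = (V₁.subgroupOf (stab V₁ l)).index := ⟨_, rfl⟩
  have hn0 : n ≠ 0 := by
    rw [hn]
    exact Subgroup.FiniteIndex.index_ne_zero
  have hconj : ∀ (w : V) (m : V₁), w⁻¹ * (m : V) * w ∈ V₁ := fun w m => by
    have := hnor.conj_mem m m.2 w⁻¹
    rwa [inv_inv] at this
  have hle : V₁ ≤ stab V₁ l := le_stab V₁ l
  obtain ⟨μ, hμ⟩ : ∃ μ : stab V₁ l → ℝ, μ = fun a => (tr V₁ l a).toAdd := ⟨_, rfl⟩
  have hμ1 : ∀ m : V₁, μ ⟨m, hle m.2⟩ = n * (l m).toAdd := by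
    intro m
    rw [hμ]
    show (tr V₁ l ⟨m, le_stab V₁ l m.2⟩).toAdd = _
    rw [tr_apply, ← hn, toAdd_pow, nsmul_eq_mul]
  have hμ2 : ∀ (w : V) (m : V₁), μ ⟨w⁻¹ * m * w, hle (hconj w m)⟩ =
      n * (l (MulAut.conjNormal w⁻¹ m)).toAdd := by
    intro w m
    rw [← hμ1]
    congr 1
    apply Subtype.ext
    simp
  -- the tests
  let _ : Fintype (V ⧸ V₁) := V₁.fintypeQuotientOfFiniteIndex
  have hq : ∀ q : V ⧸ V₁, ∃ m : V₁, q.out ∉ stab V₁ l →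
      l (MulAut.conjNormal q.out⁻¹ m) ≠ l m := by
    intro q
    by_cases hq : q.out ∈ stab V₁ l
    · exact ⟨1, fun h => absurd hq h⟩
    · have h1 : ∃ m : V₁, l (MulAut.conjNormal q.out⁻¹ m) ≠ l m := by
        by_contra hcon
        push Not at hcon
        exact hq hcon
      obtain ⟨m, hm⟩ := h1
      exact ⟨m, fun _ => hm⟩
  choose mq hmq using hq
  obtain ⟨E, hE⟩ : ∃ E : Finset V₁, E = insert m₀ (Finset.univ.image mq) := ⟨_, rfl⟩
  -- the values depend only on the coset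
  have hcos : ∀ (w : V) (m : V₁), l (MulAut.conjNormal w⁻¹ m) =
      l (MulAut.conjNormal ((w : V ⧸ V₁).out)⁻¹ m) := by
    intro w m
    obtain ⟨u, hu⟩ := QuotientGroup.mk_out_eq_mul V₁ w
    rw [hu]
    have h1 : MulAut.conjNormal (w * (u : V))⁻¹ m =
        u⁻¹ * (MulAut.conjNormal w⁻¹ m) * u := by
      apply Subtype.ext
      simp [mul_assoc]
    rw [h1, map_mul l, map_mul l, map_inv l, mul_comm, mul_inv_cancel_left]
  have hstab : ∀ w : V, w ∉ stab V₁ l → ((w : V ⧸ V₁).out) ∉ stab V₁ l := by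
    intro w hw hcon
    apply hw
    intro m
    rw [hcos w m]
    exact hcon m
  obtain ⟨F, hF⟩ : ∃ F : Set ℝ, F = insert 0 (⋃ m ∈ (E : Set V₁),
    Set.range fun q : V ⧸ V₁ => (n : ℝ) * (l (MulAut.conjNormal (q.out)⁻¹ m)).toAdd) := ⟨_, rfl⟩
  have hFfin : F.Finite := by
    rw [hF]
    refine Set.Finite.insert _ ?_
    exact E.finite_toSet.biUnion fun m _ => Set.finite_range _
  have hmemF : ∀ (w : V), ∀ m ∈ E, μ ⟨w⁻¹ * m * w, hle (hconj w m)⟩ ∈ F := by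
    intro w m hm
    rw [hμ2, hcos, hF]
    right
    simp only [Set.mem_iUnion]
    exact ⟨m, hm, Set.mem_range_self _⟩
  have hmemF1 : ∀ m ∈ E, μ ⟨m, hle m.2⟩ ∈ F := by
    intro m hm
    have h1 := hmemF 1 m hm
    have h2 : (⟨(1 : V)⁻¹ * m * 1, hle (hconj 1 m)⟩ : stab V₁ l) = ⟨m, hle m.2⟩ := by
      apply Subtype.ext
      simp
    rwa [h2] at h1
  have h0F : (0 : ℝ) ∈ F := by
    rw [hF]
    exact Set.mem_insert _ _
  obtain ⟨d, hd, hgap⟩ := gap F hFfin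
  obtain ⟨B, hB⟩ := (hFfin.image fun x => |x|).bddAbove
  have hm₀E : m₀ ∈ E := by
    rw [hE]
    exact Finset.mem_insert_self _ _
  have hmul : ∀ a b, μ (a * b) = μ a + μ b := by
    intro a b
    rw [hμ]
    show (tr V₁ l (a * b)).toAdd = _
    rw [map_mul, toAdd_mul]
  have hbd : ∀ (w : V), ∀ m ∈ E, |μ ⟨w⁻¹ * m * w, hle (hconj w m)⟩| ≤ max B 1 := by
    intro w m hm
    exact (hB ⟨_, hmemF w m hm, rfl⟩).trans (le_max_left _ _)
  have hgap0 : ∀ (w : V), ∀ m ∈ E, μ ⟨w⁻¹ * m * w, hle (hconj w m)⟩ = 0 ∨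
      d ≤ |μ ⟨w⁻¹ * m * w, hle (hconj w m)⟩| := by
    intro w m hm
    rcases hgap _ (hmemF w m hm) 0 h0F with h1 | h1
    · exact Or.inl h1
    · right
      rwa [sub_zero] at h1
  have hval : d ≤ |μ ⟨m₀, hle m₀.2⟩| := by
    rcases hgap _ (hmemF1 m₀ hm₀E) 0 h0F with h1 | h1
    · exfalso
      rw [hμ1] at h1
      rcases mul_eq_zero.1 h1 with h2 | h2
      · exact hn0 (by exact_mod_cast h2)
      · exact hm₀ h2
    · rwa [sub_zero] at h1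
  have hsep : ∀ (w : V), w ∉ stab V₁ l → ∃ m ∈ E,
      d ≤ |μ ⟨w⁻¹ * m * w, hle (hconj w m)⟩ - μ ⟨m, hle m.2⟩| := by
    intro w hw
    have h1 := hmq _ (hstab w hw)
    have hmE : mq (w : V ⧸ V₁) ∈ E := by
      rw [hE]
      exact Finset.mem_insert_of_mem (Finset.mem_image_of_mem _ (Finset.mem_univ _))
    refine ⟨mq (w : V ⧸ V₁), hmE, ?_⟩
    rcases hgap _ (hmemF w _ hmE) _ (hmemF1 _ hmE) with h2 | h2
    · exfalso
      rw [hμ2, hμ1, hcos] at h2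
      have h3 : ((n : ℕ) : ℝ) ≠ 0 := by exact_mod_cast hn0
      exact h1 (Multiplicative.toAdd.injective (mul_left_cancel₀ h3 h2))
    · exact h2
  exact ⟨⟨V₁, hnor, stab V₁ l, hle, μ, hmul, E, m₀, max B 1, d, hm₀E,
    lt_max_of_lt_right one_pos, hd, hbd, hgap0, hval, hsep⟩⟩

end Pool.Agent.LibNW45
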