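import Mathlib
import Pool.Agent.LibNW45.W2
import Pool.Agent.LibND.N15

set_option autoImplicit false

/-! Restricted permutational wreath products `V ≀_X H` with `X` infinite and `V` virtually
indicable. -/

namespace Pool.Agent.LibNW45

universe u w

open Pool.Agent.LibND

section circle

private theorem W3_ex_add (a b : ℝ) : ex (a + b) = ex a * ex b := by
  unfold ex
  rw [mul_add, Circle.exp_add]

private theorem W3_ex_zero : ex 0 = 1 := by
  unfold ex
  rw [mul_zero, Circle.exp_zero]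

private theorem W3_cos_le {δ v : ℝ} (hδ : 0 < δ) (h1 : δ ≤ |v|) (h2 : |v| ≤ 1 - δ) :
    Real.cos (2 * Real.pi * v) ≤ Real.cos (2 * Real.pi * δ) := by
  have hpi := Real.pi_pos
  have habs : Real.cos (2 * Real.pi * v) = Real.cos (2 * Real.pi * |v|) := by
    rw [← Real.cos_abs, abs_mul, abs_of_pos (by positivity : (0 : ℝ) < 2 * Real.pi)]
  rw [habs]
  rcases le_or_gt (|v|) (1 / 2) with h | h
  · apply Real.cos_le_cos_of_nonneg_of_le_pi
    · positivity
    · nlinarith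
    · nlinarith
  · have h3 : Real.cos (2 * Real.pi * |v|) = Real.cos (2 * Real.pi * (1 - |v|)) := by
      rw [show 2 * Real.pi * (1 - |v|) = 2 * Real.pi - 2 * Real.pi * |v| by ring,
        Real.cos_two_pi_sub]
    rw [h3]
    apply Real.cos_le_cos_of_nonneg_of_le_pi
    · positivity
    · nlinarith
    · nlinarith

private theorem W3_dist (a b : ℝ) :
    dist (ex a) (ex b) ^ 2 = 2 - 2 * Real.cos (2 * Real.pi * (a - b)) := by
  have h1 : dist (ex a) (ex b) = ‖((ex a : Circle) : ℂ) - ((ex b : Circle) : ℂ)‖ := by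
    rw [← dist_eq_norm]
    rfl
  have h2 : Real.cos (2 * Real.pi * (a - b)) =
      Real.cos (2 * Real.pi * a) * Real.cos (2 * Real.pi * b) +
        Real.sin (2 * Real.pi * a) * Real.sin (2 * Real.pi * b) := by
    rw [mul_sub, Real.cos_sub]
  rw [h1, h2]
  unfold ex
  rw [Circle.coe_exp, Circle.coe_exp, ← Complex.normSq_eq_norm_sq, Complex.normSq_apply,
    Complex.sub_re, Complex.sub_im, Complex.exp_ofReal_mul_I_re, Complex.exp_ofReal_mul_I_re,
    Complex.exp_ofReal_mul_I_im, Complex.exp_ofReal_mul_I_im]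
  nlinarith [Real.sin_sq_add_cos_sq (2 * Real.pi * a), Real.sin_sq_add_cos_sq (2 * Real.pi * b)]

private theorem W3_dist_ge {δ a b : ℝ} (hδ : 0 < δ) (h1 : δ ≤ |a - b|) (h2 : |a - b| ≤ 1 - δ) :
    Real.sqrt (2 - 2 * Real.cos (2 * Real.pi * δ)) ≤ dist (ex a) (ex b) := by
  rw [Real.sqrt_le_left dist_nonneg, W3_dist]
  linarith [W3_cos_le hδ h1 h2]

private theorem W3_ex_inj {a b : ℝ} (h : ex a = ex b) (hab : |a - b| < 1) : a = b := by
  unfold ex at h
  rw [Circle.exp_eq_exp] at h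
  obtain ⟨m, hm⟩ := h
  have hpi := Real.pi_pos
  have h1 : a - b = m := by
    have : 2 * Real.pi * (a - b) = 2 * Real.pi * m := by
      rw [mul_sub, hm]; ring
    exact mul_left_cancel₀ (by positivity) this
  rw [h1] at hab
  have h2 : |m| < 1 := by exact_mod_cast hab
  have h3 : m = 0 := Int.abs_lt_one_iff.1 h2
  rw [h3] at h1
  simpa [sub_eq_zero] using h1

end circle

section numbers

variable {V : Type u} [Group V] (D : Dat V)

open Classical in
/-- the functional, extended by `0` -/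
noncomputable def Dat.mu (v : V) : ℝ := if h : v ∈ D.Sv then D.μ ⟨v, h⟩ else 0

theorem Dat.mu_eq {v : V} (h : v ∈ D.Sv) : D.mu v = D.μ ⟨v, h⟩ := dif_pos h

theorem Dat.mu_mul {a b : V} (ha : a ∈ D.Sv) (hb : b ∈ D.Sv) :
    D.mu (a * b) = D.mu a + D.mu b := by
  rw [D.mu_eq ha, D.mu_eq hb, D.mu_eq (mul_mem ha hb), ← D.mul]
  rfl

theorem Dat.mu_one : D.mu 1 = 0 := by
  have := D.mu_mul D.Sv.one_mem D.Sv.one_mem
  rw [mul_one] at this
  linarith

theorem Dat.conj_mem (w : V) (m : D.V₁) : w⁻¹ * m * w ∈ D.V₁ := by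
  have := D.nor.conj_mem m m.2 w⁻¹
  rwa [inv_inv] at this

theorem Dat.mu_bd (w : V) {m : D.V₁} (hm : m ∈ D.E) : |D.mu (w⁻¹ * m * w)| ≤ D.B := by
  rw [D.mu_eq (D.le (D.conj_mem w m))]
  exact D.bd w m hm

theorem Dat.mu_bd' {m : D.V₁} (hm : m ∈ D.E) : |D.mu m| ≤ D.B := by
  have := D.mu_bd 1 hm
  simpa using this

theorem Dat.mu_gap (w : V) {m : D.V₁} (hm : m ∈ D.E) :
    D.mu (w⁻¹ * m * w) = 0 ∨ D.d ≤ |D.mu (w⁻¹ * m * w)| := by
  rw [D.mu_eq (D.le (D.conj_mem w m))]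
  exact D.gap0 w m hm

theorem Dat.mu_m₀ : D.d ≤ |D.mu D.m₀| := by
  rw [D.mu_eq (D.le D.m₀.2)]
  exact D.m₀_val

theorem Dat.mu_sep (w : V) (hw : w ∉ D.Sv) :
    ∃ m ∈ D.E, D.d ≤ |D.mu (w⁻¹ * m * w) - D.mu m| := by
  obtain ⟨m, hm, h⟩ := D.sep w hw
  refine ⟨m, hm, ?_⟩
  rw [D.mu_eq (D.le (D.conj_mem w m)), D.mu_eq (D.le m.2)]
  exact h

theorem Dat.d_le_B : D.d ≤ D.B := D.mu_m₀.trans (D.mu_bd' D.m₀_mem)

/-- the base -/
noncomputable def Dat.q : ℝ := 4 * D.B / D.d

/-- the scale -/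
noncomputable def Dat.c (k : ℕ) : ℝ := 1 / (8 * D.B * D.q ^ k)

/-- the parameters -/
noncomputable def Dat.th (k i : ℕ) (r : ℝ) : ℝ := D.c k * D.q ^ i * (1 + D.d / (8 * D.B) * r)

theorem Dat.q_ge : 4 ≤ D.q := by
  unfold Dat.q
  rw [le_div_iff₀ D.d_pos]
  linarith [D.d_le_B]

theorem Dat.q_pos : 0 < D.q := lt_of_lt_of_le (by norm_num) D.q_ge

theorem Dat.q_mul : D.q * D.d = 4 * D.B := by
  unfold Dat.q
  exact div_mul_cancel₀ _ D.d_pos.ne'

theorem Dat.c_pos (k : ℕ) : 0 < D.c k := by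
  unfold Dat.c
  have := D.B_pos
  have := D.q_pos
  positivity

theorem Dat.c_mul (k : ℕ) : D.c k * D.q ^ k * (8 * D.B) = 1 := by
  unfold Dat.c
  have h1 := D.B_pos
  have h2 := D.q_pos
  have h3 : (0 : ℝ) < D.q ^ k := by positivity
  field_simp

theorem Dat.pow_ge (i : ℕ) : 1 ≤ D.q ^ i := one_le_pow₀ (by linarith [D.q_ge])

theorem Dat.cq_pos (k i : ℕ) : 0 < D.c k * D.q ^ i :=
  mul_pos (D.c_pos k) (pow_pos D.q_pos i)

theorem Dat.del : 0 < D.d / (8 * D.B) ∧ D.d / (8 * D.B) ≤ 1 / 8 := by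
  have h1 := D.B_pos
  have h2 := D.d_pos
  refine ⟨by positivity, ?_⟩
  rw [div_le_div_iff₀ (by positivity) (by norm_num)]
  linarith [D.d_le_B]

theorem Dat.th_ge {k i : ℕ} {r : ℝ} (h0 : 0 ≤ r) : D.c k * D.q ^ i ≤ D.th k i r := by
  unfold Dat.th
  have h1 := D.del.1
  have h2 := D.cq_pos k i
  have h3 : 0 ≤ D.d / (8 * D.B) * r := by positivity
  nlinarith

theorem Dat.th_le {k i : ℕ} {r : ℝ} (h0 : 0 ≤ r) (h1 : r ≤ 1) :
    D.th k i r ≤ 2 * (D.c k * D.q ^ i) := by
  unfold Dat.th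
  obtain ⟨h2, h3⟩ := D.del
  have h4 := D.cq_pos k i
  have h5 : D.d / (8 * D.B) * r ≤ 1 := by nlinarith
  nlinarith

theorem Dat.th_B {k i : ℕ} (hi : i < k) {r : ℝ} (h0 : 0 ≤ r) (h1 : r ≤ 1) :
    D.th k i r * D.B ≤ 1 / 4 := by
  have h2 := D.th_le (k := k) (i := i) h0 h1
  have h3 : D.q ^ i ≤ D.q ^ k := pow_le_pow_right₀ (by linarith [D.q_ge]) hi.le
  have h4 := D.c_mul k
  have h5 := D.B_pos
  have h6 : D.c k * D.q ^ i ≤ D.c k * D.q ^ k := mul_le_mul_of_nonneg_left h3 (D.c_pos k).le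
  calc D.th k i r * D.B ≤ 2 * (D.c k * D.q ^ i) * D.B := mul_le_mul_of_nonneg_right h2 h5.le
    _ ≤ 2 * (D.c k * D.q ^ k) * D.B := by
        apply mul_le_mul_of_nonneg_right _ h5.le
        linarith
    _ = 1 / 4 := by linarith

theorem Dat.th_pos {k i : ℕ} {r : ℝ} (h0 : 0 ≤ r) : 0 < D.th k i r :=
  lt_of_lt_of_le (D.cq_pos k i) (D.th_ge h0)

theorem Dat.th_abs {k i : ℕ} (hi : i < k) {r a : ℝ} (h0 : 0 ≤ r) (h1 : r ≤ 1)
    (ha : |a| ≤ D.B) : |D.th k i r * a| ≤ 1 / 4 := by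
  rw [abs_mul, abs_of_pos (D.th_pos h0)]
  exact (mul_le_mul_of_nonneg_left ha (D.th_pos h0).le).trans (D.th_B hi h0 h1)

theorem Dat.eta_le {k i : ℕ} {r a : ℝ} (h0 : 0 ≤ r) (ha : D.d ≤ |a|) :
    D.c k * D.d / 2 ≤ |D.th k i r * a| := by
  rw [abs_mul, abs_of_pos (D.th_pos h0)]
  have h1 := D.th_ge (k := k) (i := i) h0
  have h2 := D.pow_ge i
  have h3 := D.c_pos k
  have h4 := D.d_pos
  have h5 : D.c k ≤ D.th k i r := le_trans (by nlinarith) h1
  calc D.c k * D.d / 2 ≤ D.c k * D.d := by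
        have : 0 < D.c k * D.d := mul_pos h3 h4
        linarith
    _ ≤ D.th k i r * |a| := mul_le_mul h5 ha h4.le (D.th_pos h0).le

theorem Dat.th_sep {k i j : ℕ} (hij : i < j) {r s : ℝ} (hr0 : 0 ≤ r) (hr1 : r ≤ 1) (hs0 : 0 ≤ s)
    {a b : ℝ} (ha : |a| ≤ D.B) (hb : D.d ≤ |b|) :
    D.c k * D.d / 2 ≤ |D.th k j s * b - D.th k i r * a| := by
  have h1 : |D.th k i r * a| ≤ 2 * (D.c k * D.q ^ i) * D.B := by
    rw [abs_mul, abs_of_pos (D.th_pos hr0)]
    exact mul_le_mul (D.th_le hr0 hr1) ha (abs_nonneg _) (by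
      have := D.cq_pos k i
      linarith)
  have h2 : D.c k * D.q ^ i * (4 * D.B) ≤ |D.th k j s * b| := by
    rw [abs_mul, abs_of_pos (D.th_pos hs0)]
    have h3 : D.q ^ (i + 1) ≤ D.q ^ j := pow_le_pow_right₀ (by linarith [D.q_ge]) hij
    have h4 : D.c k * D.q ^ i * (4 * D.B) = D.c k * D.q ^ (i + 1) * D.d := by
      rw [← D.q_mul]
      ring
    rw [h4]
    refine mul_le_mul ?_ hb D.d_pos.le (D.th_pos hs0).le
    exact (mul_le_mul_of_nonneg_left h3 (D.c_pos k).le).trans (D.th_ge hs0)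
  have h5 : |D.th k j s * b| - |D.th k i r * a| ≤ |D.th k j s * b - D.th k i r * a| :=
    abs_sub_abs_le_abs_sub _ _
  have h6 : D.c k ≤ D.c k * D.q ^ i := by
    have := D.pow_ge i
    have := D.c_pos k
    nlinarith
  have h7 : D.c k * D.d ≤ D.c k * D.q ^ i * D.B :=
    mul_le_mul h6 D.d_le_B D.d_pos.le (D.cq_pos k i).le
  have h8 : 0 < D.c k * D.d := mul_pos (D.c_pos k) D.d_pos
  linarith

theorem Dat.th_sep' {k i j : ℕ} (hij : i ≠ j) {r s : ℝ} (hr0 : 0 ≤ r) (hr1 : r ≤ 1)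
    (hs0 : 0 ≤ s) (hs1 : s ≤ 1) {a b : ℝ} (ha : |a| ≤ D.B) (hb : |b| ≤ D.B) (ha' : D.d ≤ |a|)
    (hb' : D.d ≤ |b|) : D.c k * D.d / 2 ≤ |D.th k j s * b - D.th k i r * a| := by
  rcases lt_or_gt_of_ne hij with h | h
  · exact D.th_sep h hr0 hr1 hs0 ha hb'
  · rw [abs_sub_comm]
    exact D.th_sep h hs0 hs1 hr0 hb ha'

theorem Dat.th_same {k i : ℕ} {r s : ℝ} (hr0 : 0 ≤ r) (hr1 : r ≤ 1)
    (hs0 : 0 ≤ s) (hs1 : s ≤ 1) {a b : ℝ} (hb : |b| ≤ D.B) (hab : D.d ≤ |a - b|) :
    D.c k * D.d / 2 ≤ |D.th k i s * a - D.th k i r * b| := by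
  have h1 : D.th k i s * a - D.th k i r * b =
      D.th k i s * (a - b) + (D.th k i s - D.th k i r) * b := by ring
  have h2 : |D.th k i s - D.th k i r| ≤ D.c k * D.q ^ i * (D.d / (8 * D.B)) := by
    have h3 : D.th k i s - D.th k i r = D.c k * D.q ^ i * (D.d / (8 * D.B)) * (s - r) := by
      unfold Dat.th
      ring
    rw [h3, abs_mul, abs_of_pos (mul_pos (D.cq_pos k i) D.del.1)]
    have h4 : |s - r| ≤ 1 := by
      rw [abs_le]
      constructor <;> linarith
    have h5 := mul_pos (D.cq_pos k i) D.del.1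
    nlinarith [abs_nonneg (s - r)]
  have h6 : |(D.th k i s - D.th k i r) * b| ≤ D.c k * D.q ^ i * (D.d / 8) := by
    rw [abs_mul]
    have h7 := mul_le_mul h2 hb (abs_nonneg _) (mul_pos (D.cq_pos k i) D.del.1).le
    refine h7.trans (le_of_eq ?_)
    have := D.B_pos
    field_simp
  have h8 : D.c k * D.q ^ i * D.d ≤ |D.th k i s * (a - b)| := by
    rw [abs_mul, abs_of_pos (D.th_pos hs0)]
    exact mul_le_mul (D.th_ge hs0) hab D.d_pos.le (D.th_pos hs0).le
  have h9 : |D.th k i s * (a - b)| - |(D.th k i s - D.th k i r) * b| ≤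
      |D.th k i s * (a - b) + (D.th k i s - D.th k i r) * b| := by
    have := abs_sub_abs_le_abs_sub (D.th k i s * (a - b)) (-((D.th k i s - D.th k i r) * b))
    rwa [abs_neg, sub_neg_eq_add] at this
  have h6' : D.c k ≤ D.c k * D.q ^ i := by
    have := D.pow_ge i
    have := D.c_pos k
    nlinarith
  have h10 : D.c k * D.d ≤ D.c k * D.q ^ i * D.d := mul_le_mul_of_nonneg_right h6' D.d_pos.le
  have h11 : 0 < D.c k * D.d := mul_pos (D.c_pos k) D.d_pos
  rw [h1]
  linarith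

theorem Dat.eta {k : ℕ} : 0 < D.c k * D.d / 2 ∧ D.c k * D.d / 2 ≤ 1 / 8 := by
  have h1 := mul_pos (D.c_pos k) D.d_pos
  refine ⟨by linarith, ?_⟩
  have h2 := D.c_mul k
  have h3 := D.pow_ge k
  have h4 : D.c k * D.d ≤ D.c k * D.q ^ k * D.B := by
    have h6 : D.c k ≤ D.c k * D.q ^ k := by
      have := D.c_pos k
      nlinarith
    exact mul_le_mul h6 D.d_le_B D.d_pos.le (D.cq_pos k k).le
  linarith

end numbers

section groups

variable {V H X : Type u} [Group V] [Group H] [MulAction H X] (D : Dat V)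

/-- the base group of values in `V₁` -/
def Mw (H X : Type u) [Group H] [MulAction H X] : Subgroup (PW V H X) where
  carrier := {f | f.snd = 1 ∧ ∀ x, f.fst x ∈ D.V₁}
  mul_mem' := by
    rintro a b ⟨ha, ha'⟩ ⟨hb, hb'⟩
    refine ⟨?_, fun x => ?_⟩
    · rw [PW.mul_snd, ha, hb, mul_one]
    · rw [PW.mul_fst]
      exact mul_mem (ha' _) (hb' _)
  one_mem' := ⟨rfl, fun x => D.V₁.one_mem⟩
  inv_mem' := by
    rintro a ⟨ha, ha'⟩
    refine ⟨?_, fun x => ?_⟩
    · rw [PW.inv_snd, ha, inv_one]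
    · rw [PW.inv_fst]
      exact inv_mem (ha' _)

instance : (Mw D H X).Normal where
  conj_mem := by
    rintro a ⟨ha, ha'⟩ g
    refine ⟨?_, fun x => ?_⟩
    · rw [PW.mul_snd, PW.mul_snd, PW.inv_snd, ha, mul_one, mul_inv_cancel]
    · rw [PW.mul_fst, PW.mul_fst, PW.inv_fst, PW.mul_snd, ha, mul_one, smul_inv_smul]
      exact D.nor.conj_mem _ (ha' _) _

/-- the stabilizer -/
def Sw {k : ℕ} (x : Fin k → X) : Subgroup (PW V H X) where
  carrier := {f | ∀ i, f.snd⁻¹ • x i = x i ∧ f.fst (x i) ∈ D.Sv}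
  mul_mem' := by
    intro a b ha hb i
    refine ⟨?_, ?_⟩
    · rw [PW.mul_snd, mul_inv_rev, mul_smul, (ha i).1, (hb i).1]
    · rw [PW.mul_fst, (ha i).1]
      exact mul_mem (ha i).2 (hb i).2
  one_mem' := fun i => ⟨by rw [PW.one_snd, inv_one, one_smul], D.Sv.one_mem⟩
  inv_mem' := by
    intro a ha i
    have h : a.snd • x i = x i := by
      rw [← (inv_smul_eq_iff.1 (ha i).1)]
    refine ⟨?_, ?_⟩
    · rw [PW.inv_snd, inv_inv, h]
    · rw [PW.inv_fst, h]
      exact inv_mem (ha i).2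

theorem Mw_le {k : ℕ} (x : Fin k → X) : Mw D H X ≤ Sw D x := by
  rintro a ⟨ha, ha'⟩ i
  exact ⟨by rw [ha, inv_one, one_smul], D.le (ha' _)⟩

/-- the characters -/
noncomputable def ze {k : ℕ} (x : Fin k → X) (s : Fin k → ℝ) : Sw (H := H) D x →* Circle where
  toFun y := ex (∑ i : Fin k, D.th k i (s i) * D.mu ((y : PW V H X).fst (x i)))
  map_one' := by
    have h : ∀ i : Fin k, D.mu (((1 : Sw (H := H) D x) : PW V H X).fst (x i)) = 0 := fun i => D.mu_one
    simp only [h, mul_zero, Finset.sum_const_zero]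
    exact W3_ex_zero
  map_mul' := by
    intro y z
    rw [← W3_ex_add, ← Finset.sum_add_distrib]
    congr 1
    refine Finset.sum_congr rfl fun i _ => ?_
    have h : (((y * z : Sw (H := H) D x) : PW V H X).fst (x i)) =
        (y : PW V H X).fst (x i) * (z : PW V H X).fst (x i) := by
      have h1 : (((y * z : Sw (H := H) D x) : PW V H X).fst (x i)) =
        (y : PW V H X).fst (x i) * (z : PW V H X).fst ((y : PW V H X).snd⁻¹ • x i) := rfl
      rw [h1, (y.2 i).1]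
    rw [h, D.mu_mul (y.2 i).2 (z.2 i).2, mul_add]

theorem ze_apply {k : ℕ} (x : Fin k → X) (s : Fin k → ℝ) (y : Sw (H := H) D x) :
    ze D x s y = ex (∑ i : Fin k, D.th k i (s i) * D.mu ((y : PW V H X).fst (x i))) := rfl

open Classical in
/-- the functions supported at one point -/
noncomputable def sg (H : Type u) [Group H] [MulAction H X] (x : X) (m : D.V₁) : Mw D H X :=
  ⟨⟨fun y => if y = x then (m : V) else 1, by
    refine (Set.finite_singleton x).subset ?_
    intro y hy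
    rw [Function.mem_mulSupport] at hy
    by_contra hcon
    exact hy (if_neg hcon), 1⟩, rfl, by
    intro y
    show (if y = x then (m : V) else 1) ∈ D.V₁
    split_ifs
    · exact m.2
    · exact D.V₁.one_mem⟩

theorem sg_same (x : X) (m : D.V₁) : (sg D H x m : PW V H X).fst x = m := if_pos rfl

theorem sg_ne {x y : X} (h : y ≠ x) (m : D.V₁) : (sg D H x m : PW V H X).fst y = 1 := if_neg h

theorem sg_snd (x : X) (m : D.V₁) : (sg D H x m : PW V H X).snd = 1 := rfl

theorem conj_sg (g : PW V H X) (x y : X) (m : D.V₁) (hy : y = g.snd⁻¹ • x) :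
    (g⁻¹ * (sg D H x m : PW V H X) * g).fst y = (g.fst x)⁻¹ * m * g.fst x := by
  have h1 : g.snd • y = x := by rw [hy, smul_inv_smul]
  rw [PW.mul_fst, PW.mul_fst, PW.inv_fst, PW.inv_snd, PW.mul_snd, PW.inv_snd, sg_snd, mul_one,
    inv_inv, h1, sg_same]

theorem conj_sg_ne (g : PW V H X) (x y : X) (m : D.V₁) (hy : y ≠ g.snd⁻¹ • x) :
    (g⁻¹ * (sg D H x m : PW V H X) * g).fst y = 1 := by
  have h1 : g.snd • y ≠ x := by
    intro h
    apply hy
    rw [← h, inv_smul_smul]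
  rw [PW.mul_fst, PW.mul_fst, PW.inv_fst, PW.inv_snd, PW.mul_snd, PW.inv_snd, sg_snd, mul_one,
    inv_inv, sg_ne D h1, mul_one, inv_mul_cancel]

end groups

theorem wreath_VI {G V H X : Type u} [Group G] [Group V] [Group H] [MulAction H X] [Infinite X]
    (hV : VI V) (p : G →* PW V H X) (hp : Function.Surjective p)
    {C : Type w} [CStarAlgebra C] [PartialOrder C] [StarOrderedRing C] (U : G →* unitary C)
    (hC : IsGroupCStar G C U) (n : ℕ) : ¬ NucDimLE C n := by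
  classical
  obtain ⟨D⟩ := exists_dat hV
  obtain ⟨k, hk⟩ : ∃ k, k = n + 1 := ⟨_, rfl⟩
  obtain ⟨x, hx⟩ : ∃ x : Fin k → X, Function.Injective x :=
    ⟨fun i => Infinite.natEmbedding X i,
      fun i j h => Fin.ext ((Infinite.natEmbedding X).injective h)⟩
  -- the values
  have hval : ∀ (s : Fin k → ℝ) (i : Fin k) (y : Sw (H := H) D x),
      (∀ j, j ≠ i → (y : PW V H X).fst (x j) = 1) →
      ze D x s y = ex (D.th k i (s i) * D.mu ((y : PW V H X).fst (x i))) := by
    intro s i y hy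
    rw [ze_apply]
    congr 1
    rw [Finset.sum_eq_single i]
    · intro j _ hj
      rw [hy j hj, D.mu_one, mul_zero]
    · intro h
      exact absurd (Finset.mem_univ _) h
  have hval0 : ∀ (s : Fin k → ℝ) (y : Sw (H := H) D x),
      (∀ j, (y : PW V H X).fst (x j) = 1) → ze D x s y = ex 0 := by
    intro s y hy
    rw [ze_apply]
    congr 1
    refine Finset.sum_eq_zero fun j _ => ?_
    rw [hy j, D.mu_one, mul_zero]
  have hvs : ∀ (s : Fin k → ℝ) (i : Fin k) (m : D.V₁),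
      ze D x s (Subgroup.inclusion (Mw_le D x) (sg D H (x i) m)) =
        ex (D.th k i (s i) * D.mu m) := by
    intro s i m
    rw [hval s i _ (fun j hj => sg_ne D (fun h => hj (hx h)) m)]
    congr 2
    exact congrArg D.mu (sg_same D (x i) m)
  obtain ⟨η, hη⟩ : ∃ η, η = D.c k * D.d / 2 := ⟨_, rfl⟩
  obtain ⟨hη0, hη1⟩ := D.eta (k := k)
  rw [← hη] at hη0 hη1
  refine criterion p hp U hC (Mw D H X) (Sw D x) (Mw_le D x) k
    (fun s => ze D x s) ?_
    ((Finset.univ ×ˢ D.E).image fun z : Fin k × D.V₁ => sg D H (x z.1) z.2) ?_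
    (Real.sqrt (2 - 2 * Real.cos (2 * Real.pi * η))) ?_ ?_ n (by omega)
  · intro g
    apply Continuous.continuousOn
    simp only [ze_apply]
    unfold ex Dat.th
    apply Circle.exp.continuous.comp
    fun_prop
  · intro s hs t ht hst
    funext i
    have h1 := hst (sg D H (x i) D.m₀) (Finset.mem_image.2 ⟨(i, D.m₀),
      Finset.mem_product.2 ⟨Finset.mem_univ _, D.m₀_mem⟩, rfl⟩)
    rw [hvs, hvs] at h1
    have h3 := W3_ex_inj h1 (by
      have h4 := D.th_abs i.2 (hs i).1 (hs i).2 (D.mu_bd' D.m₀_mem)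
      have h5 := D.th_abs i.2 (ht i).1 (ht i).2 (D.mu_bd' D.m₀_mem)
      have h6 := abs_sub (D.th k i (s i) * D.mu D.m₀) (D.th k i (t i) * D.mu D.m₀)
      linarith)
    have h7 : D.mu D.m₀ ≠ 0 := by
      have := D.mu_m₀
      intro h
      rw [h, abs_zero] at this
      linarith [D.d_pos]
    have h8 := mul_right_cancel₀ h7 h3
    unfold Dat.th at h8
    have h9 := mul_left_cancel₀ (D.cq_pos k i).ne' h8
    have h10 := add_left_cancel h9
    exact mul_left_cancel₀ D.del.1.ne' h10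
  · apply Real.sqrt_pos.2
    have h1 : Real.cos (2 * Real.pi * η) < 1 := by
      have h2 : Real.cos (2 * Real.pi * η) < Real.cos 0 := by
        apply Real.cos_lt_cos_of_nonneg_of_le_pi le_rfl
        · nlinarith [Real.pi_pos]
        · have := Real.pi_pos
          positivity
      rwa [Real.cos_zero] at h2
    linarith
  · intro s hs t ht g hg
    have hfin : ∀ a b : ℝ, |a| ≤ 1 / 4 → |b| ≤ 1 / 4 → |a - b| ≤ 1 - η := by
      intro a b ha hb
      have := abs_sub a b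
      linarith
    by_cases hA : ∀ i, g.snd⁻¹ • x i = x i
    · -- the second case
      have hB : ∃ i, g.fst (x i) ∉ D.Sv := by
        by_contra hcon
        push Not at hcon
        exact hg fun i => ⟨hA i, hcon i⟩
      obtain ⟨i, hi⟩ := hB
      obtain ⟨m, hm, hsep⟩ := D.mu_sep _ hi
      refine ⟨sg D H (x i) m, Finset.mem_image.2 ⟨(i, m),
        Finset.mem_product.2 ⟨Finset.mem_univ _, hm⟩, rfl⟩, ?_⟩
      have hc : ((Subgroup.inclusion (Mw_le D x) (MulAut.conjNormal g⁻¹ (sg D H (x i) m)) :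
          Sw (H := H) D x) : PW V H X) = g⁻¹ * (sg D H (x i) m : PW V H X) * g := by
        rw [Subgroup.coe_inclusion, MulAut.conjNormal_apply, inv_inv]
      have h1 : ze D x s (Subgroup.inclusion (Mw_le D x)
          (MulAut.conjNormal g⁻¹ (sg D H (x i) m))) =
            ex (D.th k i (s i) * D.mu ((g.fst (x i))⁻¹ * m * g.fst (x i))) := by
        rw [hval s i]
        · rw [hc, conj_sg D g (x i) (x i) m (hA i).symm]
        · intro j hj
          rw [hc, conj_sg_ne D g (x i) (x j) m]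
          rw [hA i]
          exact fun h => hj (hx h)
      show _ ≤ dist (ze D x s _) (ze D x t _)
      rw [h1, hvs]
      apply W3_dist_ge hη0
      · rw [hη]
        exact D.th_same (ht i).1 (ht i).2 (hs i).1 (hs i).2 (D.mu_bd' hm) hsep
      · exact hfin _ _ (D.th_abs i.2 (hs i).1 (hs i).2 (D.mu_bd _ hm))
          (D.th_abs i.2 (ht i).1 (ht i).2 (D.mu_bd' hm))
    · push Not at hA
      obtain ⟨i, hi⟩ := hA
      refine ⟨sg D H (x i) D.m₀, Finset.mem_image.2 ⟨(i, D.m₀),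
        Finset.mem_product.2 ⟨Finset.mem_univ _, D.m₀_mem⟩, rfl⟩, ?_⟩
      have hc : ((Subgroup.inclusion (Mw_le D x) (MulAut.conjNormal g⁻¹ (sg D H (x i) D.m₀)) :
          Sw (H := H) D x) : PW V H X) = g⁻¹ * (sg D H (x i) D.m₀ : PW V H X) * g := by
        rw [Subgroup.coe_inclusion, MulAut.conjNormal_apply, inv_inv]
      have hb0 : |D.th k i (t i) * D.mu D.m₀| ≤ 1 / 4 :=
        D.th_abs i.2 (ht i).1 (ht i).2 (D.mu_bd' D.m₀_mem)
      -- the value `0`
      have hzero : Real.sqrt (2 - 2 * Real.cos (2 * Real.pi * η)) ≤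
          dist (ex 0) (ex (D.th k i (t i) * D.mu D.m₀)) := by
        apply W3_dist_ge hη0
        · rw [zero_sub, abs_neg, hη]
          exact D.eta_le (ht i).1 D.mu_m₀
        · exact hfin _ _ (by rw [abs_zero]; norm_num) hb0
      show _ ≤ dist (ze D x s _) (ze D x t _)
      rw [hvs]
      by_cases hl : ∃ l, x l = g.snd⁻¹ • x i
      · obtain ⟨l, hl⟩ := hl
        have hli : i ≠ l := by
          rintro rfl
          exact hi hl.symm
        have h1 : ze D x s (Subgroup.inclusion (Mw_le D x)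
            (MulAut.conjNormal g⁻¹ (sg D H (x i) D.m₀))) =
              ex (D.th k l (s l) * D.mu ((g.fst (x i))⁻¹ * D.m₀ * g.fst (x i))) := by
          rw [hval s l]
          · rw [hc, conj_sg D g (x i) (x l) D.m₀ hl]
          · intro j hj
            rw [hc, conj_sg_ne D g (x i) (x j) D.m₀]
            rw [← hl]
            exact fun h => hj (hx h)
        rw [h1]
        rcases D.mu_gap (g.fst (x i)) D.m₀_mem with h2 | h2
        · rw [h2, mul_zero]
          exact hzero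
        · apply W3_dist_ge hη0
          · rw [hη]
            exact D.th_sep' (fun h => hli (Fin.ext h)) (ht i).1 (ht i).2 (hs l).1 (hs l).2
              (D.mu_bd' D.m₀_mem) (D.mu_bd _ D.m₀_mem) D.mu_m₀ h2
          · exact hfin _ _ (D.th_abs l.2 (hs l).1 (hs l).2 (D.mu_bd _ D.m₀_mem)) hb0
      · push Not at hl
        have h1 : ze D x s (Subgroup.inclusion (Mw_le D x)
            (MulAut.conjNormal g⁻¹ (sg D H (x i) D.m₀))) = ex 0 := by
          apply hval0
          intro j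
          rw [hc, conj_sg_ne D g (x i) (x j) D.m₀ (hl j)]
        rw [h1]
        exact hzero

end Pool.Agent.LibNW45
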