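import Mathlib
import Pool.Agent.LibNW45.Defs

set_option autoImplicit false

/-! Every infinite finitely generated elementary amenable group is virtually indicable. -/

namespace Pool.Agent.LibNW45

universe u

theorem VI_of_surj {K Q : Type u} [Group K] [Group Q] (f : K →* Q) (hf : Function.Surjective f)
    (h : VI Q) : VI K := by
  obtain ⟨V₀, l, hfin, hl⟩ := h
  have hv : ∃ v : V₀, l v ≠ 1 := by
    by_contra hcon
    push Not at hcon
    exact hl (MonoidHom.ext hcon)
  obtain ⟨v, hv⟩ := hv
  refine ⟨V₀.comap f, l.comp (f.subgroupComap V₀), ?_, ?_⟩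
  · constructor
    rw [Subgroup.index_comap_of_surjective V₀ hf]
    exact hfin.index_ne_zero
  · intro h1
    obtain ⟨k, hk⟩ := hf v
    have hk' : k ∈ V₀.comap f := by
      rw [Subgroup.mem_comap, hk]
      exact v.2
    have h2 := DFunLike.congr_fun h1 ⟨k, hk'⟩
    apply hv
    have h3 : f.subgroupComap V₀ ⟨k, hk'⟩ = v := Subtype.ext hk
    rw [MonoidHom.comp_apply, h3] at h2
    exact h2

theorem VI_of_fi {K : Type u} [Group K] (M : Subgroup K) (hM : M.FiniteIndex) (h : VI M) :
    VI K := by
  obtain ⟨V₀, l, hfin, hl⟩ := h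
  have hv : ∃ v : V₀, l v ≠ 1 := by
    by_contra hcon
    push Not at hcon
    exact hl (MonoidHom.ext hcon)
  obtain ⟨v, hv⟩ := hv
  have e := V₀.equivMapOfInjective M.subtype M.subtype_injective
  refine ⟨V₀.map M.subtype, l.comp e.symm.toMonoidHom, ?_, ?_⟩
  · constructor
    rw [Subgroup.index_map_subtype]
    exact mul_ne_zero hfin.index_ne_zero hM.index_ne_zero
  · intro h1
    have h2 := DFunLike.congr_fun h1 (e v)
    apply hv
    rw [MonoidHom.comp_apply] at h2
    have h3 : e.symm.toMonoidHom (e v) = v := e.symm_apply_apply v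
    rw [h3] at h2
    exact h2

theorem VI_comm {K : Type u} [Group K] (hc : ∀ a b : K, a * b = b * a) (hfg : Group.FG K)
    (hinf : Infinite K) : VI K := by
  letI : CommGroup K := { ‹Group K› with mul_comm := hc }
  have : AddGroup.FG (Additive K) := by
    rw [← GroupFG.iff_add_fg]
    exact hfg
  obtain ⟨n, ι, _, p, hp, e, ⟨φ⟩⟩ := AddCommGroup.equiv_free_prod_directSum_zmod (Additive K)
  have hne : ∀ i, NeZero (p i ^ e i) := fun i => ⟨pow_ne_zero _ (hp i).ne_zero⟩
  have hfin : Finite (DirectSum ι fun i => ZMod (p i ^ e i)) := by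
    have h1 : Finite (∀ i, ZMod (p i ^ e i)) := inferInstance
    exact Finite.of_equiv _ DFinsupp.equivFunOnFintype.symm
  have hn : n ≠ 0 := by
    rintro rfl
    have h2 : Finite (Additive K) := Finite.of_equiv _ φ.toEquiv.symm
    have h3 : Finite K := h2
    exact not_finite K
  have i₀ : Fin n := ⟨0, Nat.pos_of_ne_zero hn⟩
  let L : Additive K →+ ℝ :=
    ((Int.castAddHom ℝ).comp (Finsupp.applyAddHom i₀)).comp
      ((AddMonoidHom.fst _ _).comp φ.toAddMonoidHom)
  refine ⟨⊤, (AddMonoidHom.toMultiplicativeRight L).comp (Subgroup.subtype ⊤), inferInstance, ?_⟩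
  intro h1
  have h2 := DFunLike.congr_fun h1 ⟨(φ.symm (Finsupp.single i₀ 1, 0)).toMul, trivial⟩
  have h3 : L (φ.symm (Finsupp.single i₀ 1, 0)) = 0 := h2
  have h4 : L (φ.symm (Finsupp.single i₀ 1, 0)) = 1 := by
    show (((φ (φ.symm (Finsupp.single i₀ 1, 0))).1 i₀ : ℤ) : ℝ) = 1
    rw [AddEquiv.apply_symm_apply]
    simp
  rw [h4] at h3
  exact one_ne_zero h3

/-- every infinite finitely generated section of `G` is virtually indicable -/
def Sec (G : Type u) [Group G] : Prop :=
  ∀ (L K : Type u) [Group L] [Group K] (i : L →* G) (f : L →* K), (∀ x, i x = 1 → f x = 1) →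
    Function.Surjective f → Group.FG K → Infinite K → VI K

theorem sec_class : EAClass.{u} Sec where
  iso := by
    intro G G' _ _ ⟨e⟩ hG L K _ _ i f hif hf
    exact hG L K (e.symm.toMonoidHom.comp i) f
      (fun x hx => hif x ((map_eq_one_iff e.symm e.symm.injective).1 hx)) hf
  finite := by
    intro G _ _ L K _ _ i f hif hf _ hinf
    exfalso
    choose s hs using hf
    have h1 : Function.Injective fun k : K => i (s k) := by
      intro a b hab
      have h2 : i ((s a)⁻¹ * s b) = 1 := by
        rw [map_mul, map_inv]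
        have : i (s a) = i (s b) := hab
        rw [this, inv_mul_cancel]
      have h3 := hif _ h2
      rw [map_mul, map_inv, hs, hs, inv_mul_eq_one] at h3
      exact h3
    have := Finite.of_injective _ h1
    exact not_finite K
  comm := by
    intro G _ hc L K _ _ i f hif hf hfg hinf
    refine VI_comm ?_ hfg hinf
    intro a b
    obtain ⟨x, rfl⟩ := hf a
    obtain ⟨y, rfl⟩ := hf b
    have h1 : i ((y * x)⁻¹ * (x * y)) = 1 := by
      rw [map_mul, map_inv, map_mul, map_mul, hc (i y) (i x), inv_mul_cancel]
    have h2 := hif _ h1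
    rw [map_mul, map_inv, map_mul, map_mul, inv_mul_eq_one] at h2
    exact h2.symm
  sub := by
    intro G _ G' hG L K _ _ i f hif hf
    exact hG L K (G'.subtype.comp i) f (fun x hx => hif x (Subtype.ext hx)) hf
  quot := by
    intro G _ N _ hG L K _ _ i f hif hf
    let L' : Subgroup (L × G) :=
      { carrier := {z | i z.1 = (z.2 : G ⧸ N)}
        mul_mem' := by
          intro a b ha hb
          show i (a.1 * b.1) = ((a.2 * b.2 : G) : G ⧸ N)
          rw [map_mul, QuotientGroup.mk_mul]
          exact congrArg₂ _ ha hb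
        one_mem' := by
          show i 1 = ((1 : G) : G ⧸ N)
          rw [map_one]
          rfl
        inv_mem' := by
          intro a ha
          show i a.1⁻¹ = ((a.2⁻¹ : G) : G ⧸ N)
          rw [map_inv, QuotientGroup.mk_inv]
          exact congrArg _ ha }
    refine hG L' K ((MonoidHom.snd L G).comp L'.subtype)
      (f.comp ((MonoidHom.fst L G).comp L'.subtype)) ?_ ?_
    · rintro ⟨⟨a, b⟩, hab⟩ hx
      apply hif
      have h1 : b = 1 := hx
      have h2 : i a = (b : G ⧸ N) := hab
      show i a = 1
      rw [h2, h1]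
      rfl
    · intro k
      obtain ⟨x, hx⟩ := hf k
      obtain ⟨g, hg⟩ := QuotientGroup.mk_surjective (i x)
      exact ⟨⟨(x, g), hg.symm⟩, hx⟩
  ext := by
    intro G _ N _ hN hQ L K _ _ i f hif hf hfg hinf
    have hnor : ((N.comap i).map f).Normal := Subgroup.Normal.map inferInstance f hf
    rcases finite_or_infinite (K ⧸ (N.comap i).map f) with hfin | hinf'
    · have hfi : ((N.comap i).map f).FiniteIndex := Subgroup.finiteIndex_of_finite_quotient
      refine VI_of_fi _ hfi (hN (N.comap i) ((N.comap i).map f) (i.subgroupComap N)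
        (f.subgroupMap (N.comap i)) ?_ (f.subgroupMap_surjective _) ?_ ?_)
      · intro x hx
        apply Subtype.ext
        exact hif _ (congrArg Subtype.val hx)
      · have := hfg
        have := hfi
        exact Subgroup.fg_of_index_ne_zero _
      · by_contra hcon
        rw [not_infinite_iff_finite] at hcon
        have h1 : Finite K := by
          have h2 := Subgroup.card_mul_index ((N.comap i).map f)
          apply Nat.finite_of_card_ne_zero
          rw [← h2]
          exact mul_ne_zero Nat.card_pos.ne' hfi.index_ne_zero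
        exact not_finite K
    · refine VI_of_surj (QuotientGroup.mk' _) (QuotientGroup.mk'_surjective _)
        (hQ L (K ⧸ (N.comap i).map f) ((QuotientGroup.mk' N).comp i)
          ((QuotientGroup.mk' _).comp f) ?_ ?_ ?_ hinf')
      · intro x hx
        have h1 : i x ∈ N := (QuotientGroup.eq_one_iff _).1 hx
        exact (QuotientGroup.eq_one_iff _).2 (Subgroup.mem_map_of_mem f h1)
      · exact (QuotientGroup.mk'_surjective _).comp hf
      · have := hfg
        exact Group.fg_of_surjective (QuotientGroup.mk'_surjective _)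
  union := by
    intro G _ 𝒮 hne hdir hcov hP L K _ _ i f hif hf hfg hinf
    obtain ⟨T, hT⟩ := hfg.out
    choose s hs using hf
    classical
    have hex : ∀ F : Finset K, ∃ S ∈ 𝒮, ∀ t ∈ F, i (s t) ∈ S := by
      intro F
      induction F using Finset.induction_on with
      | empty =>
        obtain ⟨S, hS⟩ := hne
        exact ⟨S, hS, fun t ht => absurd ht (Finset.notMem_empty t)⟩
      | insert a F _ ih =>
        obtain ⟨S, hS, h1⟩ := ih
        obtain ⟨S', hS', h2⟩ := hcov (i (s a))
        obtain ⟨S'', hS'', h3, h4⟩ := hdir S hS S' hS'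
        refine ⟨S'', hS'', fun t ht => ?_⟩
        rcases Finset.mem_insert.1 ht with rfl | ht
        · exact h4 h2
        · exact h3 (h1 t ht)
    obtain ⟨S, hS, hST⟩ := hex T
    refine hP S hS (S.comap i) K (i.subgroupComap S) (f.comp (S.comap i).subtype) ?_ ?_ ⟨T, hT⟩
      hinf
    · intro x hx
      exact hif _ (congrArg Subtype.val hx)
    · rw [← MonoidHom.range_eq_top, eq_top_iff, ← hT, Subgroup.closure_le]
      intro t ht
      exact ⟨⟨s t, hST t ht⟩, hs t⟩

theorem VI_of_EA {V : Type u} [Group V] (h : EA V) (hfg : Group.FG V) (hinf : Infinite V) :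
    VI V :=
  h Sec sec_class V V (MonoidHom.id V) (MonoidHom.id V) (fun _ hx => hx) Function.surjective_id
    hfg hinf

end Pool.Agent.LibNW45
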